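import Mathlib

/-!
# AISet: two-sided almost invariant sets

`h` has infinite order and `⟨h⟩` has infinite index in `Γ`.  `Φ = {x | (h x ∈ A) ≠ (x ∈ A)}` is finite.
The right cosets `⟨h⟩ x` (orbits of left multiplication by `⟨h⟩`) are infinitely many, so one of them,
`⟨h⟩ x₀`, does not meet `Φ`; so membership in `A` is constant on `⟨h⟩ x₀`.  Exchanging `A` and `Aᶜ` we
may assume `⟨h⟩ x₀ ⊆ A`; claim `Aᶜ` is finite.
-/

namespace Pool.Agent.PDN

theorem AISet_const (Γ : Type) [Group Γ] (A : Set Γ) (h : Γ) (y : Γ)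
    (hy : ∀ k : ℤ, h ^ k * y ∉ {x | ¬ (h * x ∈ A ↔ x ∈ A)}) :
    ∀ k : ℤ, (h ^ k * y ∈ A ↔ y ∈ A) := by
  have hstep : ∀ k : ℤ, (h ^ (k + 1) * y ∈ A ↔ h ^ k * y ∈ A) := by
    intro k
    have h1 := hy k
    rw [Set.mem_ofPred_eq, not_not] at h1
    have h2 : h ^ (k + 1) * y = h * (h ^ k * y) := by
      rw [add_comm, zpow_add, zpow_one, mul_assoc]
    rw [h2]
    exact h1
  intro k
  induction k using Int.induction_on with
  | zero => rw [zpow_zero, one_mul]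
  | succ k ih => exact (hstep _).trans ih
  | pred k ih =>
    have h1 := hstep (-(k : ℤ) - 1)
    rw [sub_add_cancel] at h1
    exact h1.symm.trans ih

theorem AISet_zpow_inj (Γ : Type) [Group Γ] (h : Γ) (hh : ∀ k : ℕ, 0 < k → h ^ k ≠ 1) (y : Γ) :
    Function.Injective fun k : ℤ => h ^ k * y := by
  intro a b hab
  have h1 : h ^ a = h ^ b := mul_right_cancel hab
  have h2 : h ^ (a - b) = 1 := by rw [zpow_sub, h1, mul_inv_cancel]
  by_contra hne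
  have h3 : a - b ≠ 0 := sub_ne_zero.2 hne
  have h4 : h ^ (a - b).natAbs = 1 := by
    rcases Int.natAbs_eq (a - b) with h5 | h5
    · rw [h5, zpow_natCast] at h2
      exact h2
    · rw [h5, zpow_neg, zpow_natCast, inv_eq_one] at h2
      exact h2
  exact hh _ (Int.natAbs_pos.2 h3) h4

theorem AISet_fin (Γ : Type) [Group Γ] (B : Set Γ)
    (hr : ∀ s : Γ, {x | ¬ (x * s ∈ B ↔ x ∈ B)}.Finite)
    (h : Γ) (hh : ∀ k : ℕ, 0 < k → h ^ k ≠ 1) (x₀ : Γ) (hx : ∀ k : ℤ, h ^ k * x₀ ∈ B) (y : Γ) :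
    {k : ℤ | h ^ k * y ∉ B}.Finite := by
  have h1 := (hr (x₀⁻¹ * y)).preimage (AISet_zpow_inj Γ h hh x₀).injOn
  refine h1.subset ?_
  intro k hk
  have hk' : h ^ k * y ∉ B := hk
  show ¬ (h ^ k * x₀ * (x₀⁻¹ * y) ∈ B ↔ h ^ k * x₀ ∈ B)
  intro h2
  have h3 : h ^ k * x₀ * (x₀⁻¹ * y) = h ^ k * y := by group
  rw [h3] at h2
  exact hk' (h2.2 (hx k))

theorem AISet_main (Γ : Type) [Group Γ] (B : Set Γ)
    (hl : ∀ s : Γ, {x | ¬ (s * x ∈ B ↔ x ∈ B)}.Finite)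
    (hr : ∀ s : Γ, {x | ¬ (x * s ∈ B ↔ x ∈ B)}.Finite)
    (h : Γ) (hh : ∀ k : ℕ, 0 < k → h ^ k ≠ 1) (x₀ : Γ) (hx : ∀ k : ℤ, h ^ k * x₀ ∈ B) :
    Bᶜ.Finite := by
  have hF := AISet_fin Γ B hr h hh x₀ hx
  -- every element outside `B` is of the form `h^k y` with `y ∈ Φ`
  have hsub : Bᶜ ⊆ ⋃ y ∈ {x | ¬ (h * x ∈ B ↔ x ∈ B)},
      (fun k : ℤ => h ^ k * y) '' {k : ℤ | h ^ k * y ∉ B} := by
    intro x hxB
    have hxB' : x ∉ B := hxB
    by_cases hc : ∀ k : ℤ, h ^ k * x ∉ {x | ¬ (h * x ∈ B ↔ x ∈ B)}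
    · exfalso
      have h1 := AISet_const Γ B h x hc
      have h2 := hF x
      have h3 : {k : ℤ | h ^ k * x ∉ B} = Set.univ := by
        apply Set.eq_univ_of_forall
        intro k
        show h ^ k * x ∉ B
        rw [h1 k]
        exact hxB'
      rw [h3] at h2
      exact Set.infinite_univ h2
    · obtain ⟨k, hk0⟩ := not_forall.1 hc
      have hk := not_not.1 hk0
      rw [Set.mem_iUnion₂]
      refine ⟨h ^ k * x, hk, -k, ?_, ?_⟩
      · show h ^ (-k) * (h ^ k * x) ∉ B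
        rw [zpow_neg, inv_mul_cancel_left]
        exact hxB'
      · show h ^ (-k) * (h ^ k * x) = x
        rw [zpow_neg, inv_mul_cancel_left]
  refine Set.Finite.subset ?_ hsub
  exact (hl h).biUnion fun y _ => (hF y).image _

theorem ai_set (Γ : Type) [Group Γ] (A : Set Γ)
    (hl : ∀ s : Γ, {x | ¬ (s * x ∈ A ↔ x ∈ A)}.Finite)
    (hr : ∀ s : Γ, {x | ¬ (x * s ∈ A ↔ x ∈ A)}.Finite)
    (h : Γ) (hh : ∀ k : ℕ, 0 < k → h ^ k ≠ 1) (hi : (Subgroup.zpowers h).index = 0) :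
    A.Finite ∨ Aᶜ.Finite := by
  have hinf : Infinite (Γ ⧸ Subgroup.zpowers h) := by
    by_contra hc
    rw [not_infinite_iff_finite] at hc
    have h1 : (Subgroup.zpowers h).FiniteIndex := Subgroup.finiteIndex_of_finite_quotient
    exact h1.index_ne_zero hi
  let π : Γ → Γ ⧸ Subgroup.zpowers h := fun x => ((x⁻¹ : Γ) : Γ ⧸ Subgroup.zpowers h)
  have hfin : (π '' {x | ¬ (h * x ∈ A ↔ x ∈ A)}).Finite := (hl h).image _
  obtain ⟨q, hq⟩ := hfin.exists_notMem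
  obtain ⟨z, rfl⟩ := QuotientGroup.mk_surjective q
  have hx₀ : ∀ k : ℤ, h ^ k * z⁻¹ ∉ {x | ¬ (h * x ∈ A ↔ x ∈ A)} := by
    intro k hk
    apply hq
    refine ⟨h ^ k * z⁻¹, hk, ?_⟩
    show (((h ^ k * z⁻¹)⁻¹ : Γ) : Γ ⧸ Subgroup.zpowers h) = (z : Γ ⧸ Subgroup.zpowers h)
    rw [QuotientGroup.eq]
    have : (h ^ k * z⁻¹)⁻¹⁻¹ * z = h ^ k := by group
    rw [this]
    exact ⟨k, rfl⟩
  have hc := AISet_const Γ A h z⁻¹ hx₀
  by_cases hz : z⁻¹ ∈ A
  · right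
    exact AISet_main Γ A hl hr h hh z⁻¹ fun k => (hc k).2 hz
  · left
    have h1 : (Aᶜ)ᶜ.Finite := by
      apply AISet_main Γ Aᶜ _ _ h hh z⁻¹
      · intro k
        rw [Set.mem_compl_iff, hc k]
        exact hz
      · intro s
        have : {x | ¬ (s * x ∈ Aᶜ ↔ x ∈ Aᶜ)} = {x | ¬ (s * x ∈ A ↔ x ∈ A)} := by
          ext x
          simp only [Set.mem_ofPred_eq, Set.mem_compl_iff, not_iff_not]
        rw [this]
        exact hl s
      · intro s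
        have : {x | ¬ (x * s ∈ Aᶜ ↔ x ∈ Aᶜ)} = {x | ¬ (x * s ∈ A ↔ x ∈ A)} := by
          ext x
          simp only [Set.mem_ofPred_eq, Set.mem_compl_iff, not_iff_not]
        rw [this]
        exact hr s
    rwa [compl_compl] at h1

end Pool.Agent.PDN
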