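import Mathlib

/-!
# Ends: a finitely generated group with a nontrivial almost invariant set has an element of infinite order

`S` = a finite symmetric generating set of `Γ` (e.g. `T ∪ T⁻¹`).  A set `C ⊆ Γ` is called connected if any
two of its points are joined by a path `x, x s₁, x s₁ s₂, …` (`s_i ∈ S`) inside `C`
(e.g. `Relation.ReflTransGen (fun a b => b ∈ C ∧ ∃ s ∈ S, b = a * s)`, symmetric as `S` is symmetric).
Left translates of connected sets are connected.  Let `δ` be the finite set of all `x` such that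
`(x s ∈ A) ≠ (x ∈ A)` for some `s ∈ S` (it contains both end points of each edge between `A` and `Aᶜ`),
and `K ⊇ δ ∪ {1}` a finite connected set (union of finitely many paths from `1`).
(a) A connected set `C` disjoint from `K` is contained in `A` or in `Aᶜ`.
(b) `A ∪ K` and `Aᶜ ∪ K` are connected (join a point `x ∈ A` with `1 ∈ K` by a path in `Γ`; up to its
    first visit to `K` it stays in `A`).
(c) `K` meets `A` and `Aᶜ` (both nonempty, `Γ` connected, so there is an edge between them).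
Claim: let `g K ∩ K = ∅` and `g K ⊆ A`.  Then `g⁻¹K ∩ K = ∅`, so `g⁻¹ K ⊆ A` or `⊆ Aᶜ`.
  `g⁻¹ (Aᶜ ∪ K)` is connected and disjoint from `K` (`Aᶜ ∪ K` is disjoint from `gK`), so it is contained in
  `A` or `Aᶜ`:  either (i) `g⁻¹ (Aᶜ ∪ K) ⊆ Aᶜ`, i.e. `g A ⊆ A \ K`, a proper subset of `A`, so `g` has infinite
  order (`g^k A ⊆ g A ≠ A`); or (ii) `g⁻¹ (Aᶜ ∪ K) ⊆ A`, i.e. `g Aᶜ ⊆ A \ K`.
As `A` is infinite there is `g ∈ A` with `gK ∩ K = ∅` (`g ∉ K K⁻¹`), and then `gK ⊆ A` by (a) as `1 ∈ K`.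
Similarly (exchange `A` and `Aᶜ`) there is `h` with `hK ∩ K = ∅`, `hK ⊆ Aᶜ`, and either `h` has infinite
order or `h A ⊆ Aᶜ \ K`.  In the remaining case `h g Aᶜ ⊆ h A ⊆ Aᶜ \ K`, a proper subset of `Aᶜ`, so `h g`
has infinite order.
-/

namespace Pool.Agent.PDN

/-- connected subsets: every `D` which is invariant along the edges inside `C` contains `C` or is
disjoint from `C` -/
def Ends_Conn {Γ : Type} [Group Γ] (S C : Set Γ) : Prop :=
  ∀ D : Set Γ, (∀ x ∈ C, ∀ s ∈ S, x * s ∈ C → (x ∈ D ↔ x * s ∈ D)) →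
    (∀ x ∈ C, x ∈ D) ∨ (∀ x ∈ C, x ∉ D)

lemma Ends_closed {Γ : Type} [Group Γ] (S : Set Γ) (hS : Subgroup.closure S = ⊤)
    (hsym : ∀ s ∈ S, s⁻¹ ∈ S) (E : Set Γ) (hE : ∀ x ∈ E, ∀ s ∈ S, x * s ∈ E) (x : Γ) (hx : x ∈ E)
    (y : Γ) : y ∈ E := by
  have h : ∀ g ∈ Subgroup.closure S, ∀ x, x ∈ E ↔ x * g ∈ E := by
    intro g hg
    induction hg using Subgroup.closure_induction with
    | mem s hs =>
      intro x
      refine ⟨fun hx => hE x hx s hs, fun hx => ?_⟩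
      have := hE _ hx _ (hsym s hs)
      simpa using this
    | one => intro x; simp
    | mul a b _ _ ha hb =>
      intro x
      rw [ha x, hb (x * a), mul_assoc]
    | inv a _ ha =>
      intro x
      rw [ha (x * a⁻¹)]
      simp
  have h2 := (h (x⁻¹ * y) (by rw [hS]; trivial) x).1 hx
  simpa using h2

lemma Ends_translate {Γ : Type} [Group Γ] (S C : Set Γ) (hC : Ends_Conn S C) (g : Γ) :
    Ends_Conn S {y | g * y ∈ C} := by
  intro D hD
  have h := hC {z | g⁻¹ * z ∈ D} (by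
    intro x hx s hs hxs
    simp only [Set.mem_ofPred_eq]
    have h1 := hD (g⁻¹ * x) (by simpa using hx) s hs (by simpa [mul_assoc] using hxs)
    rw [h1, mul_assoc])
  rcases h with h | h
  · left
    intro x hx
    have := h _ hx
    simpa using this
  · right
    intro x hx hxD
    apply h _ hx
    simpa using hxD

/-- finite connected sets containing `1` and a given point -/
lemma Ends_path {Γ : Type} [Group Γ] (S : Set Γ) (hS : Subgroup.closure S = ⊤)
    (hsym : ∀ s ∈ S, s⁻¹ ∈ S) (x : Γ) : ∃ K : Set Γ, K.Finite ∧ Ends_Conn S K ∧ 1 ∈ K ∧ x ∈ K := by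
  refine Ends_closed S hS hsym {x | ∃ K : Set Γ, K.Finite ∧ Ends_Conn S K ∧ 1 ∈ K ∧ x ∈ K} ?_ 1 ?_ x
  · rintro x ⟨K, hK1, hK2, hK3, hK4⟩ s hs
    refine ⟨insert (x * s) K, hK1.insert _, ?_, Set.mem_insert_of_mem _ hK3, Set.mem_insert _ _⟩
    intro D hD
    have h1 := hD x (Set.mem_insert_of_mem _ hK4) s hs (Set.mem_insert _ _)
    rcases hK2 D (fun y hy t ht hyt => hD y (Set.mem_insert_of_mem _ hy) t ht
      (Set.mem_insert_of_mem _ hyt)) with h | h
    · left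
      intro y hy
      rcases hy with rfl | hy
      · exact h1.1 (h x hK4)
      · exact h y hy
    · right
      intro y hy
      rcases hy with rfl | hy
      · exact fun h2 => h x hK4 (h1.2 h2)
      · exact h y hy
  · refine ⟨{1}, Set.finite_singleton _, ?_, rfl, rfl⟩
    intro D _
    by_cases h : (1 : Γ) ∈ D
    · left; intro x hx; rw [Set.mem_singleton_iff] at hx; rwa [hx]
    · right; intro x hx; rw [Set.mem_singleton_iff] at hx; rwa [hx]

lemma Ends_hull {Γ : Type} [Group Γ] (S : Set Γ) (hS : Subgroup.closure S = ⊤)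
    (hsym : ∀ s ∈ S, s⁻¹ ∈ S) (F : Set Γ) (hF : F.Finite) :
    ∃ K : Set Γ, K.Finite ∧ Ends_Conn S K ∧ 1 ∈ K ∧ F ⊆ K := by
  induction F, hF using Set.Finite.induction_on with
  | empty =>
    obtain ⟨K, h1, h2, h3, _⟩ := Ends_path S hS hsym 1
    exact ⟨K, h1, h2, h3, Set.empty_subset _⟩
  | @insert x F _ _ ih =>
    obtain ⟨K, h1, h2, h3, h4⟩ := ih
    obtain ⟨L, g1, g2, g3, g4⟩ := Ends_path S hS hsym x
    refine ⟨K ∪ L, h1.union g1, ?_, Or.inl h3, ?_⟩
    · intro D hD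
      have a := h2 D (fun y hy t ht hyt => hD y (Or.inl hy) t ht (Or.inl hyt))
      have b := g2 D (fun y hy t ht hyt => hD y (Or.inr hy) t ht (Or.inr hyt))
      rcases a with a | a <;> rcases b with b | b
      · left
        rintro y (hy | hy)
        · exact a y hy
        · exact b y hy
      · exact absurd (a 1 h3) (b 1 g3)
      · exact absurd (b 1 g3) (a 1 h3)
      · right
        rintro y (hy | hy)
        · exact a y hy
        · exact b y hy
    · intro y hy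
      rcases hy with rfl | hy
      · exact Or.inr g4
      · exact Or.inl (h4 hy)

lemma Ends_order {Γ : Type} [Group Γ] (B K : Set Γ) (g : Γ) (h : ∀ b ∈ B, g * b ∈ B ∧ g * b ∉ K)
    (hne : ∃ b ∈ B, b ∈ K) : ∀ k : ℕ, 0 < k → g ^ k ≠ 1 := by
  obtain ⟨b, hb, hbK⟩ := hne
  have h1 : ∀ k : ℕ, g ^ k * b ∈ B := by
    intro k
    induction k with
    | zero => simpa using hb
    | succ k ih => rw [pow_succ', mul_assoc]; exact (h _ ih).1
  intro k hk h2
  obtain ⟨j, rfl⟩ : ∃ j, k = j + 1 := ⟨k - 1, by omega⟩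
  have h3 := (h _ (h1 j)).2
  rw [← mul_assoc, ← pow_succ', h2, one_mul] at h3
  exact h3 hbK

/-- the setting: `K` is finite connected, contains `1` and the coboundary of `A` -/
lemma Ends_union {Γ : Type} [Group Γ] (S : Set Γ) (hS : Subgroup.closure S = ⊤)
    (hsym : ∀ s ∈ S, s⁻¹ ∈ S) (A K : Set Γ) (hK : Ends_Conn S K) (h1 : 1 ∈ K)
    (hδ : ∀ x, ∀ s ∈ S, ¬ (x * s ∈ A ↔ x ∈ A) → x ∈ K) : Ends_Conn S (A ∪ K) := by
  have key : ∀ D : Set Γ, (∀ x ∈ A ∪ K, ∀ s ∈ S, x * s ∈ A ∪ K → (x ∈ D ↔ x * s ∈ D)) →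
      (∀ x ∈ K, x ∈ D) → ∀ x ∈ A ∪ K, x ∈ D := by
    intro D hD hKD x hx
    by_contra hxD
    have hxA : x ∈ A := by
      rcases hx with hx | hx
      · exact hx
      · exact absurd (hKD x hx) hxD
    have h2 := Ends_closed S hS hsym {y | y ∈ A ∧ y ∉ D} (by
      rintro y ⟨hyA, hyD⟩ s hs
      have hyK : y ∉ K := fun h => hyD (hKD y h)
      have hys : y * s ∈ A := by
        by_contra hcon
        exact hyK (hδ y s hs (fun h => hcon (h.2 hyA)))
      exact ⟨hys, fun h => hyD ((hD y (Or.inl hyA) s hs (Or.inl hys)).2 h)⟩) x ⟨hxA, hxD⟩ 1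
    exact h2.2 (hKD 1 h1)
  intro D hD
  rcases hK D (fun x hx s hs hxs => hD x (Or.inr hx) s hs (Or.inr hxs)) with h | h
  · left; exact key D hD h
  · right
    intro x hx hxD
    have := key Dᶜ (fun x hx s hs hxs => by
      rw [Set.mem_compl_iff, Set.mem_compl_iff, hD x hx s hs hxs]) h x hx
    exact this hxD

lemma Ends_side {Γ : Type} [Group Γ] (S : Set Γ) (A K C : Set Γ) (hC : Ends_Conn S C)
    (hdis : ∀ x ∈ C, x ∉ K) (hδ : ∀ x, ∀ s ∈ S, ¬ (x * s ∈ A ↔ x ∈ A) → x ∈ K) :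
    (∀ x ∈ C, x ∈ A) ∨ (∀ x ∈ C, x ∉ A) := by
  apply hC A
  intro x hx s hs _
  by_contra hcon
  exact hdis x hx (hδ x s hs (fun h => hcon h.symm))

/-- the main dichotomy -/
lemma Ends_claim {Γ : Type} [Group Γ] (S : Set Γ) (hS : Subgroup.closure S = ⊤)
    (hsym : ∀ s ∈ S, s⁻¹ ∈ S) (A K : Set Γ) (hK : Ends_Conn S K) (h1 : 1 ∈ K)
    (hKf : K.Finite) (hAi : A.Infinite)
    (hδ : ∀ x, ∀ s ∈ S, ¬ (x * s ∈ A ↔ x ∈ A) → x ∈ K) :
    ∃ g : Γ, (∀ a ∈ A, g * a ∈ A ∧ g * a ∉ K) ∨ (∀ a ∉ A, g * a ∈ A ∧ g * a ∉ K) := by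
  obtain ⟨g, hgA, hg⟩ : ∃ g ∈ A, ∀ x ∈ K, g * x ∉ K := by
    have hfin : (Set.image2 (fun a b => a * b⁻¹) K K).Finite := hKf.image2 _ hKf
    obtain ⟨g, hgA, hg⟩ := hAi.exists_notMem_finite hfin
    refine ⟨g, hgA, fun x hx h => hg ?_⟩
    exact ⟨g * x, h, x, hx, by simp⟩
  refine ⟨g, ?_⟩
  -- `g K ⊆ A`
  have hgK : ∀ x ∈ K, g * x ∈ A := by
    have hc : Ends_Conn S {y | g⁻¹ * y ∈ K} := Ends_translate S K hK g⁻¹
    rcases Ends_side S A K _ hc (by
      intro y hy h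
      exact hg _ hy (by simpa using h)) hδ with h | h
    · intro x hx
      exact h (g * x) (by simpa using hx)
    · exact absurd hgA (h g (by simpa using h1))
  have hδ' : ∀ x, ∀ s ∈ S, ¬ (x * s ∈ Aᶜ ↔ x ∈ Aᶜ) → x ∈ K := by
    intro x s hs h
    apply hδ x s hs
    intro h2
    apply h
    rw [Set.mem_compl_iff, Set.mem_compl_iff, h2]
  have hU := Ends_union S hS hsym Aᶜ K hK h1 hδ'
  have hC := Ends_translate S _ hU g
  rcases Ends_side S A K _ hC (by
    intro y hy hyK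
    rcases hy with hy | hy
    · exact hy (hgK y hyK)
    · exact hg y hyK hy) hδ with h | h
  · right
    intro a ha
    have h3 : g * a ∉ Aᶜ ∪ K := fun hcon => ha (h a hcon)
    exact ⟨by_contra fun h4 => h3 (Or.inl h4), fun h4 => h3 (Or.inr h4)⟩
  · left
    intro a ha
    have h3 : g * a ∉ Aᶜ ∪ K := fun hcon => h a hcon ha
    exact ⟨by_contra fun h4 => h3 (Or.inl h4), fun h4 => h3 (Or.inr h4)⟩

theorem ends_order (Γ : Type) [Group Γ] (hfg : Group.FG Γ) (A : Set Γ)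
    (hA : ∀ s : Γ, {x | ¬ (x * s ∈ A ↔ x ∈ A)}.Finite) (h1 : A.Infinite) (h2 : Aᶜ.Infinite) :
    ∃ h : Γ, ∀ k : ℕ, 0 < k → h ^ k ≠ 1 := by
  classical
  obtain ⟨T, hT⟩ := Group.fg_def.1 hfg
  set S : Set Γ := (T : Set Γ) ∪ (T : Set Γ)⁻¹ with hSdef
  have hSf : S.Finite := (T.finite_toSet).union (T.finite_toSet).inv
  have hS : Subgroup.closure S = ⊤ := by
    apply top_unique
    rw [← hT]
    exact Subgroup.closure_mono Set.subset_union_left
  have hsym : ∀ s ∈ S, s⁻¹ ∈ S := by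
    intro s hs
    rcases hs with hs | hs
    · exact Or.inr (by simpa using hs)
    · exact Or.inl (by simpa using hs)
  set δ : Set Γ := ⋃ s ∈ S, {x | ¬ (x * s ∈ A ↔ x ∈ A)} with hδdef
  have hδf : δ.Finite := hSf.biUnion fun s _ => hA s
  obtain ⟨K, hKf, hKc, h1K, hδK⟩ := Ends_hull S hS hsym δ hδf
  have hδ : ∀ x, ∀ s ∈ S, ¬ (x * s ∈ A ↔ x ∈ A) → x ∈ K := by
    intro x s hs h
    apply hδK
    rw [hδdef, Set.mem_iUnion₂]
    exact ⟨s, hs, h⟩
  have hδ' : ∀ x, ∀ s ∈ S, ¬ (x * s ∈ Aᶜ ↔ x ∈ Aᶜ) → x ∈ K := by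
    intro x s hs h
    apply hδ x s hs
    intro h2
    apply h
    rw [Set.mem_compl_iff, Set.mem_compl_iff, h2]
  -- `K` meets `A` and its complement
  obtain ⟨a, ha⟩ := h1.nonempty
  obtain ⟨b, hb⟩ := h2.nonempty
  have hmeetA : ∃ x ∈ A, x ∈ K := by
    by_contra hcon
    push Not at hcon
    have := Ends_closed S hS hsym A (by
      intro x hx s hs
      by_contra hxs
      exact hcon x hx (hδ x s hs (fun h => hxs (h.2 hx)))) a ha b
    exact hb this
  have hmeetB : ∃ x ∈ Aᶜ, x ∈ K := by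
    by_contra hcon
    push Not at hcon
    have := Ends_closed S hS hsym Aᶜ (by
      intro x hx s hs
      by_contra hxs
      exact hcon x hx (hδ' x s hs (fun h => hxs (h.2 hx)))) b hb a
    exact this ha
  obtain ⟨g, hg⟩ := Ends_claim S hS hsym A K hKc h1K hKf h1 hδ
  rcases hg with hg | hg
  · exact ⟨g, Ends_order A K g hg hmeetA⟩
  obtain ⟨h, hh⟩ := Ends_claim S hS hsym Aᶜ K hKc h1K hKf h2 hδ'
  rcases hh with hh | hh
  · exact ⟨h, Ends_order Aᶜ K h hh hmeetB⟩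
  refine ⟨h * g, Ends_order Aᶜ K (h * g) ?_ hmeetB⟩
  intro x hx
  have h3 := hg x hx
  have h4 := hh (g * x) (by rw [Set.mem_compl_iff, not_not]; exact h3.1)
  rwa [mul_assoc]

end Pool.Agent.PDN
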