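import Mathlib

/-!
# Split: a function that is not almost constant has an infinite and coinfinite preimage set

If some fibre `φ⁻¹{k}` is infinite take `S = {k}` (the complement is infinite by hypothesis).  If all
fibres are finite then the image of `φ` is infinite; split it into two infinite parts
(`Set.Infinite` subsets of `ℤ`: e.g. `Infinite.exists_...`, or an injection `ℕ → range φ` and its even and odd
values) and take `S` = one of them.
-/

namespace Pool.Agent.PDN

theorem split_set (X : Type) (φ : X → ℤ) (h : ∀ c : ℤ, {x | φ x ≠ c}.Infinite) :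
    ∃ S : Set ℤ, (φ ⁻¹' S).Infinite ∧ (φ ⁻¹' S)ᶜ.Infinite := by
  classical
  by_cases h1 : ∃ k : ℤ, (φ ⁻¹' {k}).Infinite
  · obtain ⟨k, hk⟩ := h1
    refine ⟨{k}, hk, ?_⟩
    exact h k
  · push Not at h1
    have hX : (Set.univ : Set X).Infinite := (h 0).mono (Set.subset_univ _)
    have hR : (Set.range φ).Infinite := by
      intro hfin
      apply hX
      have h2 : (Set.univ : Set X) = ⋃ k ∈ Set.range φ, φ ⁻¹' {k} := by
        ext x
        simp
      rw [h2]
      exact hfin.biUnion fun k _ => Set.not_infinite.1 (fun hc => hc (h1 k))
    set f := hR.natEmbedding with hf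
    have hinj : Function.Injective fun n : ℕ => ((f n : Set.range φ) : ℤ) :=
      Subtype.val_injective.comp f.injective
    have hS : (Set.range fun n : ℕ => ((f (2 * n) : Set.range φ) : ℤ)).Infinite := by
      apply Set.infinite_range_of_injective
      intro a b hab
      have := hinj hab
      omega
    have hS' : (Set.range fun n : ℕ => ((f (2 * n + 1) : Set.range φ) : ℤ)).Infinite := by
      apply Set.infinite_range_of_injective
      intro a b hab
      have := hinj hab
      omega
    refine ⟨Set.range fun n : ℕ => ((f (2 * n) : Set.range φ) : ℤ), ?_, ?_⟩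
    · apply hS.preimage
      rintro _ ⟨n, rfl⟩
      exact (f (2 * n)).2
    · have h3 : (φ ⁻¹' Set.range fun n : ℕ => ((f (2 * n + 1) : Set.range φ) : ℤ)).Infinite := by
        apply hS'.preimage
        rintro _ ⟨n, rfl⟩
        exact (f (2 * n + 1)).2
      refine h3.mono ?_
      rintro x ⟨n, hn⟩ ⟨m, hm⟩
      have hnm : ((f (2 * n + 1) : Set.range φ) : ℤ) = ((f (2 * m) : Set.range φ) : ℤ) := by
        simp only at hn hm
        rw [hn, hm]
      have := hinj hnm
      omega

end Pool.Agent.PDN
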