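import Pool.Agent.PDN.Dat
import Pool.Agent.PDN.Ends
import Pool.Agent.PDN.Split
import Pool.Agent.PDN.AISet

/-!
# AI: assembly of `AIprop`

If `φ` is not almost constant, `split_set` gives `S`; `A = φ⁻¹ S` is infinite and coinfinite and almost
invariant on both sides (`{x | (n x ∈ A) ≠ (x ∈ A)} ⊆ {x | φ (n x) ≠ φ x}`).  `ends_order` gives `h`,
`ai_set` a contradiction.
-/

namespace Pool.Agent.PDN

theorem ai (Γ : Type) [Group Γ] (hfg : Group.FG Γ)
    (hz : ∀ h : Γ, (∀ k : ℕ, 0 < k → h ^ k ≠ 1) → (Subgroup.zpowers h).index = 0) : AIprop Γ := by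
  intro φ hl hr
  by_contra hcon
  push Not at hcon
  obtain ⟨S, hS1, hS2⟩ := split_set Γ φ (fun c => hcon c)
  have hl' : ∀ s : Γ, {x | ¬ (s * x ∈ φ ⁻¹' S ↔ x ∈ φ ⁻¹' S)}.Finite := by
    intro s
    refine (hl s).subset ?_
    intro x hx heq
    apply hx
    rw [Set.mem_preimage, Set.mem_preimage, heq]
  have hr' : ∀ s : Γ, {x | ¬ (x * s ∈ φ ⁻¹' S ↔ x ∈ φ ⁻¹' S)}.Finite := by
    intro s
    refine (hr s).subset ?_
    intro x hx heq
    apply hx
    rw [Set.mem_preimage, Set.mem_preimage, heq]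
  obtain ⟨h, hh⟩ := ends_order Γ hfg (φ ⁻¹' S) hr' hS1 hS2
  rcases ai_set Γ (φ ⁻¹' S) hl' hr' h hh (hz h hh) with h1 | h2
  · exact hS1 h1
  · exact hS2 h2

end Pool.Agent.PDN
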