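import Pool.Agent.PDN.RepDefs

/-!
# Eps: the augmentation, supports in a subgroup, relation elements
-/

open CategoryTheory

namespace Pool.Agent.PDN

open Pool.Agent.PD3

variable {G : Type} [Group G]

/-- the augmentation `ℤ[G] → ℤ` -/
noncomputable def eps : RR G →ₐ[ℤ] ℤ := MonoidAlgebra.lift ℤ ℤ G (1 : G →* ℤ)

theorem eps_single (g : G) (n : ℤ) : eps (MonoidAlgebra.single g n : RR G) = n := by
  unfold eps
  rw [MonoidAlgebra.lift_single]
  simp

/-- the support of `c` is contained in `N` -/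
def SuppIn (N : Subgroup G) (c : RR G) : Prop := ∀ g, c.coeff g ≠ 0 → g ∈ N

/-- relation: `∑ j, v_j (n_j - 1) = 0` -/
def IsRel {ι : Type} [Fintype ι] (n : ι → G) (v : ι → RR G) : Prop :=
  ∑ j, v j * (u (n j) - 1) = 0

/-- The statement `K ∩ I^ι = I K` for the relation module `K` of `N` (generated by `n j`):
a relation `v` over `ℤ[N]` with all augmentations zero is a sum of elements `m v' - v'`, `m ∈ N`, `v'` a
relation over `ℤ[N]`. -/
def RelProp (N : Subgroup G) {ι : Type} [Fintype ι] (n : ι → G) : Prop :=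
  ∀ v : ι → RR G, (∀ j, SuppIn N (v j)) → IsRel n v → (∀ j, eps (v j) = 0) →
    v ∈ AddSubgroup.closure {z : ι → RR G | ∃ m ∈ N, ∃ v' : ι → RR G,
      (∀ j, SuppIn N (v' j)) ∧ IsRel n v' ∧ z = fun j => u m * v' j - v' j}

end Pool.Agent.PDN
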