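import Pool.Agent.PDN.Pi
import Pool.Agent.PDN.Eps
import Pool.Agent.PD3.Coset2

/-!
# AcB: `RelProp` implies `H^1(G; ℤ[G/N]) = 0`

`K₁ = kerRep (qmap ℤ N)`, `0 → K₁ → ℤ[G] → ℤ[G/N] → 0`.  `φ : R^ι → K₁`,
`φ = ∑ j, prj' j ≫ ev K₁ (kel ℤ N n_j)`, so `kerInc (φ v) = ∑ v_j (n_j - 1)` (`rowsum`); surjective by
`kel_gen`.  `K₂ = kerRep φ`.
(1) `H^1(ℤ[G/N]) → H^2(K₁)` is injective as `H^1(ℤ[G]) = 0`; `H^2(K₁) → H^3(K₂)` is injective as
    `H^2(R^ι) = 0` (`pi_zero`), with image the kernel of `H^3(K₂) → H^3(R^ι)`.  So it is enough that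
    `Hm (kerInc φ) 3` is injective.
(2) `S = {v ∈ K₂ | all v_j supported in N}` generates `K₂` as a `G`-module: for `v ∈ K₂` and a coset
    `x = g N` let `v_x` be the restriction of the coordinates to `x`; `∑ (v_x)_j (n_j - 1)` is the
    restriction to `x` of `∑ v_j (n_j - 1) = 0` (right multiplication by `n_j` preserves `g N`); so
    `v_x ∈ K₂`, `g⁻¹ v_x ∈ S`, `v = ∑ v_x`.
(3) By `gen3`, every `c ∈ HH K₂ 3` is in the span of `Hm (ev K₂ s) 3 d`, `s ∈ S`; `HH R 3 = ℤ γ`; as
    `S` is a subgroup and `ev` is additive, `c = Hm (ev K₂ s) 3 γ` for some `s ∈ S`.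
(4) If `Hm (kerInc φ) 3 c = 0` then for all `j`, `0 = Hm (kerInc φ ≫ prj' j) c = Hm (ev K₂ s ≫ kerInc φ ≫ prj' j) γ
    = Hm (rmul (s_j)) γ = eps (s_j) γ` (`s_j` is supported in `N`, `rmul (u g) = rt g` acts trivially for
    `g ∈ N`), so `eps (s_j) = 0`.  `RelProp`: `s` is in the additive closure of the elements
    `m v' - v'`, `m ∈ N`, `v' ∈ S`.  `Hm (ev K₂ (ρ m v')) γ = Hm (ev K₂ v') (Hm (rt m) γ) = Hm (ev K₂ v') γ`
    (`rt_comp_ev`), so `c = 0`.
-/

open CategoryTheory

namespace Pool.Agent.PDN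

open Pool.Agent.PD3

variable {G : Type} [Group G]

/-- the morphism `R^ι → K₁` -/
noncomputable def AcB_phi (N : Subgroup G) {ι : Type} [Fintype ι] (n : ι → N) :
    piRep G ι ⟶ kerRep (qmap ℤ N) :=
  ∑ j, prj' j ≫ ev (kerRep (qmap ℤ N)) (kel ℤ N (n j))

theorem AcB_sum_hom {M M' : Rep.{0} ℤ G} {ι : Type} (s : Finset ι) (f : ι → (M ⟶ M')) (v : M.V) :
    (∑ j ∈ s, f j).hom v = ∑ j ∈ s, (f j).hom v := by
  classical
  induction s using Finset.induction_on with
  | empty => rfl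
  | insert a s ha ih =>
    rw [Finset.sum_insert ha, Finset.sum_insert ha, ← ih]
    rfl

theorem AcB_ev_kel (N : Subgroup G) (m : N) (c : RR G) :
    (kerInc (qmap ℤ N)).hom ((ev (kerRep (qmap ℤ N)) (kel ℤ N m)).hom c) = c * (u (m : G) - 1) := by
  have h : ev (kerRep (qmap ℤ N)) (kel ℤ N m) ≫ kerInc (qmap ℤ N) = rmul (u (m : G) - 1) := by
    apply lr_ext
    rw [ev_comp, ev_one, kel_inc, rmul_apply]
    show _ = (1 : RR G) * _
    rw [one_mul]
    rfl
  exact congrArg (fun f => f.hom c) h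

theorem AcB_phi_inc (N : Subgroup G) {ι : Type} [Fintype ι] (n : ι → N) (v : ι → RR G) :
    (kerInc (qmap ℤ N)).hom ((AcB_phi N n).hom v) = ∑ j, v j * (u (n j : G) - 1) := by
  unfold AcB_phi
  rw [AcB_sum_hom, map_sum]
  refine Finset.sum_congr rfl fun j _ => ?_
  exact AcB_ev_kel N (n j) (v j)

theorem AcB_phi_zero_iff (N : Subgroup G) {ι : Type} [Fintype ι] (n : ι → N) (v : ι → RR G) :
    (AcB_phi N n).hom v = 0 ↔ ∑ j, v j * (u (n j : G) - 1) = 0 := by
  rw [← AcB_phi_inc]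
  constructor
  · intro h
    rw [h, map_zero]
  · intro h
    apply kerInc_inj (qmap ℤ N)
    rw [map_zero]
    exact h

theorem AcB_phi_surj (N : Subgroup G) {ι : Type} [Fintype ι] [DecidableEq ι] (n : ι → N)
    (hn : Subgroup.closure (Set.range n) = ⊤) : Function.Surjective (AcB_phi N n).hom := by
  have hW := kel_gen (k := ℤ) N (Set.range n) hn (LinearMap.range (AcB_phi N n).hom.toLinearMap) (by
      rintro g w ⟨v, rfl⟩
      refine ⟨(piRep G ι).ρ g v, ?_⟩
      exact Rep.hom_comm_apply (AcB_phi N n) g v) (by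
      rintro _ ⟨j, rfl⟩
      refine ⟨(Pi.single j (1 : RR G) : ι → RR G), ?_⟩
      show (AcB_phi N n).hom (Pi.single j (1 : RR G) : ι → RR G) = _
      apply kerInc_inj (qmap ℤ N)
      rw [AcB_phi_inc, kel_inc, Finset.sum_eq_single j, Pi.single_eq_same, one_mul]
      · rfl
      · intro b _ hb
        rw [Pi.single_eq_of_ne hb, zero_mul]
      · intro h
        exact absurd (Finset.mem_univ j) h)
  intro m
  have hm : m ∈ LinearMap.range (AcB_phi N n).hom.toLinearMap := hW ▸ Submodule.mem_top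
  exact hm

open Classical in
/-- restriction to a coset -/
noncomputable def AcB_res (N : Subgroup G) (x : G ⧸ N) (c : RR G) : RR G :=
  MonoidAlgebra.ofCoeff (c.coeff.filter fun g => (g : G ⧸ N) = x)

open Classical in
theorem AcB_res_coeff (N : Subgroup G) (x : G ⧸ N) (c : RR G) (g : G) :
    (AcB_res N x c).coeff g = if (g : G ⧸ N) = x then c.coeff g else 0 := by
  unfold AcB_res
  rw [MonoidAlgebra.coeff_ofCoeff, Finsupp.filter_apply]

theorem AcB_res_add (N : Subgroup G) (x : G ⧸ N) (c d : RR G) :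
    AcB_res N x (c + d) = AcB_res N x c + AcB_res N x d := by
  apply coeff_ext
  intro z
  rw [AcB_res_coeff, MonoidAlgebra.coeff_add, MonoidAlgebra.coeff_add, Finsupp.add_apply,
    Finsupp.add_apply, AcB_res_coeff, AcB_res_coeff]
  split_ifs
  · rfl
  · rw [add_zero]

theorem AcB_res_zero (N : Subgroup G) (x : G ⧸ N) : AcB_res N x (0 : RR G) = 0 := by
  apply coeff_ext
  intro z
  rw [AcB_res_coeff]
  split_ifs
  · rfl
  · rfl

theorem AcB_res_sum (N : Subgroup G) (x : G ⧸ N) {ι : Type} (s : Finset ι) (c : ι → RR G) :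
    AcB_res N x (∑ j ∈ s, c j) = ∑ j ∈ s, AcB_res N x (c j) := by
  classical
  induction s using Finset.induction_on with
  | empty => exact AcB_res_zero N x
  | insert a s ha ih => rw [Finset.sum_insert ha, Finset.sum_insert ha, AcB_res_add, ih]

theorem AcB_res_sub (N : Subgroup G) (x : G ⧸ N) (c d : RR G) :
    AcB_res N x (c - d) = AcB_res N x c - AcB_res N x d := by
  rw [eq_sub_iff_add_eq, ← AcB_res_add, sub_add_cancel]

theorem AcB_res_mul (N : Subgroup G) (x : G ⧸ N) (c : RR G) (m : G) (hm : m ∈ N) :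
    AcB_res N x (c * u m) = AcB_res N x c * u m := by
  apply coeff_ext
  intro z
  rw [AcB_res_coeff, coeff_mul_u, coeff_mul_u, AcB_res_coeff]
  have h : ((z * m⁻¹ : G) : G ⧸ N) = (z : G ⧸ N) := by
    rw [QuotientGroup.eq]
    have : (z * m⁻¹)⁻¹ * z = m := by group
    rw [this]
    exact hm
  rw [h]

theorem AcB_res_rel (N : Subgroup G) (x : G ⧸ N) {ι : Type} [Fintype ι] (n : ι → N) (v : ι → RR G)
    (hv : ∑ j, v j * (u (n j : G) - 1) = 0) :
    ∑ j, AcB_res N x (v j) * (u (n j : G) - 1) = 0 := by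
  rw [← AcB_res_zero N x, ← hv, AcB_res_sum]
  refine Finset.sum_congr rfl fun j _ => ?_
  rw [mul_sub, mul_sub, mul_one, mul_one, AcB_res_sub, AcB_res_mul N x _ _ (n j).2]

open Classical in
theorem AcB_res_tot (N : Subgroup G) (c : RR G) (F : Finset (G ⧸ N))
    (hF : ∀ g, c.coeff g ≠ 0 → (g : G ⧸ N) ∈ F) : c = ∑ x ∈ F, AcB_res N x c := by
  apply coeff_ext
  intro z
  have h1 : (∑ x ∈ F, AcB_res N x c).coeff z = ∑ x ∈ F, (AcB_res N x c).coeff z := by
    have : ∀ F : Finset (G ⧸ N), (∑ x ∈ F, AcB_res N x c).coeff z =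
        ∑ x ∈ F, (AcB_res N x c).coeff z := by
      intro F
      induction F using Finset.induction_on with
      | empty => rfl
      | insert a s ha ih =>
        rw [Finset.sum_insert ha, Finset.sum_insert ha, MonoidAlgebra.coeff_add, Finsupp.add_apply,
          ih]
    exact this F
  rw [h1]
  by_cases hz : c.coeff z = 0
  · rw [hz]
    symm
    refine Finset.sum_eq_zero fun x _ => ?_
    rw [AcB_res_coeff, hz]
    split_ifs <;> rfl
  · rw [Finset.sum_eq_single (z : G ⧸ N)]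
    · rw [AcB_res_coeff, if_pos rfl]
    · intro b _ hb
      rw [AcB_res_coeff, if_neg (Ne.symm hb)]
    · intro h
      exact absurd (hF z hz) h

/-- generation of `K₂` -/
theorem AcB_gen (N : Subgroup G) {ι : Type} [Fintype ι] (n : ι → N)
    (W : Submodule ℤ (kerRep (AcB_phi N n)).V)
    (hW : ∀ g, ∀ w ∈ W, (kerRep (AcB_phi N n)).ρ g w ∈ W)
    (hS : {s : (kerRep (AcB_phi N n)).V | ∀ j, SuppIn N (((kerInc (AcB_phi N n)).hom s : ι → RR G) j)}
      ⊆ W) : W = ⊤ := by
  classical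
  rw [eq_top_iff]
  intro v _
  set v0 : ι → RR G := (kerInc (AcB_phi N n)).hom v with hv0
  have hrel : ∑ j, v0 j * (u (n j : G) - 1) = 0 := by
    rw [← AcB_phi_zero_iff]
    exact kerInc_zero (AcB_phi N n) v
  have hex : ∀ x : G ⧸ N, ∃ y : (kerRep (AcB_phi N n)).V,
      (kerInc (AcB_phi N n)).hom y = (fun j => AcB_res N x (v0 j) : ι → RR G) := by
    intro x
    apply kerInc_exact
    rw [AcB_phi_zero_iff]
    exact AcB_res_rel N x n v0 hrel
  choose y hy using hex
  have hyW : ∀ x, y x ∈ W := by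
    intro x
    obtain ⟨g, rfl⟩ := QuotientGroup.mk_surjective x
    have h1 : (kerRep (AcB_phi N n)).ρ g⁻¹ (y (g : G ⧸ N)) ∈ W := by
      apply hS
      intro j
      rw [Rep.hom_comm_apply, hy]
      show SuppIn N (u g⁻¹ * AcB_res N (g : G ⧸ N) (v0 j))
      intro z hz
      rw [coeff_u_mul, AcB_res_coeff, inv_inv] at hz
      by_contra hzN
      apply hz
      rw [if_neg]
      intro h
      apply hzN
      rw [eq_comm, QuotientGroup.eq, inv_mul_cancel_left] at h
      exact h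
    have h2 := hW g _ h1
    have h3 : (kerRep (AcB_phi N n)).ρ g ((kerRep (AcB_phi N n)).ρ g⁻¹ (y (g : G ⧸ N))) =
        y (g : G ⧸ N) := by
      rw [← Module.End.mul_apply, ← map_mul, mul_inv_cancel, map_one]
      rfl
    rwa [h3] at h2
  set F : Finset (G ⧸ N) := Finset.univ.biUnion fun j : ι =>
    (v0 j).coeff.support.image (fun g : G => (QuotientGroup.mk g : G ⧸ N)) with hF
  have hv : v = ∑ x ∈ F, y x := by
    apply kerInc_inj (AcB_phi N n)
    rw [map_sum]
    show v0 = _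
    funext j
    have h1 : (∑ x ∈ F, (kerInc (AcB_phi N n)).hom (y x) : ι → RR G) j =
        ∑ x ∈ F, AcB_res N x (v0 j) := by
      rw [Finset.sum_apply]
      refine Finset.sum_congr rfl fun x _ => ?_
      rw [hy]
    rw [h1]
    apply AcB_res_tot
    intro g hg
    rw [hF, Finset.mem_biUnion]
    exact ⟨j, Finset.mem_univ j, Finset.mem_image_of_mem _ (Finsupp.mem_support_iff.2 hg)⟩
  rw [hv]
  exact Submodule.sum_mem _ fun x _ => hyW x

theorem AcB_rmul_add (a b : RR G) : rmul (a + b) = rmul a + rmul b := by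
  apply hom_ext'
  intro m
  rw [rmul_apply]
  show (m : RR G) * (a + b) = (m : RR G) * a + (m : RR G) * b
  rw [mul_add]

theorem AcB_rmul_neg (a : RR G) : rmul (-a) = -rmul a := by
  apply hom_ext'
  intro m
  rw [rmul_apply]
  show (m : RR G) * (-a) = -((m : RR G) * a)
  rw [mul_neg]

theorem AcB_rmul_u (g : G) : rmul (u g) = rt ℤ g := by
  apply lr_ext
  rw [ev_one, rmul_apply]
  show (1 : RR G) * _ = _
  rw [one_mul]

theorem AcB_eps (hG : IsPDk ℤ G) (N : Subgroup G) (hperf : ⁅N, N⁆ = N)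
    (d : HH (Rep.leftRegular ℤ G) 3) (a : RR G) (ha : SuppIn N a) :
    Hm (rmul a) 3 d = eps a • d := by
  classical
  have hs : ∀ (g : G) (r : ℤ), g ∈ N →
      Hm (rmul (MonoidAlgebra.single g r : RR G)) 3 d = r • d := by
    intro g r hg
    have h1 : rmul (MonoidAlgebra.single g r : RR G) = r • rt ℤ g := by
      apply lr_ext
      rw [rmul_apply]
      show (1 : RR G) * _ = r • (rt ℤ g).hom (MonoidAlgebra.single (1 : G) (1 : ℤ))
      rw [one_mul, ev_one, MonoidAlgebra.smul_single, smul_eq_mul, mul_one]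
    rw [h1]
    have h2 : Hm (r • rt ℤ g) 3 d = r • Hm (rt ℤ g) 3 d := by
      have := map_zsmul (AddMonoidHom.mk' (fun f : Rep.leftRegular ℤ G ⟶ Rep.leftRegular ℤ G =>
        Hm f 3 d) (fun f g => Hm_add f g 3 d)) r (rt ℤ g)
      exact this
    rw [h2, orient hG N hperf g hg d]
  have hsum : ∀ (F : Finset G) (f : G → ℤ), (∀ g ∈ F, g ∈ N) →
      Hm (rmul (∑ g ∈ F, (MonoidAlgebra.single g (f g) : RR G))) 3 d = (∑ g ∈ F, f g) • d := by
    intro F f hF
    induction F using Finset.induction_on with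
    | empty =>
      rw [Finset.sum_empty, Finset.sum_empty, zero_smul]
      have : rmul (0 : RR G) = 0 := by
        apply hom_ext'
        intro m
        rw [rmul_apply, mul_zero]
        rfl
      rw [this, Hm_zero]
    | insert a s has ih =>
      rw [Finset.sum_insert has, Finset.sum_insert has, AcB_rmul_add, Hm_add, add_zsmul,
        ih (fun g hg => hF g (Finset.mem_insert_of_mem hg)), hs a _ (hF a (Finset.mem_insert_self _ _))]
  have hdec : a = ∑ g ∈ a.coeff.support, (MonoidAlgebra.single g (a.coeff g) : RR G) := by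
    apply MonoidAlgebra.coeff_injective
    have h1 : ∀ F : Finset G, (∑ g ∈ F, (MonoidAlgebra.single g (a.coeff g) : RR G)).coeff =
        ∑ g ∈ F, Finsupp.single g (a.coeff g) := by
      intro F
      induction F using Finset.induction_on with
      | empty => rfl
      | insert b s hb ih =>
        rw [Finset.sum_insert hb, Finset.sum_insert hb, MonoidAlgebra.coeff_add, ih]
        rfl
    rw [h1]
    exact (Finsupp.sum_single a.coeff).symm
  have h1 := hsum a.coeff.support a.coeff (fun g hg => ha g (Finsupp.mem_support_iff.1 hg))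
  rw [← hdec] at h1
  rw [h1]
  congr 1
  conv_rhs => rw [hdec, map_sum]
  refine Finset.sum_congr rfl fun g _ => ?_
  rw [eps_single]

theorem AcB_cor (N : Subgroup G) {ι : Type} [Fintype ι] (n : ι → N)
    (s : (kerRep (AcB_phi N n)).V) (j : ι) :
    ev (kerRep (AcB_phi N n)) s ≫ kerInc (AcB_phi N n) ≫ prj' j =
      rmul (((kerInc (AcB_phi N n)).hom s : ι → RR G) j) := by
  rw [← Category.assoc, ev_comp, ev_comp]
  apply lr_ext
  rw [ev_one, prj'_apply, rmul_apply]
  show _ = (1 : RR G) * _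
  rw [one_mul]

theorem AcB_smul_ev (N : Subgroup G) {ι : Type} [Fintype ι] (n : ι → N)
    (s : (kerRep (AcB_phi N n)).V) (r : ℤ) (d : HH (Rep.leftRegular ℤ G) 3) :
    Hm (ev (kerRep (AcB_phi N n)) (r • s)) 3 d = r • Hm (ev (kerRep (AcB_phi N n)) s) 3 d := by
  have := map_zsmul (AddMonoidHom.mk' (fun s : (kerRep (AcB_phi N n)).V =>
        Hm (ev (kerRep (AcB_phi N n)) s) 3 d) (fun f g => by rw [ev_add, Hm_add])) r s
  exact this

theorem AcB_inj (hG : IsPDk ℤ G) (N : Subgroup G) (hperf : ⁅N, N⁆ = N) {ι : Type} [Fintype ι]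
    (n : ι → N) (hR : RelProp N (fun j => (n j : G)))
    (c : HH (kerRep (AcB_phi N n)) 3) (hc : Hm (kerInc (AcB_phi N n)) 3 c = 0) : c = 0 := by
  classical
  obtain ⟨e⟩ := hG.top
  set γ : HH (Rep.leftRegular ℤ G) 3 := e.symm 1 with hγ
  have hd : ∀ d : HH (Rep.leftRegular ℤ G) 3, d = e d • γ := by
    intro d
    apply e.injective
    rw [map_zsmul, hγ, e.apply_symm_apply, smul_eq_mul, mul_one]
  have hgen := gen3 hG (kerRep (AcB_phi N n))
    {s : (kerRep (AcB_phi N n)).V | ∀ j, SuppIn N (((kerInc (AcB_phi N n)).hom s : ι → RR G) j)}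
    (fun W hW hS => AcB_gen N n W hW hS) c
  -- the subgroup structure
  have hS0 : ∀ j, SuppIn N (((kerInc (AcB_phi N n)).hom (0 : (kerRep (AcB_phi N n)).V) : ι → RR G) j) := by
    intro j g hg
    rw [map_zero] at hg
    exact absurd rfl hg
  have hSadd : ∀ s t : (kerRep (AcB_phi N n)).V,
      (∀ j, SuppIn N (((kerInc (AcB_phi N n)).hom s : ι → RR G) j)) →
      (∀ j, SuppIn N (((kerInc (AcB_phi N n)).hom t : ι → RR G) j)) →
      (∀ j, SuppIn N (((kerInc (AcB_phi N n)).hom (s + t) : ι → RR G) j)) := by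
    intro s t hs ht j g hg
    rw [map_add] at hg
    have h1 : (((kerInc (AcB_phi N n)).hom s : ι → RR G) j).coeff g +
      (((kerInc (AcB_phi N n)).hom t : ι → RR G) j).coeff g ≠ 0 := hg
    by_contra hgN
    apply h1
    have h2 : (((kerInc (AcB_phi N n)).hom s : ι → RR G) j).coeff g = 0 := by
      by_contra h
      exact hgN (hs j g h)
    have h3 : (((kerInc (AcB_phi N n)).hom t : ι → RR G) j).coeff g = 0 := by
      by_contra h
      exact hgN (ht j g h)
    rw [h2, h3, add_zero]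
  have hSsmul : ∀ (r : ℤ) (s : (kerRep (AcB_phi N n)).V),
      (∀ j, SuppIn N (((kerInc (AcB_phi N n)).hom s : ι → RR G) j)) →
      (∀ j, SuppIn N (((kerInc (AcB_phi N n)).hom (r • s) : ι → RR G) j)) := by
    intro r s hs j g hg
    rw [map_smul] at hg
    have h1 : r • (((kerInc (AcB_phi N n)).hom s : ι → RR G) j).coeff g ≠ 0 := hg
    apply hs j g
    intro h
    apply h1
    rw [h, smul_zero]
  have hrep : ∃ s : (kerRep (AcB_phi N n)).V,
      (∀ j, SuppIn N (((kerInc (AcB_phi N n)).hom s : ι → RR G) j)) ∧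
      c = Hm (ev (kerRep (AcB_phi N n)) s) 3 γ := by
    clear hc
    induction hgen using Submodule.span_induction with
    | mem x hx =>
      obtain ⟨s, hs, d, rfl⟩ := hx
      refine ⟨e d • s, hSsmul _ s hs, ?_⟩
      rw [AcB_smul_ev, ← map_zsmul, ← hd]
    | zero =>
      refine ⟨0, hS0, ?_⟩
      have h0 := AcB_smul_ev N n 0 0 γ
      rw [zero_smul, zero_smul] at h0
      exact h0.symm
    | add x y _ _ hx hy =>
      obtain ⟨s, hs, rfl⟩ := hx
      obtain ⟨t, ht, rfl⟩ := hy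
      refine ⟨s + t, hSadd s t hs ht, ?_⟩
      rw [ev_add, Hm_add]
    | smul a x _ hx =>
      obtain ⟨s, hs, rfl⟩ := hx
      refine ⟨a • s, hSsmul a s hs, ?_⟩
      rw [AcB_smul_ev]
      exact int_smul_eq_zsmul _ _ _
  obtain ⟨s, hs, rfl⟩ := hrep
  have heps : ∀ j, eps (((kerInc (AcB_phi N n)).hom s : ι → RR G) j) = 0 := by
    intro j
    have h1 : Hm (prj' j) 3 (Hm (kerInc (AcB_phi N n)) 3 (Hm (ev (kerRep (AcB_phi N n)) s) 3 γ)) = 0 := by
      rw [hc, map_zero]
    rw [← Hm_comp, ← Hm_comp, AcB_cor, AcB_eps hG N hperf γ _ (hs j)] at h1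
    have h2 := congrArg e h1
    rw [map_zsmul, map_zero, hγ, e.apply_symm_apply, smul_eq_mul, mul_one] at h2
    exact h2
  have hrel : IsRel (fun j => (n j : G)) ((kerInc (AcB_phi N n)).hom s : ι → RR G) := by
    have := (AcB_phi_zero_iff N n _).1 (kerInc_zero (AcB_phi N n) s)
    exact this
  have hcl := hR ((kerInc (AcB_phi N n)).hom s : ι → RR G) hs hrel heps
  have hall : ∀ v ∈ AddSubgroup.closure {z : ι → RR G | ∃ m ∈ N, ∃ v' : ι → RR G,
      (∀ j, SuppIn N (v' j)) ∧ IsRel (fun j => (n j : G)) v' ∧ z = fun j => u m * v' j - v' j},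
      ∃ t : (kerRep (AcB_phi N n)).V, (kerInc (AcB_phi N n)).hom t = v ∧
        Hm (ev (kerRep (AcB_phi N n)) t) 3 γ = 0 := by
    intro v hv
    induction hv using AddSubgroup.closure_induction with
    | mem z hz =>
      obtain ⟨m, hm, v', hv', hrel', rfl⟩ := hz
      obtain ⟨t, ht⟩ := kerInc_exact (AcB_phi N n) v' ((AcB_phi_zero_iff N n _).2 hrel')
      refine ⟨(kerRep (AcB_phi N n)).ρ m t - t, ?_, ?_⟩
      · rw [map_sub, Rep.hom_comm_apply, ht]
        rfl
      · rw [ev_sub, Hm_sub, ← rt_comp_ev, Hm_comp, orient hG N hperf m hm γ, sub_self]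
    | zero =>
      refine ⟨0, map_zero _, ?_⟩
      have h0 := AcB_smul_ev N n 0 0 γ
      rw [zero_smul, zero_smul] at h0
      exact h0
    | add x y _ _ hx hy =>
      obtain ⟨a, ha, ha'⟩ := hx
      obtain ⟨b, hb, hb'⟩ := hy
      refine ⟨a + b, ?_, ?_⟩
      · rw [map_add, ha, hb]
      · rw [ev_add, Hm_add, ha', hb', add_zero]
    | neg x _ hx =>
      obtain ⟨a, ha, ha'⟩ := hx
      refine ⟨(-1 : ℤ) • a, ?_, ?_⟩
      · rw [map_smul, ha]
        show (-1 : ℤ) • x = -x
        rw [neg_smul, one_smul]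
      · rw [AcB_smul_ev, ha']
        exact zsmul_zero _
  obtain ⟨t, ht, ht'⟩ := hall _ hcl
  have hts : t = s := kerInc_inj (AcB_phi N n) ht
  rw [← hts]
  exact ht'

theorem ac_b (hG : IsPD3 G) (N : Subgroup G) (hperf : ⁅N, N⁆ = N) {ι : Type} [Fintype ι]
    [DecidableEq ι] (n : ι → G) (hn : Subgroup.closure (Set.range n) = N) (hR : RelProp N n)
    (x : HH (perm (G := G) ℤ ℤ (G ⧸ N)) 1) : x = 0 := by
  have hk := hG.toPDk
  have hmem : ∀ j, n j ∈ N := fun j => by
    rw [← hn]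
    exact Subgroup.subset_closure ⟨j, rfl⟩
  set nm : ι → N := fun j => ⟨n j, hmem j⟩ with hnm
  have hcl : Subgroup.closure (Set.range nm) = ⊤ := by
    have h1 : (Subgroup.closure (Set.range nm)).map N.subtype = N := by
      rw [MonoidHom.map_closure]
      have : (N.subtype '' Set.range nm) = Set.range n := by
        rw [← Set.range_comp]
        rfl
      rw [this, hn]
    rw [eq_top_iff]
    intro a _
    have h2 : (a : G) ∈ (Subgroup.closure (Set.range nm)).map N.subtype := by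
      rw [h1]
      exact a.2
    obtain ⟨b, hb, hba⟩ := h2
    have h3 : b = a := Subtype.ext hba
    rw [← h3]
    exact hb
  obtain ⟨δ₁, -, h12, -⟩ := (ses_ker (qmap ℤ N) (qmap_surj N)).les 1
  obtain ⟨δ₂, -, h22, h23⟩ := (ses_ker (AcB_phi N nm) (AcB_phi_surj N nm hcl)).les 2
  have hc : δ₂ (δ₁ x) = 0 := by
    apply AcB_inj hk N hperf nm hR
    exact (h23 _).2 ⟨_, rfl⟩
  obtain ⟨y, hy⟩ := (h22 _).1 hc
  have hy0 : y = 0 := pi_zero 2 (fun d => hk.vanish 2 (by norm_num) d) y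
  rw [hy0, map_zero] at hy
  obtain ⟨z, hz⟩ := (h12 x).1 hy.symm
  have hz0 : z = 0 := hk.vanish 1 (by norm_num) z
  rw [← hz, hz0, map_zero]

end Pool.Agent.PDN
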