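import Pool.Agent.PDN.Dat

/-!
# Alg: formal properties of `bet` and `tau`

* `bet`, `tau` are additive and commute with left multiplication by elements of `R`.
* `bet_alp`: `bet (c(t-1)) (c(n_j-1)) = 0`: the `i`-th entry is
  `c [(t-1)(1-w_i) + (n_i-1) t - ∑_j (n_j-1) Lam_ji] = c [(t-1)(1-w_i) + (n_i-1)t - (w_i-1)] = 0`
  by `LamE` and `t w_i = n_i t`.
* `tau_bet`: `z = tau z + bet 0 (z t⁻¹)`.
* `tau_kap`: `tau (bet c 0) = bet (c t⁻¹) 0`: `c (1-w_j) t⁻¹ = c t⁻¹ (1 - n_j)` (`w_tinv`) and
  `∑_j (1-n_j) Lam_ji = 1 - w_i`.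
* invariants: if `N` is infinite, `x u(m) = x` for all `m ∈ N` implies `x = 0` (the support of `x` is
  finite and stable under right multiplication by `N`); same on the left.
* `kap_inj`: `c (1 - w_i) = 0` for all `i`; the `w_i` generate `t⁻¹ N t = N` (closure induction on the
  subgroup `{m | c u(m) = c}`), so `c = 0`.
-/

open CategoryTheory

namespace Pool.Agent.PDN

open Pool.Agent.PD3

variable {G : Type} [Group G]

theorem left_inv_zero (N : Subgroup G) (hN : Infinite N) (x : RR G)
    (h : ∀ m ∈ N, u m * x = x) : x = 0 := by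
  apply coeff_ext
  intro z
  show x.coeff z = 0
  by_contra hz
  have h1 : ∀ m : N, ((m : G) * z) ∈ x.coeff.support := by
    intro m
    rw [Finsupp.mem_support_iff]
    have h2 : (u (m : G) * x).coeff ((m : G) * z) = x.coeff ((m : G) * z) := by rw [h m m.2]
    rw [coeff_u_mul, inv_mul_cancel_left] at h2
    rw [← h2]
    exact hz
  have : Infinite x.coeff.support := Infinite.of_injective
    (fun m : N => (⟨(m : G) * z, h1 m⟩ : x.coeff.support)) (by
      intro m m' hm
      have := congrArg Subtype.val hm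
      exact Subtype.ext (mul_right_cancel this))
  exact this.not_finite inferInstance

theorem right_inv_zero (N : Subgroup G) (hN : Infinite N) (x : RR G)
    (h : ∀ m ∈ N, x * u m = x) : x = 0 := by
  apply coeff_ext
  intro z
  show x.coeff z = 0
  by_contra hz
  have h1 : ∀ m : N, (z * (m : G)) ∈ x.coeff.support := by
    intro m
    rw [Finsupp.mem_support_iff]
    have h2 : (x * u (m : G)).coeff (z * (m : G)) = x.coeff (z * (m : G)) := by rw [h m m.2]
    rw [coeff_mul_u, mul_inv_cancel_right] at h2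
    rw [← h2]
    exact hz
  have : Infinite x.coeff.support := Infinite.of_injective
    (fun m : N => (⟨z * (m : G), h1 m⟩ : x.coeff.support)) (by
      intro m m' hm
      have := congrArg Subtype.val hm
      exact Subtype.ext (mul_left_cancel this))
  exact this.not_finite inferInstance

namespace Dat

theorem bet_apply (D : Dat G) (a : RR G) (b : D.ι → RR G) (i : D.ι) :
    D.bet a b i = a * (1 - u (D.w i)) + b i * u D.t - ∑ j, b j * D.Lam j i := rfl

theorem bet_kap (D : Dat G) (a : RR G) (i : D.ι) : D.bet a 0 i = a * (1 - u (D.w i)) := by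
  rw [bet_apply]
  simp

theorem bet_add (D : Dat G) (a a' : RR G) (b b' : D.ι → RR G) :
    D.bet (a + a') (b + b') = D.bet a b + D.bet a' b' := by
  funext i
  simp only [bet_apply, Pi.add_apply, add_mul, Finset.sum_add_distrib]
  abel

theorem bet_sub (D : Dat G) (a a' : RR G) (b b' : D.ι → RR G) :
    D.bet (a - a') (b - b') = D.bet a b - D.bet a' b' := by
  funext i
  simp only [bet_apply, Pi.sub_apply, sub_mul, Finset.sum_sub_distrib]
  abel

theorem bet_mul (D : Dat G) (r a : RR G) (b : D.ι → RR G) :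
    D.bet (r * a) (fun j => r * b j) = fun i => r * D.bet a b i := by
  funext i
  simp only [bet_apply, mul_sub, mul_add, mul_assoc, Finset.mul_sum]

theorem tau_add (D : Dat G) (z z' : D.ι → RR G) : D.tau (z + z') = D.tau z + D.tau z' := by
  funext i
  simp only [tau, Pi.add_apply, add_mul, Finset.sum_add_distrib]

theorem tau_sub (D : Dat G) (z z' : D.ι → RR G) : D.tau (z - z') = D.tau z - D.tau z' := by
  funext i
  simp only [tau, Pi.sub_apply, sub_mul, Finset.sum_sub_distrib]

theorem tau_zero' (D : Dat G) : D.tau 0 = 0 := by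
  funext i
  simp [tau]

theorem tau_mul (D : Dat G) (r : RR G) (z : D.ι → RR G) :
    D.tau (fun j => r * z j) = fun i => r * D.tau z i := by
  funext i
  simp only [tau, mul_assoc, Finset.mul_sum]

/-- `w_i - 1 = ∑ j, (n_j - 1) Lam_ji` -/
theorem LamE' (D : Dat G) (i : D.ι) : u (D.w i) - 1 = ∑ j, (u (D.n j) - 1) * D.Lam j i :=
  D.LamE i

theorem bet_alp (D : Dat G) (c : RR G) :
    D.bet (c * (u D.t - 1)) (fun j => c * (u (D.n j) - 1)) = 0 := by
  funext i
  rw [bet_apply]
  show _ = (0 : RR G)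
  have h1 : ∑ j, c * (u (D.n j) - 1) * D.Lam j i = c * (u (D.w i) - 1) := by
    rw [D.LamE' i, Finset.mul_sum]
    exact Finset.sum_congr rfl fun j _ => mul_assoc _ _ _
  have h2 : u D.t * u (D.w i) = u (D.n i) * u D.t := by
    rw [← u_mul, ← u_mul, D.t_w]
  rw [h1]
  have h3 : c * (u D.t - 1) * (1 - u (D.w i)) + c * (u (D.n i) - 1) * u D.t -
      c * (u (D.w i) - 1) = c * (u (D.n i) * u D.t - u D.t * u (D.w i)) := by
    noncomm_ring
  rw [h3, h2, sub_self, mul_zero]

theorem tau_bet (D : Dat G) (z : D.ι → RR G) :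
    z = D.tau z + D.bet 0 (fun j => z j * u D.t⁻¹) := by
  funext i
  show z i = D.tau z i + D.bet 0 (fun j => z j * u D.t⁻¹) i
  rw [bet_apply, zero_mul, zero_add, mul_assoc (z i), u_inv_mul, mul_one]
  unfold tau
  abel

theorem tau_kap (D : Dat G) (c : RR G) : D.tau (D.bet c 0) = D.bet (c * u D.t⁻¹) 0 := by
  funext i
  rw [bet_kap]
  unfold tau
  have h1 : ∀ j, D.bet c 0 j * u D.t⁻¹ * D.Lam j i =
      -(c * u D.t⁻¹ * ((u (D.n j) - 1) * D.Lam j i)) := by
    intro j
    have h2 : u (D.w j) * u D.t⁻¹ = u D.t⁻¹ * u (D.n j) := by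
      rw [← u_mul, ← u_mul, D.w_tinv]
    rw [bet_kap]
    have h3 : (1 - u (D.w j)) * u D.t⁻¹ = -(u D.t⁻¹ * (u (D.n j) - 1)) := by
      rw [sub_mul, h2, one_mul, mul_sub, mul_one]
      abel
    rw [mul_assoc c, h3]
    simp only [mul_neg, neg_mul, mul_assoc]
  rw [Finset.sum_congr rfl fun j _ => h1 j, Finset.sum_neg_distrib, ← Finset.mul_sum, ← D.LamE' i]
  rw [← mul_neg]
  congr 1
  abel

/-- the `w_i` generate `N` -/
theorem w_closure (D : Dat G) : Subgroup.closure (Set.range D.w) = D.N := by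
  have h1 : Set.range D.w = (MulAut.conj D.t⁻¹).toMonoidHom '' (Set.range D.n) := by
    rw [← Set.range_comp]
    congr 1
    funext i
    show D.t⁻¹ * D.n i * D.t = D.t⁻¹ * D.n i * D.t⁻¹⁻¹
    rw [inv_inv]
  rw [h1, ← MonoidHom.map_closure, D.cl]
  apply le_antisymm
  · rintro _ ⟨m, hm, rfl⟩
    exact D.nrm.conj_mem m hm D.t⁻¹
  · intro m hm
    refine ⟨D.t * m * D.t⁻¹, D.nrm.conj_mem m hm D.t, ?_⟩
    show D.t⁻¹ * (D.t * m * D.t⁻¹) * D.t⁻¹⁻¹ = m
    group

theorem kap_inj (D : Dat G) (hN : Infinite D.N) (c : RR G) (h : ∀ i, D.bet c 0 i = 0) : c = 0 := by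
  apply right_inv_zero D.N hN
  let H : Subgroup G :=
    { carrier := {m | c * u m = c}
      mul_mem' := by
        intro a b ha hb
        show c * u (a * b) = c
        rw [u_mul, ← mul_assoc]
        have ha' : c * u a = c := ha
        have hb' : c * u b = c := hb
        rw [ha', hb']
      one_mem' := by
        show c * u 1 = c
        rw [u_one, mul_one]
      inv_mem' := by
        intro a ha
        have ha' : c * u a = c := ha
        show c * u a⁻¹ = c
        conv_lhs => rw [← ha']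
        rw [mul_assoc, u_mul_inv, mul_one] }
  have hle : D.N ≤ H := by
    rw [← D.w_closure, Subgroup.closure_le]
    rintro _ ⟨i, rfl⟩
    have := h i
    rw [bet_kap, mul_sub, mul_one, sub_eq_zero] at this
    exact this.symm
  exact fun m hm => hle hm

end Dat

end Pool.Agent.PDN
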