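import Pool.Agent.PD3.DerInj

/-!
# B1: vanishing of `H^1` of modules graded by an infinite transitive `G`-set

`p x : V → V` are the projections of a `G`-stable grading of `V` by `X`; `N` (f.g., normal) acts
trivially on `X`.
Proof.  A class is represented by a cocycle `z` (`groupCohomology.H1_induction_on`,
`H1π_eq_zero_iff`, `mem_cocycles₁_iff`: `z (g g') = ρ g (z g') + z g`; see `DerInj`).
1. There is a finite `S ⊆ X` with `p x (z n) = 0` for `x ∉ S`, `n ∈ N`: take for `S` the union of the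
   finite sets `{x | p x (z s) ≠ 0}`, `s` in a finite generating set of `N`; closure induction:
   `p x (z (m n)) = p x (z m) + p x (ρ m (z n))` and `p x (ρ m v) = ρ m (p x v)` for `m ∈ N` (as
   `m • x = x`); inverses: `z m⁻¹ = - ρ m⁻¹ (z m)`.
2. For `x ∈ S` choose `g x` with `g x • x ∉ S`.  For `n ∈ N`, `m = g n g⁻¹ ∈ N`:
   `z (g n) = z (m g)` gives `ρ g (z n) + z g = ρ m (z g) + z m`; apply `p (g • x)`:
   `ρ g (p x (z n)) = ρ m (p (g•x) (z g)) - p (g•x) (z g)`, hence
   `p x (z n) = ρ n v_x - v_x` with `v_x = ρ g⁻¹ (p (g•x) (z g)) = p x (ρ g⁻¹ (z g))`.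
   So `p x v_x = v_x`, `p y v_x = 0` for `y ≠ x` (`p_idem`, `p_orth`).
   Let `v = ∑ x ∈ S, v_x`.  Then `z n = ρ n v - v` for all `n ∈ N` (`p_ext`).
3. `z' g = z g - (ρ g v - v)` is a cocycle vanishing on `N`; `z' (n g) = ρ n (z' g)` and
   `z' (n g) = z' (g (g⁻¹ n g)) = z' g`, so `z' g = 0` by `hinv`.
-/

open CategoryTheory

namespace Pool.Agent.PDN

open Pool.Agent.PD3

variable {k G : Type} [CommRing k] [Group G]

/-- the purely algebraic core of `b1` -/
theorem B1_core {A X : Type} [AddCommGroup A] [MulAction G X] (rho : G → A →+ A)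
    (rho_mul : ∀ g h v, rho (g * h) v = rho g (rho h v)) (rho_one : ∀ v, rho 1 v = v)
    (N : Subgroup G) (hn : N.Normal)
    (hfg : N.FG) (hNX : ∀ n ∈ N, ∀ x : X, n • x = x)
    (hX : ∀ (S : Finset X) (x : X), ∃ g : G, g • x ∉ S)
    (p : X → A →+ A)
    (p_fin : ∀ v, {x | p x v ≠ 0}.Finite)
    (p_ext : ∀ v, (∀ x, p x v = 0) → v = 0)
    (p_idem : ∀ x v, p x (p x v) = p x v)
    (p_orth : ∀ x y v, x ≠ y → p x (p y v) = 0)
    (p_equiv : ∀ (g : G) (x : X) (v : A), p (g • x) (rho g v) = rho g (p x v))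
    (hinv : ∀ v : A, (∀ n ∈ N, rho n v = v) → v = 0)
    (z : G → A) (hz : ∀ g h, z (g * h) = rho g (z h) + z g) :
    ∃ v : A, ∀ g, z g = rho g v - v := by
  classical
  have hz1 : z 1 = 0 := by
    have h := hz 1 1
    rw [mul_one, rho_one] at h
    simpa using h
  have hpN : ∀ n ∈ N, ∀ x v, p x (rho n v) = rho n (p x v) := by
    intro n hnN x v
    have h := p_equiv n x v
    rwa [hNX n hnN x] at h
  -- step 1
  obtain ⟨T, hT⟩ := hfg
  let S : Finset X := T.biUnion (fun s => (p_fin (z s)).toFinset)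
  let K : Subgroup G :=
    { carrier := {n | n ∈ N ∧ ∀ x, x ∉ S → p x (z n) = 0}
      mul_mem' := by
        rintro a b ⟨ha, ha'⟩ ⟨hb, hb'⟩
        refine ⟨N.mul_mem ha hb, ?_⟩
        intro x hx
        rw [hz, map_add, hpN a ha, hb' x hx, ha' x hx, map_zero, add_zero]
      one_mem' := ⟨N.one_mem, fun x _ => by rw [hz1, map_zero]⟩
      inv_mem' := by
        rintro a ⟨ha, ha'⟩
        refine ⟨N.inv_mem ha, ?_⟩
        intro x hx
        have h1 := hz a⁻¹ a
        rw [inv_mul_cancel, hz1] at h1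
        have h2 : z a⁻¹ = - rho a⁻¹ (z a) := by
          rw [eq_neg_iff_add_eq_zero, add_comm]; exact h1.symm
        rw [h2, map_neg, hpN _ (N.inv_mem ha), ha' x hx, map_zero, neg_zero] }
  have hNK : N ≤ K := by
    rw [← hT, Subgroup.closure_le]
    intro s hs
    refine ⟨?_, ?_⟩
    · rw [← hT]; exact Subgroup.subset_closure hs
    · intro x hx
      by_contra hne
      apply hx
      rw [Finset.mem_biUnion]
      exact ⟨s, hs, by rw [Set.Finite.mem_toFinset]; exact hne⟩
  have hS : ∀ n ∈ N, ∀ x, x ∉ S → p x (z n) = 0 := fun n hnN => (hNK hnN).2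
  -- step 2
  choose gg hgg using (fun x => hX S x)
  let w : X → A := fun x => p (gg x • x) (z (gg x))
  let vx : X → A := fun x => rho (gg x)⁻¹ (w x)
  have hkey : ∀ n ∈ N, ∀ x, p x (z n) = rho n (vx x) - vx x := by
    intro n hnN x
    set g := gg x with hg
    have hm : g * n * g⁻¹ ∈ N := hn.conj_mem n hnN g
    have h1 : rho g (z n) + z g = rho (g * n * g⁻¹) (z g) + z (g * n * g⁻¹) := by
      rw [← hz, ← hz]
      congr 1
      group
    have h2 := congrArg (p (g • x)) h1
    rw [map_add, map_add, p_equiv, hpN _ hm, hS _ hm _ (hgg x), add_zero] at h2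
    have h3 : rho g (p x (z n)) = rho (g * n * g⁻¹) (w x) - w x := by
      rw [eq_sub_iff_add_eq]; exact h2
    have h4 := congrArg (rho g⁻¹) h3
    rw [← rho_mul, inv_mul_cancel, rho_one, map_sub, ← rho_mul] at h4
    rw [h4]
    have h5 : g⁻¹ * (g * n * g⁻¹) = n * g⁻¹ := by group
    rw [h5, rho_mul]
  have hvx : ∀ x, p x (vx x) = vx x := by
    intro x
    have h := p_equiv (gg x)⁻¹ (gg x • x) (w x)
    rw [inv_smul_smul] at h
    show p x (rho (gg x)⁻¹ (w x)) = rho (gg x)⁻¹ (w x)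
    rw [h]
    show rho (gg x)⁻¹ (p (gg x • x) (p (gg x • x) (z (gg x)))) = _
    rw [p_idem]
  have hvy : ∀ x y, y ≠ x → p y (vx x) = 0 := by
    intro x y hxy
    rw [← hvx x]
    exact p_orth y x _ hxy
  let v : A := ∑ x ∈ S, vx x
  have hpv : ∀ y, p y v = if y ∈ S then vx y else 0 := by
    intro y
    show p y (∑ x ∈ S, vx x) = _
    rw [map_sum]
    split_ifs with hy
    · rw [Finset.sum_eq_single y, hvx]
      · intro x _ hxy
        exact hvy x y (Ne.symm hxy)
      · intro h; exact absurd hy h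
    · apply Finset.sum_eq_zero
      intro x hx
      apply hvy
      rintro rfl
      exact hy hx
  have hN : ∀ n ∈ N, z n = rho n v - v := by
    intro n hnN
    rw [← sub_eq_zero]
    apply p_ext
    intro y
    rw [map_sub, map_sub, hpN n hnN, hpv]
    split_ifs with hy
    · rw [hkey n hnN, sub_self]
    · rw [hS n hnN y hy, map_zero, sub_zero, sub_zero]
  -- step 3
  refine ⟨v, fun g => ?_⟩
  let z' : G → A := fun g => z g - (rho g v - v)
  have hz' : ∀ g h, z' (g * h) = rho g (z' h) + z' g := by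
    intro g h
    show z (g * h) - (rho (g * h) v - v) = rho g (z h - (rho h v - v)) + (z g - (rho g v - v))
    rw [hz, rho_mul, map_sub, map_sub]
    abel
  have hz'N : ∀ n ∈ N, z' n = 0 := by
    intro n hnN
    show z n - (rho n v - v) = 0
    rw [hN n hnN, sub_self]
  have h0 : z' g = 0 := by
    apply hinv
    intro n hnN
    have h1 := hz' n g
    rw [hz'N n hnN, add_zero] at h1
    have h2 := hz' g (g⁻¹ * n * g)
    have h3 : g⁻¹ * n * g ∈ N := by
      have := hn.conj_mem n hnN g⁻¹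
      simpa using this
    rw [hz'N _ h3, map_zero, zero_add] at h2
    have h4 : g * (g⁻¹ * n * g) = n * g := by group
    rw [h4] at h2
    rw [← h1, h2]
  exact sub_eq_zero.mp h0

theorem b1 {V : Rep.{0} k G} {X : Type} [MulAction G X] (N : Subgroup G) (hn : N.Normal)
    (hfg : N.FG) (hNX : ∀ n ∈ N, ∀ x : X, n • x = x)
    (hX : ∀ (S : Finset X) (x : X), ∃ g : G, g • x ∉ S)
    (p : X → V.V →+ V.V)
    (p_fin : ∀ v, {x | p x v ≠ 0}.Finite)
    (p_ext : ∀ v, (∀ x, p x v = 0) → v = 0)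
    (p_idem : ∀ x v, p x (p x v) = p x v)
    (p_orth : ∀ x y v, x ≠ y → p x (p y v) = 0)
    (p_equiv : ∀ (g : G) (x : X) (v : V.V), p (g • x) (V.ρ g v) = V.ρ g (p x v))
    (hinv : ∀ v : V.V, (∀ n ∈ N, V.ρ n v = v) → v = 0) (c : HH V 1) : c = 0 := by
  induction c using groupCohomology.H1_induction_on with | h z => ?_
  have hcoc := (groupCohomology.mem_cocycles₁_iff (A := V) z.1).1 z.2
  obtain ⟨v, hv⟩ := B1_core (G := G) (A := V.V) (fun g => (V.ρ g).toAddMonoidHom)
    (fun g h v => by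
      show V.ρ (g * h) v = V.ρ g (V.ρ h v)
      rw [map_mul]; rfl)
    (fun v => by
      show V.ρ 1 v = v
      rw [map_one]; rfl)
    N hn hfg hNX hX p p_fin p_ext p_idem p_orth p_equiv hinv (fun g => z g)
    (fun g h => hcoc g h)
  rw [groupCohomology.H1π_eq_zero_iff]
  exact ⟨v, funext fun g => (hv g).symm⟩

end Pool.Agent.PDN
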