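import Pool.Agent.PD3.Main

/-!
# Basic: the group ring `R = ℤ[G]` and the data of the core argument
-/

open CategoryTheory

namespace Pool.Agent.PDN

open Pool.Agent.PD3

variable {G : Type} [Group G]

/-- the group ring -/
abbrev RR (G : Type) [Group G] : Type := MonoidAlgebra ℤ G

/-- the element of the group ring given by a group element -/
noncomputable abbrev u (g : G) : RR G := MonoidAlgebra.single g (1 : ℤ)

theorem u_one : u (1 : G) = 1 := rfl

theorem u_mul (g h : G) : u (g * h) = u g * u h := by
  rw [MonoidAlgebra.single_mul_single, one_mul]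

theorem u_inv_mul (g : G) : u g⁻¹ * u g = 1 := by rw [← u_mul, inv_mul_cancel, u_one]

theorem u_mul_inv (g : G) : u g * u g⁻¹ = 1 := by rw [← u_mul, mul_inv_cancel, u_one]

theorem coeff_u_mul (g z : G) (x : RR G) : (u g * x).coeff z = x.coeff (g⁻¹ * z) := by
  rw [MonoidAlgebra.coeff_single_mul_apply, one_mul]

theorem coeff_mul_u (g z : G) (x : RR G) : (x * u g).coeff z = x.coeff (z * g⁻¹) := by
  rw [MonoidAlgebra.coeff_mul_single_apply, mul_one]

theorem coeff_ext {x y : RR G} (h : ∀ z, x.coeff z = y.coeff z) : x = y := by
  apply MonoidAlgebra.coeff_injective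
  exact Finsupp.ext h

/-- a property of elements of `R` that holds for `u g` and is additive holds for all -/
theorem RR_induction {P : RR G → Prop} (h0 : P 0) (hadd : ∀ x y, P x → P y → P (x + y))
    (hneg : ∀ x, P x → P (-x)) (hu : ∀ g, P (u g)) (x : RR G) : P x := by
  have hs : ∀ (g : G) (n : ℕ), P (MonoidAlgebra.single g (n : ℤ)) := by
    intro g n
    induction n with
    | zero => simpa using h0
    | succ n ih =>
      have : (MonoidAlgebra.single g ((n + 1 : ℕ) : ℤ) : RR G) =
          MonoidAlgebra.single g (n : ℤ) + u g := by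
        rw [← MonoidAlgebra.single_add]
        push_cast
        rfl
      rw [this]
      exact hadd _ _ ih (hu g)
  have hs' : ∀ (g : G) (n : ℤ), P (MonoidAlgebra.single g n) := by
    intro g n
    obtain ⟨m, rfl | rfl⟩ := n.eq_nat_or_neg
    · exact hs g m
    · have : (MonoidAlgebra.single g (-(m : ℤ)) : RR G) = -MonoidAlgebra.single g (m : ℤ) := by
        rw [MonoidAlgebra.single_neg]
      rw [this]
      exact hneg _ (hs g m)
  induction x using MonoidAlgebra.induction_linear with
  | zero => exact h0
  | add f g hf hg => exact hadd _ _ hf hg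
  | single g n => exact hs' g n

theorem lr_rho' (g : G) (x : RR G) : (Rep.leftRegular ℤ G).ρ g x = u g * x := by
  induction x using MonoidAlgebra.induction_linear with
  | zero => rw [map_zero, mul_zero]
  | add f h hf hh => rw [map_add, mul_add, hf, hh]
  | single h n => rw [lr_rho, MonoidAlgebra.single_mul_single, one_mul]

end Pool.Agent.PDN
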