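import Pool.Agent.PDN.Dat

/-!
# Comp: homogeneous components

All statements follow from `comp_coeff` (the coefficient of `comp k c` at `g` is `c.coeff g` if
`dg g = k`, else `0`), `coeff_ext`, `coeff_mul_u`, `coeff_u_mul` and the rules `dgN`, `dgt`,
`dgt_inv`, `dgN_left`.  For `comp_mul_N` (right multiplication by `l ∈ ℤ[N]`): by additivity in `l`
(write `l` as the sum of `single g (l.coeff g)` over its support, all `g ∈ N`), or use
`coeff_mul` directly.
-/

open CategoryTheory

namespace Pool.Agent.PDN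

open Pool.Agent.PD3

variable {G : Type} [Group G]

namespace Dat

theorem Comp_coeff_add (x y : RR G) (z : G) : (x + y).coeff z = x.coeff z + y.coeff z := rfl

theorem Comp_coeff_neg (x : RR G) (z : G) : (-x).coeff z = -x.coeff z := rfl

theorem Comp_coeff_zero (z : G) : (0 : RR G).coeff z = 0 := rfl

theorem comp_zero (D : Dat G) (k : ℤ) : D.comp k 0 = 0 := by
  apply coeff_ext
  intro z
  rw [comp_coeff, Comp_coeff_zero]
  split_ifs <;> rfl

theorem comp_add (D : Dat G) (k : ℤ) (x y : RR G) : D.comp k (x + y) = D.comp k x + D.comp k y := by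
  apply coeff_ext
  intro z
  rw [Comp_coeff_add, comp_coeff, comp_coeff, comp_coeff, Comp_coeff_add]
  split_ifs <;> simp

theorem comp_neg (D : Dat G) (k : ℤ) (x : RR G) : D.comp k (-x) = -D.comp k x := by
  apply coeff_ext
  intro z
  rw [Comp_coeff_neg, comp_coeff, comp_coeff, Comp_coeff_neg]
  split_ifs <;> simp

theorem comp_sub (D : Dat G) (k : ℤ) (x y : RR G) : D.comp k (x - y) = D.comp k x - D.comp k y := by
  rw [sub_eq_add_neg, comp_add, comp_neg, ← sub_eq_add_neg]

theorem comp_sum (D : Dat G) (k : ℤ) {α : Type} (s : Finset α) (f : α → RR G) :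
    D.comp k (∑ i ∈ s, f i) = ∑ i ∈ s, D.comp k (f i) := by
  classical
  induction s using Finset.induction_on with
  | empty => simp [comp_zero]
  | insert a s ha ih => rw [Finset.sum_insert ha, Finset.sum_insert ha, comp_add, ih]

theorem hg_comp (D : Dat G) (k : ℤ) (c : RR G) : D.Hg k (D.comp k c) := by
  intro g hg
  rw [comp_coeff] at hg
  by_contra h
  rw [if_neg h] at hg
  exact hg rfl

theorem comp_of_hg (D : Dat G) (k : ℤ) (c : RR G) (h : D.Hg k c) : D.comp k c = c := by
  apply coeff_ext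
  intro z
  rw [comp_coeff]
  by_cases hz : D.dg z = k
  · rw [if_pos hz]
  · rw [if_neg hz]
    by_contra hne
    exact hz (h z (Ne.symm hne))

theorem comp_of_hg_ne (D : Dat G) (k l : ℤ) (c : RR G) (h : D.Hg k c) (hne : k ≠ l) :
    D.comp l c = 0 := by
  apply coeff_ext
  intro z
  rw [comp_coeff, Comp_coeff_zero]
  by_cases hz : D.dg z = l
  · rw [if_pos hz]
    by_contra hc
    exact hne ((h z hc).symm.trans hz)
  · rw [if_neg hz]

theorem comp_all_zero (D : Dat G) (c : RR G) (h : ∀ k, D.comp k c = 0) : c = 0 := by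
  apply coeff_ext
  intro z
  have h1 := h (D.dg z)
  have h2 := congrArg (fun x : RR G => x.coeff z) h1
  simp only [comp_coeff, if_true] at h2
  rw [h2]

/-- only finitely many components are nonzero -/
theorem comp_bd (D : Dat G) (c : RR G) : ∃ K : ℕ, ∀ k : ℤ, D.comp k c ≠ 0 → -(K : ℤ) ≤ k ∧ k ≤ K := by
  refine ⟨∑ g ∈ c.coeff.support, (D.dg g).natAbs, fun k hk => ?_⟩
  have h1 : ∃ g, (D.comp k c).coeff g ≠ 0 := by
    by_contra hcon
    push Not at hcon
    apply hk
    apply coeff_ext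
    intro z
    rw [hcon z, Comp_coeff_zero]
  obtain ⟨g, hg⟩ := h1
  have hdg : D.dg g = k := D.hg_comp k c g hg
  have hcg : c.coeff g ≠ 0 := by
    rw [comp_coeff, if_pos hdg] at hg
    exact hg
  have h2 : (D.dg g).natAbs ≤ ∑ g ∈ c.coeff.support, (D.dg g).natAbs :=
    Finset.single_le_sum (f := fun g => (D.dg g).natAbs) (fun _ _ => Nat.zero_le _)
      (Finsupp.mem_support_iff.2 hcg)
  rw [hdg] at h2
  omega

theorem comp_mul_N (D : Dat G) (k : ℤ) (c l : RR G) (hl : ∀ g, l.coeff g ≠ 0 → g ∈ D.N) :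
    D.comp k (c * l) = D.comp k c * l := by
  classical
  induction c using RR_induction with
  | h0 => rw [zero_mul, comp_zero, zero_mul]
  | hadd x y hx hy => rw [add_mul, comp_add, comp_add, hx, hy, add_mul]
  | hneg x hx => rw [neg_mul, comp_neg, comp_neg, hx, neg_mul]
  | hu g =>
    by_cases hg : D.dg g = k
    · have h1 : D.comp k (u g) = u g := by
        apply comp_of_hg
        intro z hz
        by_cases hzg : g = z
        · rw [← hzg]; exact hg
        · exfalso
          apply hz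
          show (Finsupp.single g (1 : ℤ)) z = 0
          rw [Finsupp.single_apply, if_neg hzg]
      rw [h1]
      apply comp_of_hg
      intro z hz
      rw [coeff_u_mul] at hz
      have h2 := D.dgN g _ (hl _ hz)
      rw [mul_inv_cancel_left] at h2
      rw [h2, hg]
    · have h1 : D.comp k (u g) = 0 := by
        apply coeff_ext
        intro z
        rw [comp_coeff, Comp_coeff_zero]
        by_cases hz : D.dg z = k
        · rw [if_pos hz]
          show (Finsupp.single g (1 : ℤ)) z = 0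
          rw [Finsupp.single_apply, if_neg]
          rintro rfl
          exact hg hz
        · rw [if_neg hz]
      rw [h1, zero_mul]
      apply coeff_ext
      intro z
      rw [comp_coeff, Comp_coeff_zero]
      by_cases hz : D.dg z = k
      · rw [if_pos hz, coeff_u_mul]
        by_contra hc
        have h2 := D.dgN g _ (hl _ hc)
        rw [mul_inv_cancel_left] at h2
        exact hg (h2.symm.trans hz)
      · rw [if_neg hz]

theorem Comp_u_N (D : Dat G) (m : G) (hm : m ∈ D.N) : ∀ g, (u m : RR G).coeff g ≠ 0 → g ∈ D.N := by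
  classical
  intro g hg
  have h : (Finsupp.single m (1 : ℤ)) g ≠ 0 := hg
  rw [Finsupp.single_apply] at h
  by_cases hmg : m = g
  · rw [← hmg]; exact hm
  · rw [if_neg hmg] at h
    exact absurd rfl h

theorem comp_mul_uN (D : Dat G) (k : ℤ) (c : RR G) (m : G) (hm : m ∈ D.N) :
    D.comp k (c * u m) = D.comp k c * u m :=
  D.comp_mul_N k c (u m) (D.Comp_u_N m hm)

theorem comp_mul_t (D : Dat G) (k : ℤ) (c : RR G) :
    D.comp k (c * u D.t) = D.comp (k - 1) c * u D.t := by
  apply coeff_ext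
  intro z
  rw [comp_coeff, coeff_mul_u, coeff_mul_u, comp_coeff]
  have h := D.dgt_inv z
  by_cases hz : D.dg z = k
  · rw [if_pos hz, if_pos (by rw [h, hz])]
  · rw [if_neg hz, if_neg]
    rw [h]
    omega

theorem comp_mul_tinv (D : Dat G) (k : ℤ) (c : RR G) :
    D.comp k (c * u D.t⁻¹) = D.comp (k + 1) c * u D.t⁻¹ := by
  apply coeff_ext
  intro z
  rw [comp_coeff, coeff_mul_u, coeff_mul_u, comp_coeff, inv_inv]
  have h := D.dgt z
  by_cases hz : D.dg z = k
  · rw [if_pos hz, if_pos (by rw [h, hz])]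
  · rw [if_neg hz, if_neg]
    rw [h]
    omega

theorem comp_left (D : Dat G) (k : ℤ) (c : RR G) (m : G) (hm : m ∈ D.N) :
    D.comp k (u m * c) = u m * D.comp k c := by
  apply coeff_ext
  intro z
  rw [comp_coeff, coeff_u_mul, coeff_u_mul, comp_coeff, D.dgN_left z m⁻¹ (D.N.inv_mem hm)]

theorem Comp_one_sub_w (D : Dat G) (i : D.ι) :
    ∀ g, (1 - u (D.w i) : RR G).coeff g ≠ 0 → g ∈ D.N := by
  intro g hg
  by_contra hgN
  apply hg
  rw [sub_eq_add_neg, Comp_coeff_add, Comp_coeff_neg]
  have h1 : ((1 : RR G)).coeff g = 0 := by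
    by_contra hc
    have : ((u (1 : G)) : RR G).coeff g ≠ 0 := hc
    exact hgN (D.Comp_u_N 1 D.N.one_mem g this)
  have h2 : (u (D.w i) : RR G).coeff g = 0 := by
    by_contra hc
    exact hgN (D.Comp_u_N _ (D.w_mem i) g hc)
  rw [h1, h2]
  simp

theorem comp_bet (D : Dat G) (k : ℤ) (a : RR G) (b : D.ι → RR G) (i : D.ι) :
    D.comp k (D.bet a b i) = D.comp k a * (1 - u (D.w i)) + D.comp (k - 1) (b i) * u D.t -
      ∑ j, D.comp k (b j) * D.Lam j i := by
  unfold bet
  rw [comp_sub, comp_add, comp_mul_N D k a _ (D.Comp_one_sub_w i), comp_mul_t, comp_sum]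
  congr 1
  exact Finset.sum_congr rfl fun j _ => comp_mul_N D k (b j) _ (D.LamN j i)

/-! closure properties of homogeneous elements -/

theorem hg_iff (D : Dat G) (k : ℤ) (c : RR G) : D.Hg k c ↔ D.comp k c = c := by
  constructor
  · exact D.comp_of_hg k c
  · intro h
    rw [← h]
    exact D.hg_comp k c

theorem hg_zero (D : Dat G) (k : ℤ) : D.Hg k 0 := by
  intro g hg
  exact absurd rfl hg

theorem hg_add (D : Dat G) (k : ℤ) (x y : RR G) (hx : D.Hg k x) (hy : D.Hg k y) :
    D.Hg k (x + y) := by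
  rw [hg_iff] at *
  rw [comp_add, hx, hy]

theorem hg_sub (D : Dat G) (k : ℤ) (x y : RR G) (hx : D.Hg k x) (hy : D.Hg k y) :
    D.Hg k (x - y) := by
  rw [hg_iff] at *
  rw [comp_sub, hx, hy]

theorem hg_sum (D : Dat G) (k : ℤ) {α : Type} (s : Finset α) (f : α → RR G)
    (h : ∀ i ∈ s, D.Hg k (f i)) : D.Hg k (∑ i ∈ s, f i) := by
  rw [hg_iff, comp_sum]
  exact Finset.sum_congr rfl fun i hi => D.comp_of_hg k _ (h i hi)

theorem hg_mul_N (D : Dat G) (k : ℤ) (c l : RR G) (hl : ∀ g, l.coeff g ≠ 0 → g ∈ D.N)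
    (hc : D.Hg k c) : D.Hg k (c * l) := by
  rw [hg_iff] at *
  rw [comp_mul_N D k c l hl, hc]

theorem hg_mul_tinv (D : Dat G) (k : ℤ) (c : RR G) (hc : D.Hg k c) :
    D.Hg (k - 1) (c * u D.t⁻¹) := by
  rw [hg_iff] at *
  rw [comp_mul_tinv, sub_add_cancel, hc]

theorem hg_left (D : Dat G) (k : ℤ) (c : RR G) (m : G) (hm : m ∈ D.N) (hc : D.Hg k c) :
    D.Hg k (u m * c) := by
  rw [hg_iff] at *
  rw [comp_left D k c m hm, hc]

theorem hg_tau (D : Dat G) (k : ℤ) (z : D.ι → RR G) (hz : ∀ i, D.Hg k (z i)) (i : D.ι) :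
    D.Hg (k - 1) (D.tau z i) := by
  unfold tau
  exact D.hg_sum _ _ _ fun j _ => D.hg_mul_N _ _ _ (D.LamN j i) (D.hg_mul_tinv k (z j) (hz j))

theorem hg_kap (D : Dat G) (k : ℤ) (a : RR G) (ha : D.Hg k a) (i : D.ι) :
    D.Hg k (D.bet a 0 i) := by
  have h : D.bet a 0 i = a * (1 - u (D.w i)) := by
    unfold bet
    simp
  rw [h]
  exact D.hg_mul_N k a _ (D.Comp_one_sub_w i) ha

end Dat

end Pool.Agent.PDN
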