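import Pool.Agent.PDN.Pi
import Pool.Agent.PD3.Defs

/-!
# Core: the contradiction

`B = kerRep (cokProj (matHom M))`, `SES (kerInc _) (cokProj _)` (`ses_ker`, `cokProj_surj`):
`0 → B → R^ι → cok → 0`; `hE` and `pi_zero 2` (with `hG.vanish 2`) give `HH B 2 = 0`.
`a : R → R^κ`, `a = rowHom v`; `b' = kerLift (cokProj (matHom M)) (matHom M) _ : R^κ → B` is
surjective (`cokProj_eq_zero`) with kernel the image of `a` (`hex`), `a` injective (`hinj`):
`SES a b'`.  From `les 2`: `Hm a 3` is injective on `HH R 3`; but `Hm a 3 = 0` by `row_zero`.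
So `HH R 3 = 0`, but it is isomorphic to `ℤ` (`hG.top`).
-/

open CategoryTheory

namespace Pool.Agent.PDN

open Pool.Agent.PD3

variable {G : Type} [Group G]

theorem core_contra (hG : IsPD3 G) {κ ι : Type} [Fintype κ] [Fintype ι] (v : κ → RR G)
    (M : κ → ι → RR G)
    (hv : ∀ j, ∃ g : G, v j = u g - 1 ∧ ∀ d : HH (Rep.leftRegular ℤ G) 3, Hm (rt ℤ g) 3 d = d)
    (hinj : ∀ c : RR G, (∀ j, c * v j = 0) → c = 0)
    (hzero : ∀ i, ∑ k, v k * M k i = 0)
    (hex : ∀ b : κ → RR G, (∀ i, ∑ k, b k * M k i = 0) → ∃ c : RR G, ∀ j, b j = c * v j)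
    (hE : ∀ c : HH (cok (matHom M)) 1, c = 0) : False := by
  have hR2 : ∀ d : HH (Rep.leftRegular ℤ G) 2, d = 0 := by
    intro d
    have := hG.vanish 2 (by norm_num)
    exact Subsingleton.elim (α := (groupCohomology (Rep.leftRegular ℤ G) 2 : ModuleCat ℤ)) _ _
  set f := matHom M with hf
  set π := cokProj f with hπ
  -- `HH B 2 = 0`
  have hB2 : ∀ c : HH (kerRep π) 2, c = 0 := by
    obtain ⟨δ, -, -, h3⟩ := (ses_ker π (cokProj_surj f)).les 1
    intro c
    have h1 : Hm (kerInc π) 2 c = 0 := pi_zero 2 hR2 _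
    obtain ⟨y, rfl⟩ := (h3 c).1 h1
    rw [hE y, map_zero]
  -- the second sequence
  have hbz : ∀ x, π.hom (f.hom x) = 0 := fun x => cokProj_zero f x
  have hses : SES (rowHom v) (kerLift π f hbz) := by
    refine ⟨?_, ?_, ?_, ?_⟩
    · intro c c' hcc
      have h1 : ∀ j, (c : RR G) * v j = (c' : RR G) * v j := fun j => congrFun hcc j
      have h2 : ((c : RR G) - (c' : RR G)) = 0 := hinj _ fun j => by
        rw [sub_mul, h1 j, sub_self]
      exact sub_eq_zero.1 h2
    · rintro ⟨y, hy⟩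
      obtain ⟨x, hx⟩ := (cokProj_eq_zero f y).1 hy
      exact ⟨x, Subtype.ext hx⟩
    · intro c
      apply kerInc_inj π
      rw [kerLift_inc, map_zero]
      funext i
      show ∑ k, ((c : RR G) * v k) * M k i = 0
      have := hzero i
      simp only [mul_assoc]
      rw [← Finset.mul_sum, this, mul_zero]
    · intro b hb
      have hb' : f.hom b = 0 := by
        have := congrArg (kerInc π).hom hb
        rw [kerLift_inc, map_zero] at this
        exact this
      obtain ⟨c, hc⟩ := hex b (fun i => congrFun hb' i)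
      exact ⟨c, funext fun j => (hc j).symm⟩
  obtain ⟨δ, -, -, h3⟩ := hses.les 2
  have hall : ∀ d : HH (Rep.leftRegular ℤ G) 3, d = 0 := by
    intro d
    obtain ⟨y, rfl⟩ := (h3 d).1 (row_zero v 3 hv d)
    rw [hB2 y, map_zero]
  obtain ⟨e⟩ := hG.top
  have h0 : e.symm (1 : ℤ) = 0 := hall _
  have h1 := congrArg e h0
  rw [AddEquiv.apply_symm_apply, map_zero] at h1
  exact one_ne_zero h1

end Pool.Agent.PDN
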