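import Pool.Agent.PDN.Basic

/-!
# Dat: the data of the algebraic core

`N` normal in `G`, generated by `n i` (`i : ι`, finite), `t : G`, a degree function `dg : G → ℤ` with
`dg (g m) = dg g` for `m ∈ N` and `dg (g t) = dg g + 1`, and `Lam j i ∈ ℤ[N]` with
`w_i - 1 = ∑ j, (n j - 1) Lam j i`, where `w_i = t⁻¹ n_i t`.
-/

open CategoryTheory

namespace Pool.Agent.PDN

open Pool.Agent.PD3

variable {G : Type} [Group G]

structure Dat (G : Type) [Group G] where
  N : Subgroup G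
  nrm : N.Normal
  ι : Type
  fi : Fintype ι
  de : DecidableEq ι
  n : ι → G
  t : G
  dg : G → ℤ
  Lam : ι → ι → RR G
  cl : Subgroup.closure (Set.range n) = N
  dgN : ∀ g, ∀ m ∈ N, dg (g * m) = dg g
  dgt : ∀ g, dg (g * t) = dg g + 1
  LamN : ∀ j i g, (Lam j i).coeff g ≠ 0 → g ∈ N
  LamE : ∀ i, u (t⁻¹ * n i * t) - 1 = ∑ j, (u (n j) - 1) * Lam j i

namespace Dat

instance (D : Dat G) : Fintype D.ι := D.fi
instance (D : Dat G) : DecidableEq D.ι := D.de
instance (D : Dat G) : D.N.Normal := D.nrm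

/-- `w_i = t⁻¹ n_i t` -/
def w (D : Dat G) (i : D.ι) : G := D.t⁻¹ * D.n i * D.t

/-- `bet a b = a κ + b (t - Lam)` -/
noncomputable def bet (D : Dat G) (a : RR G) (b : D.ι → RR G) : D.ι → RR G :=
  fun i => a * (1 - u (D.w i)) + b i * u D.t - ∑ j, b j * D.Lam j i

/-- `tau z = z t⁻¹ Lam` -/
noncomputable def tau (D : Dat G) (z : D.ι → RR G) : D.ι → RR G :=
  fun i => ∑ j, z j * u D.t⁻¹ * D.Lam j i

/-- homogeneous of degree `k` -/
def Hg (D : Dat G) (k : ℤ) (c : RR G) : Prop := ∀ g, c.coeff g ≠ 0 → D.dg g = k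

open Classical in
/-- the component of degree `k` -/
noncomputable def comp (D : Dat G) (k : ℤ) (c : RR G) : RR G :=
  MonoidAlgebra.ofCoeff (c.coeff.filter fun g => D.dg g = k)

open Classical in
theorem comp_coeff (D : Dat G) (k : ℤ) (c : RR G) (g : G) :
    (D.comp k c).coeff g = if D.dg g = k then c.coeff g else 0 := by
  unfold comp
  rw [MonoidAlgebra.coeff_ofCoeff, Finsupp.filter_apply]

/-- `N` acts by left and right multiplication without fixed vectors -/
theorem n_mem (D : Dat G) (i : D.ι) : D.n i ∈ D.N := by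
  rw [← D.cl]
  exact Subgroup.subset_closure (Set.mem_range_self i)

theorem w_mem (D : Dat G) (i : D.ι) : D.w i ∈ D.N := by
  have := D.nrm.conj_mem (D.n i) (D.n_mem i) D.t⁻¹
  rwa [inv_inv] at this

theorem t_w (D : Dat G) (i : D.ι) : D.t * D.w i = D.n i * D.t := by
  unfold w; group

theorem w_tinv (D : Dat G) (i : D.ι) : D.w i * D.t⁻¹ = D.t⁻¹ * D.n i := by
  unfold w; group

theorem dgt_inv (D : Dat G) (g : G) : D.dg (g * D.t⁻¹) = D.dg g - 1 := by
  have := D.dgt (g * D.t⁻¹)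
  rw [inv_mul_cancel_right] at this
  omega

theorem dgt_zpow (D : Dat G) (g : G) (k : ℤ) : D.dg (g * D.t ^ k) = D.dg g + k := by
  induction k using Int.induction_on with
  | zero => simp
  | succ k ih => rw [zpow_add_one, ← mul_assoc, D.dgt, ih]; ring
  | pred k ih => rw [zpow_sub_one, ← mul_assoc, D.dgt_inv, ih]; ring

theorem dgN_left (D : Dat G) (g : G) (m : G) (hm : m ∈ D.N) : D.dg (m * g) = D.dg g := by
  have h := D.nrm.conj_mem m hm g⁻¹
  have h2 : m * g = g * (g⁻¹ * m * g⁻¹⁻¹) := by group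
  rw [h2, D.dgN g _ h]

end Dat

/-- two-sided almost invariant functions are almost constant -/
def AIprop (Γ : Type) [Group Γ] : Prop :=
  ∀ φ : Γ → ℤ, (∀ n : Γ, {x | φ (n * x) ≠ φ x}.Finite) → (∀ n : Γ, {x | φ (x * n) ≠ φ x}.Finite) →
    ∃ c : ℤ, {x | φ x ≠ c}.Finite

/-- property (*): a cocycle `c : N → ℤ[G]` all of whose right multiples by `g - 1`, `g ∈ N`, are
principal, is principal -/
def StarP (N : Subgroup G) : Prop :=
  ∀ c : G → RR G, (∀ m ∈ N, ∀ n ∈ N, c (m * n) = c m + u m * c n) →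
    (∀ g ∈ N, ∃ a : RR G, ∀ n ∈ N, c n * (u g - 1) = (u n - 1) * a) →
    ∃ a : RR G, ∀ n ∈ N, c n = (u n - 1) * a

end Pool.Agent.PDN
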