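import Mathlib

/-!
# Deg: the degree function

`L = N ⊔ zpowers t = {t^k m}`; every element of `L` is `t^k m` with `m ∈ N` and `k` unique
(`t^k m = t^l m'` gives `t^(k-l) ∈ N`).  For `g : G` let `r` be the chosen representative of `g L`
(`Quotient.out`), `r⁻¹ g = t^k m`, `dg g = k`.  `g m'`: same coset, `r⁻¹ g m' = t^k (m m')`.
`g t`: `r⁻¹ g t = t^k m t = t^(k+1) (t⁻¹ m t)`.
-/

namespace Pool.Agent.PDN

theorem exists_deg {G : Type} [Group G] (N : Subgroup G) (hn : N.Normal) (t : G)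
    (ht : ∀ k : ℤ, t ^ k ∈ N → k = 0) :
    ∃ dg : G → ℤ, (∀ g, ∀ m ∈ N, dg (g * m) = dg g) ∧ (∀ g, dg (g * t) = dg g + 1) := by
  classical
  have huniq : ∀ (x : G) (k l : ℤ), t ^ (-k) * x ∈ N → t ^ (-l) * x ∈ N → k = l := by
    intro x k l hk hl
    have h1 : (t ^ (-k) * x) * (t ^ (-l) * x)⁻¹ ∈ N := N.mul_mem hk (N.inv_mem hl)
    have h2 : (t ^ (-k) * x) * (t ^ (-l) * x)⁻¹ = t ^ (l - k) := by
      rw [mul_inv_rev, ← mul_assoc, mul_assoc (t ^ (-k)) x x⁻¹, mul_inv_cancel, mul_one, zpow_neg t l,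
        inv_inv, ← zpow_add]
      congr 1
      ring
    rw [h2] at h1
    have := ht _ h1
    omega
  have hex : ∀ x ∈ N ⊔ Subgroup.zpowers t, ∃ k : ℤ, t ^ (-k) * x ∈ N := by
    intro x hx
    rw [Subgroup.mem_sup_of_normal_left] at hx
    obtain ⟨m, hm, s, hs, rfl⟩ := hx
    obtain ⟨k, rfl⟩ := Subgroup.mem_zpowers_iff.1 hs
    refine ⟨k, ?_⟩
    have h := hn.conj_mem m hm (t ^ (-k))
    rw [zpow_neg, inv_inv] at h
    rw [zpow_neg, ← mul_assoc]
    exact h
  set L : Subgroup G := N ⊔ Subgroup.zpowers t with hL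
  have hout : ∀ g : G, (Quotient.out (QuotientGroup.mk g : G ⧸ L))⁻¹ * g ∈ L := by
    intro g
    rw [← QuotientGroup.eq]
    exact QuotientGroup.out_eq' _
  choose dg hdg using fun g : G => hex _ (hout g)
  refine ⟨dg, ?_, ?_⟩
  · intro g m hm
    have hco : (QuotientGroup.mk (g * m) : G ⧸ L) = QuotientGroup.mk g := by
      rw [eq_comm, QuotientGroup.eq]
      rw [← mul_assoc, inv_mul_cancel, one_mul]
      exact (le_sup_left : N ≤ N ⊔ Subgroup.zpowers t) hm
    have h1 := hdg (g * m)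
    rw [hco] at h1
    have h2 : t ^ (-dg g) * ((Quotient.out (QuotientGroup.mk g : G ⧸ L))⁻¹ * (g * m)) ∈ N := by
      have := N.mul_mem (hdg g) hm
      rw [mul_assoc, mul_assoc] at this
      exact this
    exact huniq _ _ _ h1 h2
  · intro g
    have htL : t ∈ L :=
      (le_sup_right : Subgroup.zpowers t ≤ N ⊔ Subgroup.zpowers t) (Subgroup.mem_zpowers t)
    have hco : (QuotientGroup.mk (g * t) : G ⧸ L) = QuotientGroup.mk g := by
      rw [eq_comm, QuotientGroup.eq]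
      rw [← mul_assoc, inv_mul_cancel, one_mul]
      exact htL
    have h1 := hdg (g * t)
    rw [hco] at h1
    have h2 : t ^ (-(dg g + 1)) * ((Quotient.out (QuotientGroup.mk g : G ⧸ L))⁻¹ * (g * t)) ∈ N := by
      have := hn.conj_mem _ (hdg g) t⁻¹
      rw [inv_inv] at this
      have he : t ^ (-(dg g + 1)) = t⁻¹ * t ^ (-dg g) := by
        rw [neg_add_rev, zpow_add, zpow_neg_one]
      rw [he]
      simpa [mul_assoc] using this
    exact huniq _ _ _ h1 h2

end Pool.Agent.PDN
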