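import Pool.Agent.PDN.Comp
import Pool.Agent.PDN.Alg

/-!
# E12: exactness of `R → R × R^ι → R^ι`

* `e2`: `c (t - 1) = 0`: comparing degrees, `comp (k-1) c * t = comp k c` for all `k`, so if one
  component is nonzero then all lower ones... (`comp (k-1) c = 0 ↔ comp k c = 0`), contradicting
  `comp_bd`.
* `e1`: if `bet a b = 0` then `(a, b) = alp c`.  Induction on `d : ℕ` for the statement: if
  `comp k a = 0` unless `m ≤ k ≤ m + d`, `comp k (b j) = 0` unless `m ≤ k < m + d`, then `∃ c`.
  - `d = 0`: `b = 0` (all components vanish), `bet a 0 = 0`, so `a = 0` (`kap_inj`); `c = 0`.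
  - `d + 1`: let `c₀ = comp (m+d+1) a * t⁻¹` (degree `m + d`).  The component of degree `m+d+1` of
    `bet a b = 0` (`comp_bet`): `comp (m+d+1) a (1-w_i) + comp (m+d) (b_i) t = 0`, so
    `comp (m+d) (b_i) = comp (m+d+1) a (w_i - 1) t⁻¹ = c₀ (n_i - 1)` (`w_tinv`).
    Then `a' = a - c₀ (t-1)` and `b'_j = b_j - c₀ (n_j - 1)` satisfy the hypotheses for `d`
    (`bet_alp`, `bet_sub`), `(a',b') = alp c'`, take `c = c' + c₀`.
-/

open CategoryTheory

namespace Pool.Agent.PDN

open Pool.Agent.PD3

variable {G : Type} [Group G]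

theorem e2 (D : Dat G) (c : RR G) (h : c * (u D.t - 1) = 0) : c = 0 := by
  apply D.comp_all_zero
  intro k
  by_contra hk
  have hstep : ∀ k : ℤ, D.comp k c = D.comp (k - 1) c * u D.t := by
    intro k
    have h1 := congrArg (D.comp k) h
    rw [mul_sub, mul_one, D.comp_sub, D.comp_zero, D.comp_mul_t] at h1
    exact (sub_eq_zero.mp h1).symm
  have hall : ∀ n : ℕ, D.comp (k - n) c ≠ 0 := by
    intro n
    induction n with
    | zero => simpa using hk
    | succ n ih =>
      intro h0
      apply ih
      rw [hstep, show k - (n:ℤ) - 1 = k - ((n + 1 : ℕ) : ℤ) by push_cast; ring, h0, zero_mul]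
  obtain ⟨K, hK⟩ := D.comp_bd c
  have := (hK _ (hall (k + K + 1).toNat)).1
  omega

theorem E12_aux (D : Dat G) (hN : Infinite D.N) (m : ℤ) (d : ℕ) : ∀ (a : RR G) (b : D.ι → RR G),
    (∀ i, D.bet a b i = 0) → (∀ k, D.comp k a ≠ 0 → m ≤ k ∧ k ≤ m + d) →
    (∀ j k, D.comp k (b j) ≠ 0 → m ≤ k ∧ k < m + d) →
    ∃ c : RR G, a = c * (u D.t - 1) ∧ ∀ j, b j = c * (u (D.n j) - 1) := by
  induction d with
  | zero =>
    intro a b h ha hb
    have hb0 : b = 0 := by
      funext j
      apply D.comp_all_zero
      intro k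
      by_contra hk
      have := hb j k hk
      push_cast at this
      omega
    subst hb0
    have ha0 : a = 0 := D.kap_inj hN a h
    refine ⟨0, ?_, ?_⟩
    · rw [ha0, zero_mul]
    · intro j
      rw [zero_mul]; rfl
  | succ d ih =>
    intro a b h ha hb
    set c₀ : RR G := D.comp (m + d + 1) a * u D.t⁻¹ with hc₀
    have hhg : D.Hg (m + d) c₀ := by
      have := D.hg_mul_tinv (m + d + 1) _ (D.hg_comp (m + d + 1) a)
      rwa [show m + (d:ℤ) + 1 - 1 = m + d by ring] at this
    have hct : c₀ * u D.t = D.comp (m + d + 1) a := by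
      rw [hc₀, mul_assoc, u_inv_mul, mul_one]
    have hself : D.comp (m + d) c₀ = c₀ := D.comp_of_hg _ _ hhg
    have hoth : ∀ k, k ≠ m + d → D.comp k c₀ = 0 := fun k hk =>
      D.comp_of_hg_ne _ _ _ hhg (Ne.symm hk)
    have heq : ∀ i, D.comp (m + d) (b i) = c₀ * (u (D.n i) - 1) := by
      intro i
      have h1 := congrArg (D.comp (m + d + 1)) (h i)
      rw [D.comp_zero, D.comp_bet] at h1
      have h2 : ∑ j, D.comp (m + d + 1) (b j) * D.Lam j i = 0 := by
        apply Finset.sum_eq_zero
        intro j _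
        have : D.comp (m + d + 1) (b j) = 0 := by
          by_contra hk
          have := hb j _ hk
          push_cast at this
          omega
        rw [this, zero_mul]
      rw [h2, sub_zero, show m + (d:ℤ) + 1 - 1 = m + d by ring] at h1
      have h3 : D.comp (m + d) (b i) * u D.t = D.comp (m + d + 1) a * (u (D.w i) - 1) := by
        have h4 : D.comp (m + d) (b i) * u D.t =
            (D.comp (m + d + 1) a * (1 - u (D.w i)) + D.comp (m + d) (b i) * u D.t) +
              D.comp (m + d + 1) a * (u (D.w i) - 1) := by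
          rw [mul_sub, mul_sub]; abel
        rw [h4, h1, zero_add]
      have h5 := congrArg (fun y => y * u D.t⁻¹) h3
      rw [mul_assoc, u_mul_inv, mul_one, mul_assoc, sub_mul, ← u_mul, D.w_tinv, one_mul] at h5
      rw [h5, hc₀, mul_assoc, mul_sub (u _), mul_one, ← u_mul]
    have g1 : ∀ i, D.bet (a - c₀ * (u D.t - 1)) (b - fun j => c₀ * (u (D.n j) - 1)) i = 0 := by
      intro i
      have e0 := congrFun (D.bet_sub a (c₀ * (u D.t - 1)) b (fun j => c₀ * (u (D.n j) - 1))) i
      rw [D.bet_alp] at e0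
      rw [e0]
      simp [h]
    have g2 : ∀ k, D.comp k (a - c₀ * (u D.t - 1)) ≠ 0 → m ≤ k ∧ k ≤ m + d := by
      intro k hk
      by_cases hk1 : k = m + d + 1
      · exfalso
        apply hk
        rw [hk1, D.comp_sub, mul_sub, mul_one, D.comp_sub, D.comp_mul_t,
          show m + (d:ℤ) + 1 - 1 = m + d by ring, hself, hct, hoth _ (by omega)]
        abel
      · by_cases hk2 : k = m + d
        · rw [hk2]; constructor <;> omega
        · have h0 : D.comp k (a - c₀ * (u D.t - 1)) = D.comp k a := by
            rw [D.comp_sub, mul_sub, mul_one, D.comp_sub, D.comp_mul_t, hoth (k - 1) (by omega),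
              hoth k hk2, zero_mul]
            abel
          rw [h0] at hk
          have := ha k hk
          push_cast at this
          omega
    have g3 : ∀ j k, D.comp k ((b - fun j => c₀ * (u (D.n j) - 1)) j) ≠ 0 → m ≤ k ∧ k < m + d := by
      intro j k hk
      rw [Pi.sub_apply] at hk
      by_cases hk2 : k = m + d
      · exfalso
        apply hk
        rw [hk2, D.comp_sub, heq, mul_sub, mul_one, D.comp_sub, D.comp_mul_uN _ _ _ (D.n_mem j),
          hself]
        abel
      · have h0 : D.comp k (b j - c₀ * (u (D.n j) - 1)) = D.comp k (b j) := by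
          rw [D.comp_sub, mul_sub, mul_one, D.comp_sub, D.comp_mul_uN _ _ _ (D.n_mem j),
            hoth k hk2, zero_mul]
          abel
        rw [h0] at hk
        have := hb j k hk
        push_cast at this
        omega
    obtain ⟨c, hc1, hc2⟩ := ih (a - c₀ * (u D.t - 1)) (b - fun j => c₀ * (u (D.n j) - 1)) g1 g2 g3
    refine ⟨c + c₀, ?_, ?_⟩
    · rw [add_mul, ← hc1]; abel
    · intro j
      have := hc2 j
      rw [Pi.sub_apply] at this
      rw [add_mul, ← this]; abel

theorem e1 (D : Dat G) (hN : Infinite D.N) (a : RR G) (b : D.ι → RR G)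
    (h : ∀ i, D.bet a b i = 0) : ∃ c : RR G, a = c * (u D.t - 1) ∧ ∀ j, b j = c * (u (D.n j) - 1) := by
  obtain ⟨Ka, hKa⟩ := D.comp_bd a
  choose Kb hKb using fun j => D.comp_bd (b j)
  set K : ℕ := Ka + ∑ j, Kb j with hK
  have hKj : ∀ j, Kb j ≤ K := by
    intro j
    have := Finset.single_le_sum (f := Kb) (fun _ _ => Nat.zero_le _) (Finset.mem_univ j)
    omega
  apply E12_aux D hN (-(K:ℤ)) (2 * K + 1) a b h
  · intro k hk
    have := hKa k hk
    have h2 : Ka ≤ K := by omega
    push_cast
    omega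
  · intro j k hk
    have := hKb j k hk
    have h2 := hKj j
    push_cast
    omega

end Pool.Agent.PDN
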