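import Pool.Agent.PDN.Push

/-!
# E3: the cokernel of `bet` has no `N`-invariants

Let `x` satisfy: for all `n ∈ N` there are `a, b` with `(n-1) x = bet a b`.
1. `push`: `x = x₁ + bet 0 b₀`, `x₁` homogeneous of degree `m`.  Still `(n-1) x₁ ∈ image bet`
   (`bet_mul`, `bet_sub`, `bet_add`).
2. For each generator `n_j`: `(n_j - 1) x₁ = bet a b = bet a 0 + bet 0 b`; `kap_push` (degree `m`):
   `= bet a_j 0 + bet 0 b_j` with `a_j` homogeneous of degree `m`.  Then `(n_j-1) x₁ - bet a_j 0` is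
   homogeneous of degree `m` (`hg_left`, `hg_sub`, `hg_kap`) and in the image of `bet 0`, so killed
   by `tau^k` (`tau_kill`), `k = k_j`; let `K` be the maximum of the `k_j` (`tau 0 = 0`).
   `tau^K` is additive and commutes with left multiplication (`tau_mul`) and
   `tau^K (bet a 0) = bet (a t⁻ᴷ) 0` (`tau_kap`).  So with `x₂ = tau^K x₁` and some `c_j`:
   `(n_j - 1) x₂ = bet c_j 0`.  By `tau_bet`, `x = x₂ + bet 0 b'`.
3. For all `n ∈ N` there is `c n` with `(n-1) x₂ = bet (c n) 0` (closure induction: products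
   `(nn'-1) x₂ = (n-1) x₂ + n (n'-1) x₂`, inverses), unique by `kap_inj`; choose `c`.  So
   `c (m n) = c m + u m * c n` for `m, n ∈ N`.
4. For `g = w_i`: `c n (1 - u (w i)) = (n-1) x₂ i` (`bet_kap`).  So for all `g ∈ N` there is `a` with
   `c n (u g - 1) = (u n - 1) a` for all `n ∈ N` (closure induction with `w_closure`:
   `g g' - 1 = (g-1) g' + (g'-1)`, `g⁻¹ - 1 = -(g-1) g⁻¹`).
5. `StarP`: `c n = (n-1) a`.  So `(n-1) (x₂ - bet a 0) = 0` for all `n ∈ N`, `x₂ = bet a 0`
   (`left_inv_zero`), `x = bet a 0 + bet 0 b'`.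
-/

open CategoryTheory

namespace Pool.Agent.PDN

open Pool.Agent.PD3

variable {G : Type} [Group G]

theorem E3_iter_zero (D : Dat G) (k : ℕ) : D.tau^[k] 0 = 0 := by
  induction k with
  | zero => rfl
  | succ k ih => rw [Function.iterate_succ_apply', ih, D.tau_zero']

theorem E3_iter_sub (D : Dat G) (k : ℕ) (z z' : D.ι → RR G) :
    D.tau^[k] (z - z') = D.tau^[k] z - D.tau^[k] z' := by
  induction k with
  | zero => rfl
  | succ k ih => rw [Function.iterate_succ_apply', ih, D.tau_sub, Function.iterate_succ_apply',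
      Function.iterate_succ_apply']

theorem E3_iter_mul (D : Dat G) (k : ℕ) (r : RR G) (z : D.ι → RR G) :
    D.tau^[k] (fun j => r * z j) = fun i => r * D.tau^[k] z i := by
  induction k with
  | zero => rfl
  | succ k ih => rw [Function.iterate_succ_apply', ih, D.tau_mul, Function.iterate_succ_apply']

theorem E3_iter_kap (D : Dat G) (k : ℕ) (c : RR G) :
    ∃ c' : RR G, D.tau^[k] (D.bet c 0) = D.bet c' 0 := by
  induction k with
  | zero => exact ⟨c, rfl⟩
  | succ k ih =>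
    obtain ⟨c', hc'⟩ := ih
    exact ⟨c' * u D.t⁻¹, by rw [Function.iterate_succ_apply', hc', D.tau_kap]⟩

theorem E3_bet_add0 (D : Dat G) (b b' : D.ι → RR G) : D.bet 0 b + D.bet 0 b' = D.bet 0 (b + b') := by
  rw [← D.bet_add, add_zero]

theorem E3_iter_bet (D : Dat G) (k : ℕ) (z : D.ι → RR G) :
    ∃ b : D.ι → RR G, z = D.tau^[k] z + D.bet 0 b := by
  induction k with
  | zero =>
    refine ⟨0, ?_⟩
    have : D.bet 0 0 = 0 := by
      have := D.bet_sub 0 0 0 0
      rw [sub_self, sub_self, sub_self] at this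
      exact this
    rw [this, add_zero]; rfl
  | succ k ih =>
    obtain ⟨b, hb⟩ := ih
    have h2 := D.tau_bet (D.tau^[k] z)
    rw [Function.iterate_succ_apply']
    refine ⟨(fun j => D.tau^[k] z j * u D.t⁻¹) + b, ?_⟩
    rw [← E3_bet_add0, ← add_assoc, ← h2, ← hb]

theorem E3_split (D : Dat G) (a : RR G) (b : D.ι → RR G) : D.bet a b = D.bet a 0 + D.bet 0 b := by
  rw [← D.bet_add, add_zero, zero_add]

theorem e3 (D : Dat G) (hN : Infinite D.N) (hS : StarP D.N) (x : D.ι → RR G)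
    (h : ∀ n ∈ D.N, ∃ (a : RR G) (b : D.ι → RR G), (fun i => (u n - 1) * x i) = D.bet a b) :
    ∃ (a : RR G) (b : D.ι → RR G), x = D.bet a b := by
  obtain ⟨m, x₁, b₀, hx₁, hx⟩ := push D x
  -- step 1
  have h1 : ∀ n ∈ D.N, ∃ (a : RR G) (b : D.ι → RR G), (fun i => (u n - 1) * x₁ i) = D.bet a b := by
    intro n hn
    obtain ⟨a, b, hab⟩ := h n hn
    refine ⟨a, b - fun j => (u n - 1) * b₀ j, ?_⟩
    have e1 : D.bet a (b - fun j => (u n - 1) * b₀ j) =
        D.bet a b - D.bet ((u n - 1) * 0) (fun j => (u n - 1) * b₀ j) := by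
      rw [← D.bet_sub, mul_zero, sub_zero]
    rw [e1, D.bet_mul, ← hab]
    funext i
    rw [Pi.sub_apply]
    have : x i = x₁ i + D.bet 0 b₀ i := by
      conv_lhs => rw [hx]
      rfl
    rw [this, mul_add]
    abel
  -- step 2
  have h2 : ∀ j, ∃ (a' : RR G) (k : ℕ), D.tau^[k] ((fun i => (u (D.n j) - 1) * x₁ i) - D.bet a' 0) = 0 := by
    intro j
    obtain ⟨a, b, hab⟩ := h1 (D.n j) (D.n_mem j)
    obtain ⟨a', b', ha', hb'⟩ := kap_push D a m
    have e1 : (fun i => (u (D.n j) - 1) * x₁ i) - D.bet a' 0 = D.bet 0 (b' + b) := by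
      rw [hab, E3_split D a b, hb', ← E3_bet_add0]
      abel
    obtain ⟨k, hk⟩ := tau_kill D m _ _ (by
      intro i
      rw [Pi.sub_apply]
      apply D.hg_sub
      · rw [sub_mul, one_mul]
        exact D.hg_sub _ _ _ (D.hg_left _ _ _ (D.n_mem j) (hx₁ i)) (hx₁ i)
      · exact D.hg_kap m a' ha' i) e1
    exact ⟨a', k, hk⟩
  choose a' k hk using h2
  set K : ℕ := ∑ j, k j with hK
  have hKj : ∀ j, k j ≤ K := fun j =>
    Finset.single_le_sum (f := k) (fun _ _ => Nat.zero_le _) (Finset.mem_univ j)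
  set x₂ : D.ι → RR G := D.tau^[K] x₁ with hx₂
  have h3 : ∀ j, ∃ c : RR G, (fun i => (u (D.n j) - 1) * x₂ i) = D.bet c 0 := by
    intro j
    have e1 : D.tau^[K] ((fun i => (u (D.n j) - 1) * x₁ i) - D.bet (a' j) 0) = 0 := by
      have : K = (K - k j) + k j := by have := hKj j; omega
      rw [this, Function.iterate_add_apply, hk, E3_iter_zero]
    rw [E3_iter_sub, E3_iter_mul, sub_eq_zero] at e1
    obtain ⟨c, hc⟩ := E3_iter_kap D K (a' j)
    exact ⟨c, by rw [← hc, ← e1]⟩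
  -- step 3
  have h4 : ∀ n ∈ D.N, ∃ c : RR G, (fun i => (u n - 1) * x₂ i) = D.bet c 0 := by
    intro n hn
    rw [← D.cl] at hn
    induction hn using Subgroup.closure_induction with
    | mem y hy =>
      obtain ⟨j, rfl⟩ := hy
      exact h3 j
    | one =>
      refine ⟨0, ?_⟩
      funext i
      rw [D.bet_kap, zero_mul, u_one, sub_self, zero_mul]
    | mul y z _ _ ihy ihz =>
      obtain ⟨cy, hcy⟩ := ihy
      obtain ⟨cz, hcz⟩ := ihz
      refine ⟨cy + u y * cz, ?_⟩
      funext i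
      have e1 := congrFun hcy i
      have e2 := congrFun hcz i
      rw [D.bet_kap] at e1 e2 ⊢
      rw [add_mul, ← e1, mul_assoc, ← e2, ← mul_assoc, ← add_mul]
      congr 1
      rw [u_mul, mul_sub, mul_one]
      abel
    | inv y _ ihy =>
      obtain ⟨cy, hcy⟩ := ihy
      refine ⟨-(u y⁻¹ * cy), ?_⟩
      funext i
      have e1 := congrFun hcy i
      rw [D.bet_kap] at e1 ⊢
      rw [neg_mul, mul_assoc, ← e1, ← mul_assoc, ← neg_mul]
      congr 1
      rw [mul_sub, mul_one, u_inv_mul]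
      abel
  choose! c hc using h4
  have hci : ∀ n ∈ D.N, ∀ i, (u n - 1) * x₂ i = c n * (1 - u (D.w i)) := by
    intro n hn i
    have := congrFun (hc n hn) i
    rwa [D.bet_kap] at this
  have hcoc : ∀ m ∈ D.N, ∀ n ∈ D.N, c (m * n) = c m + u m * c n := by
    intro m hm n hn
    rw [← sub_eq_zero]
    apply D.kap_inj hN
    intro i
    rw [D.bet_kap, sub_mul, add_mul, ← hci _ (D.N.mul_mem hm hn), ← hci _ hm, mul_assoc, ← hci _ hn,
      ← mul_assoc, ← add_mul, ← sub_mul, u_mul, mul_sub, mul_one]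
    rw [show u m * u n - 1 - (u m - 1 + (u m * u n - u m)) = 0 by abel, zero_mul]
  -- step 4
  have h5 : ∀ g ∈ D.N, ∃ a : RR G, ∀ n ∈ D.N, c n * (u g - 1) = (u n - 1) * a := by
    intro g hg
    rw [← D.w_closure] at hg
    induction hg using Subgroup.closure_induction with
    | mem y hy =>
      obtain ⟨j, rfl⟩ := hy
      refine ⟨-x₂ j, ?_⟩
      intro n hn
      rw [mul_neg, hci n hn, ← mul_neg, neg_sub]
    | one =>
      refine ⟨0, ?_⟩
      intro n hn
      rw [u_one, sub_self, mul_zero, mul_zero]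
    | mul y z _ _ ihy ihz =>
      obtain ⟨ay, hay⟩ := ihy
      obtain ⟨az, haz⟩ := ihz
      refine ⟨ay * u z + az, ?_⟩
      intro n hn
      rw [mul_add, ← mul_assoc, ← hay n hn, ← haz n hn, mul_assoc, ← mul_add]
      congr 1
      rw [u_mul, sub_mul, one_mul]
      abel
    | inv y _ ihy =>
      obtain ⟨ay, hay⟩ := ihy
      refine ⟨-(ay * u y⁻¹), ?_⟩
      intro n hn
      rw [mul_neg, ← mul_assoc, ← hay n hn, mul_assoc, ← mul_neg]
      congr 1
      rw [sub_mul, one_mul, u_mul_inv]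
      abel
  -- step 5
  obtain ⟨a, ha⟩ := hS c hcoc h5
  have h6 : x₂ = D.bet a 0 := by
    funext i
    rw [← sub_eq_zero]
    apply left_inv_zero D.N hN
    intro n hn
    have e1 : (u n - 1) * (x₂ i - D.bet a 0 i) = 0 := by
      rw [mul_sub, D.bet_kap, ← mul_assoc, ← ha n hn, hci n hn, sub_self]
    rw [sub_mul, one_mul, sub_eq_zero] at e1
    exact e1
  obtain ⟨b'', hb''⟩ := E3_iter_bet D K x₁
  refine ⟨a, b'' + b₀, ?_⟩
  rw [E3_split, ← h6, ← E3_bet_add0, ← add_assoc, hx₂, ← hb'', ← hx]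

end Pool.Agent.PDN
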