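import Pool.Agent.PD3.Resol
import Pool.Agent.PD3.CosetK

/-!
# FGG: a group of type `FP` is finitely generated

`P` a projective resolution of the trivial module `ℤ` with `P₁`, `P₀` finitely generated.  The
augmentation `ε : ℤ[G] → ℤ` is surjective and `P₀` is projective, so
`π : P₀ → ℤ` lifts to `s : P₀ → ℤ[G]`, `s ≫ ε = π`.  The composite `P₁ → P₀ → ℤ[G]` has values in the kernel of
`ε`; `H` is generated by the supports of the images of finitely many generators of `P₁`.
`P₁ → P₀ → ℤ[G] → ℤ[G/H]` is zero; for `π x₀ = 1` the image `e` of `x₀` in `ℤ[G/H]` is invariant, of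
augmentation `1`.  So `G/H` is finite.
-/

open CategoryTheory

namespace Pool.Agent.PDN

open Pool.Agent.PD3

variable {G : Type} [Group G]

theorem FGG_zero {k : Type} [CommRing k] (P A : Rep.{0} k G) (S : Set P.ρ.asModule)
    (hS : Submodule.span (MonoidAlgebra k G) S = ⊤)
    (v : P ⟶ A) (h : ∀ x ∈ S, v.hom (P.ρ.asModuleEquiv x) = 0) (m : P.V) : v.hom m = 0 := by
  let W : Submodule (MonoidAlgebra k G) P.ρ.asModule :=
    { carrier := {x | v.hom (P.ρ.asModuleEquiv x) = 0}
      add_mem' := fun {x y} hx hy => by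
        simp only [Set.mem_ofPred_eq] at *
        rw [map_add, map_add, hx, hy, add_zero]
      zero_mem' := by
        simp only [Set.mem_ofPred_eq, map_zero]
      smul_mem' := fun a x hx => by
        simp only [Set.mem_ofPred_eq] at *
        rw [Representation.asModuleEquiv_map_smul]
        induction a using MonoidAlgebra.induction_on with
        | of g =>
          have hg : P.ρ.asAlgebraHom (MonoidAlgebra.of k G g) (P.ρ.asModuleEquiv x) =
              P.ρ g (P.ρ.asModuleEquiv x) := by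
            rw [MonoidAlgebra.of_apply, Representation.asAlgebraHom_single_one]
          rw [hg, Rep.hom_comm_apply, hx, map_zero]
        | add a b ha hb =>
          rw [map_add, LinearMap.add_apply, map_add, ha, hb, add_zero]
        | smul c a ha =>
          rw [map_smul, LinearMap.smul_apply, map_smul, ha, smul_zero] }
  have hW : W = ⊤ := by
    rw [eq_top_iff, ← hS]
    apply Submodule.span_le.2
    intro x hx
    exact h x hx
  have : P.ρ.asModuleEquiv.symm m ∈ W := hW ▸ Submodule.mem_top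
  have h2 : v.hom (P.ρ.asModuleEquiv (P.ρ.asModuleEquiv.symm m)) = 0 := this
  rw [LinearEquiv.apply_symm_apply] at h2
  exact h2

theorem FGG_gen {k : Type} [CommRing k] (P : Rep.{0} k G)
    (hP : Module.Finite (MonoidAlgebra k G) P.ρ.asModule) (v : P ⟶ Rep.leftRegular k G) :
    ∃ T : Finset G, ∀ (A : Rep.{0} k G) (w : Rep.leftRegular k G ⟶ A),
      (∀ m : P.V, (∀ g, (v.hom m : MonoidAlgebra k G).coeff g ≠ 0 → g ∈ T) →
        w.hom (v.hom m) = 0) → ∀ m : P.V, w.hom (v.hom m) = 0 := by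
  classical
  obtain ⟨S, hS⟩ := hP
  refine ⟨S.biUnion fun y =>
    (v.hom (P.ρ.asModuleEquiv y) : MonoidAlgebra k G).coeff.support, fun A w hw => ?_⟩
  apply FGG_zero P A (S : Set _) hS (v ≫ w)
  intro y hy
  show w.hom (v.hom (P.ρ.asModuleEquiv y)) = 0
  apply hw
  intro g hg
  rw [Finset.mem_biUnion]
  exact ⟨y, hy, Finsupp.mem_support_iff.2 hg⟩

/-- the augmentation -/
noncomputable abbrev FGG_eps (G : Type) [Group G] : Rep.leftRegular ℤ G ⟶ Rep.trivial ℤ G ℤ :=
  ev (Rep.trivial ℤ G ℤ) (1 : ℤ)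

theorem FGG_eps_single (g : G) (r : ℤ) :
    ((FGG_eps G).hom (MonoidAlgebra.single g r) : ℤ) = r := by
  rw [ev_single]
  show r • (1 : ℤ) = r
  simp

theorem FGG_q (H : Subgroup G) (z : G →₀ ℤ) (hz : ∀ g, z g ≠ 0 → g ∈ H) :
    ((qmap ℤ H).hom (MonoidAlgebra.ofCoeff z : MonoidAlgebra ℤ G) : (G ⧸ H) →₀ ℤ) =
      Finsupp.single ((1 : G) : G ⧸ H)
        ((FGG_eps G).hom (MonoidAlgebra.ofCoeff z : MonoidAlgebra ℤ G) : ℤ) := by
  classical
  induction z using Finsupp.induction with
  | zero =>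
    rw [MonoidAlgebra.ofCoeff_zero]
    rw [map_zero (FGG_eps G).hom, map_zero (qmap ℤ H).hom]
    exact (Finsupp.single_zero _).symm
  | single_add a b f ha hb ih =>
    have h1 : ∀ g, f g ≠ 0 → g ∈ H := by
      intro g hg
      apply hz g
      have hne : a ≠ g := by
        rintro rfl
        exact ha (Finsupp.mem_support_iff.2 hg)
      rw [Finsupp.add_apply, Finsupp.single_eq_of_ne' hne, zero_add]
      exact hg
    have h2 : a ∈ H := by
      apply hz a
      have : f a = 0 := Finsupp.notMem_support_iff.1 ha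
      rw [Finsupp.add_apply, Finsupp.single_eq_same, this, add_zero]
      exact hb
    have ih' := ih h1
    rw [MonoidAlgebra.ofCoeff_add, MonoidAlgebra.ofCoeff_single]
    rw [map_add (FGG_eps G).hom, map_add (qmap ℤ H).hom]
    have h3 : ((a : G) : G ⧸ H) = ((1 : G) : G ⧸ H) := by
      rw [QuotientGroup.eq]
      simpa using h2
    have h4 : ((qmap ℤ H).hom (MonoidAlgebra.single a b : MonoidAlgebra ℤ G) : (G ⧸ H) →₀ ℤ) =
        Finsupp.single ((1 : G) : G ⧸ H) b := by
      rw [qmap_single, h3]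
    have h5 := FGG_eps_single a b
    exact (congrArg₂ (fun x y : (G ⧸ H) →₀ ℤ => x + y) h4 ih').trans
      ((Finsupp.single_add _ _ _).symm.trans (by
        congr 1
        exact congrArg₂ (fun x y : ℤ => x + y) h5.symm rfl))

/-- sum of coefficients -/
noncomputable def FGG_sum (X : Type) : (X →₀ ℤ) →+ ℤ :=
  Finsupp.liftAddHom fun _ => AddMonoidHom.id ℤ

theorem FGG_sum_single (X : Type) (x : X) (r : ℤ) : FGG_sum X (Finsupp.single x r) = r := by
  unfold FGG_sum
  rw [Finsupp.liftAddHom_apply_single]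
  rfl

theorem FGG_sum_q (H : Subgroup G) (z : MonoidAlgebra ℤ G) :
    FGG_sum (G ⧸ H) ((qmap ℤ H).hom z : (G ⧸ H) →₀ ℤ) = ((FGG_eps G).hom z : ℤ) := by
  induction z using MonoidAlgebra.induction_linear with
  | zero =>
    rw [map_zero (FGG_eps G).hom, map_zero (qmap ℤ H).hom]
    exact map_zero _
  | add f g hf hg =>
    rw [map_add (FGG_eps G).hom, map_add (qmap ℤ H).hom]
    exact (map_add _ _ _).trans (congrArg₂ (fun x y : ℤ => x + y) hf hg)
  | single g n =>
    rw [qmap_single, FGG_sum_single]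
    exact (FGG_eps_single g n).symm

theorem FGG_fin (H : Subgroup G) (e : (G ⧸ H) →₀ ℤ)
    (he : ∀ g : G, permRho (G := G) ℤ ℤ (G ⧸ H) g e = e) (h0 : e ≠ 0) : Finite (G ⧸ H) := by
  obtain ⟨x, hx⟩ := Finsupp.ne_iff.1 h0
  rw [Finsupp.zero_apply] at hx
  have hall : ∀ y, e y ≠ 0 := by
    intro y
    obtain ⟨g, hg⟩ := MulAction.exists_smul_eq G y x
    have h1 := he g⁻¹
    have h2 := DFunLike.congr_fun h1 y
    rw [permRho_apply, inv_inv, hg] at h2
    rw [← h2]
    exact hx
  have h3 : (Set.univ : Set (G ⧸ H)).Finite := by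
    apply e.support.finite_toSet.subset
    intro y _
    rw [Finset.mem_coe, Finsupp.mem_support_iff]
    exact hall y
  exact Set.finite_univ_iff.1 h3

theorem FGG_fg (S : Set G) (hS : S.Finite) (hf : Finite (G ⧸ Subgroup.closure S)) :
    Group.FG G := by
  rw [Group.fg_iff]
  refine ⟨S ∪ Set.range (Quotient.out : G ⧸ Subgroup.closure S → G), ?_,
    hS.union (Set.finite_range _)⟩
  rw [eq_top_iff]
  intro g _
  have h1 : (Quotient.out (g : G ⧸ Subgroup.closure S))⁻¹ * g ∈ Subgroup.closure S := by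
    rw [← QuotientGroup.eq]
    exact Quotient.out_eq _
  have h2 : g = Quotient.out (g : G ⧸ Subgroup.closure S) *
      ((Quotient.out (g : G ⧸ Subgroup.closure S))⁻¹ * g) := by group
  rw [h2]
  refine Subgroup.mul_mem _ ?_ ?_
  · exact Subgroup.subset_closure (Set.mem_union_right _ (Set.mem_range_self _))
  · exact Subgroup.closure_mono Set.subset_union_left h1

theorem FGG_exact' {k : Type} [CommRing k] (X₁ X₂ X₃ : Rep.{0} k G) (f : X₁ ⟶ X₂) (g : X₂ ⟶ X₃)
    (w : f ≫ g = 0) (h1 : (ShortComplex.mk f g w).Exact) (x : X₂.V) (hx : g.hom x = 0) :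
    ∃ y : X₁.V, f.hom y = x := by
  have h2 := (ShortComplex.exact_map_iff_of_faithful _ (forget₂ (Rep k G) (ModuleCat k))).2 h1
  rw [ShortComplex.moduleCat_exact_iff] at h2
  exact h2 x hx

/-- the augmentation of a resolution -/
noncomputable abbrev FGG_pi (P : ProjectiveResolution (Rep.trivial ℤ G ℤ)) :
    P.complex.X 0 ⟶ Rep.trivial ℤ G ℤ := P.π.f 0

theorem FGG_comp (P : ProjectiveResolution (Rep.trivial ℤ G ℤ)) :
    P.complex.d 1 0 ≫ FGG_pi P = 0 := P.complex_d_comp_π_f_zero

theorem FGG_exact (P : ProjectiveResolution (Rep.trivial ℤ G ℤ)) (x : (P.complex.X 0).V)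
    (hx : (FGG_pi P).hom x = 0) : ∃ y : (P.complex.X 1).V, (P.complex.d 1 0).hom y = x :=
  FGG_exact' _ _ _ _ _ (FGG_comp P) P.exact₀ x hx

theorem fg_of_fp {G : Type} [Group G] (h : IsTypeFP ℤ G) : Group.FG G := by
  classical
  obtain ⟨P, hP, -⟩ := h
  have hepi : Epi (FGG_eps G) := by
    rw [Rep.epi_iff_surjective]
    intro r
    exact ⟨MonoidAlgebra.single 1 r, FGG_eps_single 1 r⟩
  have hproj : Projective (P.complex.X 0) := P.projective 0
  let s : P.complex.X 0 ⟶ Rep.leftRegular ℤ G := Projective.factorThru (FGG_pi P) (FGG_eps G)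
  have hs : s ≫ FGG_eps G = FGG_pi P := Projective.factorThru_comp _ _
  have hs' : ∀ x, (FGG_eps G).hom (s.hom x) = (FGG_pi P).hom x := by
    intro x
    have := congrArg (fun f => f.hom x) hs
    exact this
  have hd : ∀ y, (FGG_pi P).hom ((P.complex.d 1 0).hom y) = 0 := by
    intro y
    have := congrArg (fun f => f.hom y) (FGG_comp P)
    exact this
  obtain ⟨T, hT⟩ := FGG_gen (P.complex.X 1) (hP 1) (P.complex.d 1 0 ≫ s)
  let H : Subgroup G := Subgroup.closure (T : Set G)
  have hz : ∀ m, (qmap ℤ H).hom ((P.complex.d 1 0 ≫ s).hom m) = 0 := by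
    apply hT
    intro m hm
    set z : MonoidAlgebra ℤ G := ((P.complex.d 1 0 ≫ s).hom m : MonoidAlgebra ℤ G)
      with hzdef
    have h1 : ∀ g, z.coeff g ≠ 0 → g ∈ H := by
      intro g hg
      apply Subgroup.subset_closure
      exact hm g hg
    have h2 := FGG_q H z.coeff h1
    rw [MonoidAlgebra.ofCoeff_coeff] at h2
    have h3 : ((FGG_eps G).hom z : ℤ) = 0 := (hs' _).trans (hd _)
    rw [h3, Finsupp.single_zero] at h2
    exact h2
  -- an element with augmentation `1`
  have hπ : Epi (FGG_pi P) := inferInstanceAs (Epi (P.π.f 0))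
  rw [Rep.epi_iff_surjective] at hπ
  obtain ⟨x₀, hx₀⟩ := hπ (1 : ℤ)
  let e : (G ⧸ H) →₀ ℤ := (qmap ℤ H).hom (s.hom x₀)
  have he1 : FGG_sum _ e = 1 := (FGG_sum_q H (s.hom x₀)).trans ((hs' x₀).trans hx₀)
  have he0 : e ≠ 0 := by
    intro h0
    rw [h0, map_zero] at he1
    exact zero_ne_one he1
  have hinv : ∀ g : G, permRho (G := G) ℤ ℤ (G ⧸ H) g e = e := by
    intro g
    have h1 : (FGG_pi P).hom ((P.complex.X 0).ρ g x₀ - x₀) = 0 := by
      rw [map_sub, Rep.hom_comm_apply, hx₀]
      exact sub_self _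
    obtain ⟨y, hy⟩ := FGG_exact P _ h1
    have h2 := hz y
    have h3 : (qmap ℤ H).hom (s.hom ((P.complex.d 1 0).hom y)) = 0 := h2
    rw [hy, map_sub, map_sub, Rep.hom_comm_apply, Rep.hom_comm_apply] at h3
    exact sub_eq_zero.1 h3
  have hfin := FGG_fin H e hinv he0
  exact FGG_fg (T : Set G) T.finite_toSet hfin

end Pool.Agent.PDN
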