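import Pool.Agent.PD3.DerInj
import Pool.Agent.PDN.Split

/-!
# H1A: a nonzero class in `H^1(G; ℤ[G/N])` gives an almost invariant set in `G/N`

Let `z` be a cocycle representing `x`.  `N` acts trivially on `ℤ[G/N]` (`DerInj_triv`), so `z` restricted to
`N` is a homomorphism, zero as `N` is perfect (copy the argument of `der_inj`, or use it).  So
`z (g n) = z g` for `n ∈ N`.  Define `f : G/N → ℤ` by `f (g N) = z g⁻¹ (1 : G/N)` (well defined).  Then
`z g y = f (g⁻¹ y) - f y` for all `g`, `y = h N`: `f (g⁻¹ h N) = z (h⁻¹ g) 1 = (ρ h⁻¹ (z g)) 1 + z h⁻¹ 1`.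
So for each `g`, `f (g⁻¹ y) = f y` for all but finitely many `y`.  If `f` is equal to a constant `c` outside
a finite set then `f - c ∈ ℤ[G/N]` and `z g = ρ g (f - c) - (f - c)`, so `x = 0`.  So `split_set` gives `S`.
`A = {y | f y⁻¹ ∈ S}`.
-/

open CategoryTheory

namespace Pool.Agent.PDN

open Pool.Agent.PD3

variable {G : Type} [Group G]

theorem H1A_vanish (N : Subgroup G) (hn : N.Normal) (hperf : ⁅N, N⁆ = N)
    (z : G → ((G ⧸ N) →₀ ℤ))
    (hcoc' : ∀ g g' : G, z (g * g') = permRho ℤ ℤ (G ⧸ N) g (z g') + z g) :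
    ∀ n ∈ N, z n = 0 := by
  have hone : z 1 = 0 := by
    have h1 := hcoc' 1 1
    rw [mul_one, map_one, Module.End.one_apply] at h1
    exact left_eq_add.1 h1
  have hadd : ∀ g ∈ N, ∀ g' : G, z (g * g') = z g' + z g := by
    intro g hg g'
    rw [hcoc', DerInj_triv N hn g hg]
  have hinv : ∀ g ∈ N, z g⁻¹ = - z g := by
    intro g hg
    have h1 := hadd g hg g⁻¹
    rw [mul_inv_cancel, hone] at h1
    exact eq_neg_of_add_eq_zero_left h1.symm
  let K : Subgroup G :=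
    { carrier := {n | n ∈ N ∧ z n = 0}
      mul_mem' := by
        rintro a b ⟨ha, ha'⟩ ⟨hb, hb'⟩
        refine ⟨N.mul_mem ha hb, ?_⟩
        rw [hadd a ha b, ha', hb', add_zero]
      one_mem' := ⟨N.one_mem, hone⟩
      inv_mem' := by
        rintro a ⟨ha, ha'⟩
        refine ⟨N.inv_mem ha, ?_⟩
        rw [hinv a ha, ha', neg_zero] }
  have hK : ⁅N, N⁆ ≤ K := by
    rw [Subgroup.commutator_le]
    intro a ha b hb
    refine ⟨?_, ?_⟩
    · rw [commutatorElement_def]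
      exact N.mul_mem (N.mul_mem (N.mul_mem ha hb) (N.inv_mem ha)) (N.inv_mem hb)
    · rw [commutatorElement_def, hadd _ (N.mul_mem (N.mul_mem ha hb) (N.inv_mem ha)),
        hadd _ (N.mul_mem ha hb), hadd a ha b, hinv a ha, hinv b hb]
      abel
  exact fun n hnN => (hK (hperf.symm ▸ hnN)).2

theorem h1_set (N : Subgroup G) [hn : N.Normal] (hperf : ⁅N, N⁆ = N)
    (x : HH (perm (G := G) ℤ ℤ (G ⧸ N)) 1) (hx : x ≠ 0) :
    ∃ A : Set (G ⧸ N), (∀ s : G ⧸ N, {y | ¬ (y * s ∈ A ↔ y ∈ A)}.Finite) ∧ A.Infinite ∧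
      Aᶜ.Infinite := by
  induction x using groupCohomology.H1_induction_on with | h z => ?_
  have hcoc := (groupCohomology.mem_cocycles₁_iff (A := perm (G := G) ℤ ℤ (G ⧸ N)) z.1).1 z.2
  have hcoc' : ∀ g g' : G, (z (g * g') : (G ⧸ N) →₀ ℤ) =
      permRho ℤ ℤ (G ⧸ N) g (z g') + z g := fun g g' => hcoc g g'
  obtain ⟨w, hw⟩ : ∃ w : G → ((G ⧸ N) →₀ ℤ), w = fun g => z g := ⟨_, rfl⟩
  have hwc : ∀ g g' : G, w (g * g') = permRho ℤ ℤ (G ⧸ N) g (w g') + w g := by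
    rw [hw]
    exact hcoc'
  have hwN := H1A_vanish N hn hperf w hwc
  have hleft : ∀ n ∈ N, ∀ g, w (n * g) = w g := by
    intro n hnN g
    rw [hwc, DerInj_triv N hn n hnN, hwN n hnN, add_zero]
  -- the function `f`
  let f : G ⧸ N → ℤ := Quotient.lift (fun g : G => w g⁻¹ ((1 : G) : G ⧸ N)) (by
    intro a b hab
    have hab' : a⁻¹ * b ∈ N := QuotientGroup.leftRel_apply.1 hab
    show w a⁻¹ _ = w b⁻¹ _
    have : a⁻¹ = (a⁻¹ * b) * b⁻¹ := by group
    rw [this, hleft _ hab'])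
  have hf : ∀ g : G, f (g : G ⧸ N) = w g⁻¹ ((1 : G) : G ⧸ N) := fun g => rfl
  have hkey : ∀ (g : G) (y : G ⧸ N), w g y = f (g⁻¹ • y) - f y := by
    intro g y
    induction y using QuotientGroup.induction_on with | H h => ?_
    have h1 : (g⁻¹ • (h : G ⧸ N) : G ⧸ N) = ((g⁻¹ * h : G) : G ⧸ N) := rfl
    rw [h1, hf, hf]
    have h2 : (g⁻¹ * h)⁻¹ = h⁻¹ * g := by group
    rw [h2, hwc, Finsupp.add_apply, permRho_apply, inv_inv]
    have h3 : (h • ((1 : G) : G ⧸ N) : G ⧸ N) = (h : G ⧸ N) := by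
      show ((h * 1 : G) : G ⧸ N) = _
      rw [mul_one]
    rw [h3]
    ring
  have hfin : ∀ g : G, {y : G ⧸ N | f (g⁻¹ • y) ≠ f y}.Finite := by
    intro g
    refine (w g).support.finite_toSet.subset ?_
    intro y hy
    have hy' : f (g⁻¹ • y) ≠ f y := hy
    rw [Finset.mem_coe, Finsupp.mem_support_iff, hkey]
    exact sub_ne_zero.2 hy'
  have hconst : ∀ c : ℤ, {y | f y ≠ c}.Infinite := by
    intro c hc
    apply hx
    let m : (G ⧸ N) →₀ ℤ := Finsupp.ofSupportFinite (fun y => f y - c) (by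
      refine Set.Finite.subset hc ?_
      intro y hy
      have hy' : f y - c ≠ 0 := hy
      exact sub_ne_zero.1 hy')
    have hmy : ∀ y, m y = f y - c := fun y => rfl
    rw [groupCohomology.H1π_eq_zero_iff]
    refine ⟨m, funext fun g => ?_⟩
    show (permRho ℤ ℤ (G ⧸ N) g m - m : (G ⧸ N) →₀ ℤ) = z g
    have h4 : (z g : (G ⧸ N) →₀ ℤ) = w g := by rw [hw]
    refine Finsupp.ext fun y => ?_
    rw [h4, hkey g y, Finsupp.sub_apply, permRho_apply, hmy, hmy]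
    ring
  obtain ⟨S, hS1, hS2⟩ := split_set (G ⧸ N) f hconst
  refine ⟨{y | f y⁻¹ ∈ S}, ?_, ?_, ?_⟩
  · intro s
    induction s using QuotientGroup.induction_on with | H g => ?_
    have h5 : ((fun y : G ⧸ N => y⁻¹) ⁻¹' {y : G ⧸ N | f (g⁻¹ • y) ≠ f y}).Finite :=
      (hfin g).preimage (inv_injective.injOn)
    refine h5.subset ?_
    intro y hy
    have hy' : ¬ (f (y * (g : G ⧸ N))⁻¹ ∈ S ↔ f y⁻¹ ∈ S) := hy
    show f (g⁻¹ • y⁻¹) ≠ f y⁻¹
    intro h6
    apply hy'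
    have h7 : (y * (g : G ⧸ N))⁻¹ = g⁻¹ • y⁻¹ := by
      rw [mul_inv_rev]
      induction y using QuotientGroup.induction_on with | H h => ?_
      rfl
    rw [h7, h6]
  · intro hA
    apply hS1
    have : f ⁻¹' S = (fun y : G ⧸ N => y⁻¹) ⁻¹' {y | f y⁻¹ ∈ S} := by
      ext y
      simp
    rw [this]
    exact hA.preimage (inv_injective.injOn)
  · intro hA
    apply hS2
    have : (f ⁻¹' S)ᶜ = (fun y : G ⧸ N => y⁻¹) ⁻¹' {y | f y⁻¹ ∈ S}ᶜ := by
      ext y
      simp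
    rw [this]
    exact hA.preimage (inv_injective.injOn)

end Pool.Agent.PDN
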