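import Pool.Agent.PD3.Orient

/-!
# Orient2: the orientation subgroup

`g ↦ Hm (rt g) 3` is an action on `HH R 3 ≅ ℤ` by automorphisms, i.e. `d ↦ ± d` (see `orient`: the
character `χ : G →* ℤ`, its values are units of `ℤ`).  `W = {g | χ g = 1}` is the kernel of a homomorphism to
a group of order two.
-/

open CategoryTheory

namespace Pool.Agent.PDN

open Pool.Agent.PD3

variable {G : Type} [Group G]

theorem Orient2_aux {k D : Type} [CommRing k] [AddCommGroup D] [Module k D] (e : D ≃ₗ[k] k)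
    (f : D →ₗ[k] D) (h : e (f (e.symm 1)) = 1) (d : D) : f d = d := by
  rw [Orient_scalar e f d, h, one_smul]

theorem orient_sub (hG : IsPD3 G) : ∃ W : Subgroup G, W.index ≠ 0 ∧ (∀ g : G, g * g ∈ W) ∧
    ∀ g ∈ W, ∀ d : HH (Rep.leftRegular ℤ G) 3, Hm (rt ℤ g) 3 d = d := by
  obtain ⟨e⟩ := hG.toPDk.top
  let χ : G →* ℤ :=
    { toFun := fun g => e (Hm (rt ℤ g) 3 (e.symm 1))
      map_one' := Orient_one e (Hm (rt ℤ 1) 3) fun d => by
        have h1 : rt ℤ (1 : G) = 𝟙 (Rep.leftRegular ℤ G) := ev_id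
        rw [h1, Hm_id]
      map_mul' := fun g h => Orient_mul e (Hm (rt ℤ g) 3) (Hm (rt ℤ h) 3) (Hm (rt ℤ (g * h)) 3)
        fun d => by rw [rt_mul, Hm_comp] }
  refine ⟨χ.toHomUnits.ker, ?_, ?_, ?_⟩
  · rw [Subgroup.index_ker]
    exact Nat.card_pos.ne'
  · intro g
    rw [MonoidHom.mem_ker, map_mul, Int.units_mul_self]
  · intro g hg d
    have h3 : χ g = 1 := by
      rw [MonoidHom.mem_ker] at hg
      have := congrArg Units.val hg
      rwa [MonoidHom.coe_toHomUnits, Units.val_one] at this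
    exact Orient2_aux e (Hm (rt ℤ g) 3) h3 d

end Pool.Agent.PDN
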