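import Pool.Agent.PD3.Perm

/-!
# H0: invariants of permutation modules

`HH M 0` is the module of invariants (`groupCohomology.H0Iso`).  An invariant finitely supported function on
the transitive `G`-set `G ⧸ L` is constant, so it is `0` if `G ⧸ L` is infinite; if `G ⧸ L` is finite the
constant function `1` is a nonzero invariant.
-/

open CategoryTheory

namespace Pool.Agent.PDN

open Pool.Agent.PD3

variable {G : Type} [Group G]

/-- the isomorphism of `H^0` with the invariants -/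
noncomputable def H0_eq (M : Rep.{0} ℤ G) := (groupCohomology.H0Iso M).toLinearEquiv

theorem h0_zero (L : Subgroup G) (hL : L.index = 0) (c : HH (perm (G := G) ℤ ℤ (G ⧸ L)) 0) : c = 0 := by
  apply (H0_eq (perm (G := G) ℤ ℤ (G ⧸ L))).injective
  rw [map_zero]
  obtain ⟨v, hv⟩ := (H0_eq (perm (G := G) ℤ ℤ (G ⧸ L)) c)
  apply Subtype.ext
  show v = 0
  have hinf : Infinite (G ⧸ L) := by
    rw [Subgroup.index_eq_zero_iff_infinite] at hL
    exact hL
  set w : (G ⧸ L) →₀ ℤ := v with hw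
  have hinv : ∀ (g : G) (x : G ⧸ L), w (g⁻¹ • x) = w x := by
    intro g x
    have h1 : permRho (G := G) ℤ ℤ (G ⧸ L) g w = w := hv g
    have h2 := congrArg (fun f : (G ⧸ L) →₀ ℤ => f x) h1
    simp only [permRho_apply] at h2
    exact h2
  have hconst : ∀ x y : G ⧸ L, w x = w y := by
    intro x y
    obtain ⟨g, rfl⟩ := MulAction.exists_smul_eq G x y
    have := hinv g⁻¹ x
    rw [inv_inv] at this
    exact this.symm
  show w = 0
  ext x
  obtain ⟨y, hy⟩ := Infinite.exists_notMem_finset w.support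
  rw [hconst x y]
  simpa using hy

theorem h0_ne (L : Subgroup G) (hL : L.index ≠ 0) : ∃ c : HH (perm (G := G) ℤ ℤ (G ⧸ L)) 0, c ≠ 0 := by
  classical
  have : L.FiniteIndex := ⟨hL⟩
  have hfin : Finite (G ⧸ L) := Subgroup.finite_quotient_of_finiteIndex
  let w : (G ⧸ L) →₀ ℤ := Finsupp.ofSupportFinite (fun _ => (1 : ℤ)) (Set.toFinite _)
  have hw : w ∈ (perm (G := G) ℤ ℤ (G ⧸ L)).ρ.invariants := by
    intro g
    show permRho (G := G) ℤ ℤ (G ⧸ L) g w = w
    ext x
    rw [permRho_apply]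
    rfl
  refine ⟨(H0_eq (perm (G := G) ℤ ℤ (G ⧸ L))).symm ⟨w, hw⟩, ?_⟩
  intro h0
  have h1 := congrArg (H0_eq (perm (G := G) ℤ ℤ (G ⧸ L))) h0
  rw [LinearEquiv.apply_symm_apply, map_zero] at h1
  have h2 : w = 0 := congrArg Subtype.val h1
  have h3 := congrArg (fun f : (G ⧸ L) →₀ ℤ => f (QuotientGroup.mk 1)) h2
  have h4 : w (QuotientGroup.mk 1) = 1 := rfl
  simp only [h4] at h3
  exact one_ne_zero h3

end Pool.Agent.PDN
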