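import Pool.Agent.PDN.Rex
import Pool.Agent.PDN.H0
import Pool.Agent.PD3.Coset3
import Pool.Agent.PD3.High4

/-!
# TF: no finite cyclic extensions

`X = ℤ[G/L]`, `P = ℤ[G/N']`, `e = rm c - 1 : P → P`, `Y = kerRep (prj)`.
SES1: `trf : X → P`, `e' = kerLift prj e : P → Y` (`trf_inj`, `rex_exact`, `rex_trf`, `rex_fin`).
SES2: `kerInc prj : Y → P`, `prj : P → X` (`ses_ker`, `prj_surj`).
(1) `H^0(X) = 0` (`h0_zero`), `H^1(P) = 0` ⟹ `H^1(Y) = 0`        [les of SES2]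
(2) `H^1(Y) = 0`, `H^2(P) = 0` ⟹ `H^2(X) = 0`                     [les of SES1]
(3) `prj : H^3(P) → H^3(X)` is surjective (`high4`: `H^4(Y) = 0`), both groups are isomorphic to `ℤ`
    (`coset3` for `N'` and `L`), so it is injective (a surjective endomorphism of `ℤ` is injective:
    `OrzechProperty` / `IsNoetherian.injective_of_surjective_endomorphism`).  `H^3(Y) → H^3(P) → H^3(X)` is
    zero, so `H^3(Y) → H^3(P)` is zero; by (2) it is injective [les of SES2]; so `H^3(Y) = 0`.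
(4) les of SES1: `trf : H^3(X) → H^3(P)` is surjective; so `trf ≫ prj`, which is multiplication by
    `m = N'.relIndex L ≥ 2` (`trf_prj`, `Hm_nsmul`), is surjective on `H^3(X) ≅ ℤ`: contradiction.
(`coset3`, `high4` are stated for `IsPDk`: use `hG.toPDk`.)
-/

open CategoryTheory

namespace Pool.Agent.PDN

open Pool.Agent.PD3

variable {G : Type} [Group G]

theorem TF_inj {A B : Type} [AddCommGroup A] [Module ℤ A] [AddCommGroup B] [Module ℤ B]
    (φ : A ≃ₗ[ℤ] ℤ) (ψ : B ≃ₗ[ℤ] ℤ) (f : A →ₗ[ℤ] B) (hf : Function.Surjective f) :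
    Function.Injective f := by
  have h1 : Function.Surjective ((ψ.toLinearMap ∘ₗ f) ∘ₗ φ.symm.toLinearMap) := by
    intro n
    obtain ⟨a, ha⟩ := hf (ψ.symm n)
    refine ⟨φ a, ?_⟩
    show ψ (f (φ.symm (φ a))) = n
    rw [φ.symm_apply_apply, ha, ψ.apply_symm_apply]
  have h2 := OrzechProperty.injective_of_surjective_endomorphism _ h1
  intro a b hab
  have h3 : φ a = φ b := by
    apply h2
    show ψ (f (φ.symm (φ a))) = ψ (f (φ.symm (φ b)))
    rw [φ.symm_apply_apply, φ.symm_apply_apply, hab]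
  exact φ.injective h3

theorem TF_ses1 (N' L : Subgroup G) [N'.Normal] (c : G)
    (hL : L = N' ⊔ Subgroup.zpowers c) (hle : N' ≤ L) (hfin : N'.relIndex L ≠ 0) :
    SES (trf (G := G) ℤ ℤ hle hfin)
      (kerLift (prj (G := G) ℤ ℤ hle) (rm N' (c : G ⧸ N') - 𝟙 _) (rex_prj N' L c hL hle)) where
  inj := trf_inj hle hfin
  surj := by
    intro y
    obtain ⟨v, hv⟩ := rex_exact N' L c hL hle ((kerInc (prj (G := G) ℤ ℤ hle)).hom y)
      (kerInc_zero _ y)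
    refine ⟨v, ?_⟩
    apply kerInc_inj
    rw [kerLift_inc]
    exact hv
  zero := by
    intro a
    apply kerInc_inj
    rw [kerLift_inc, rex_trf N' L c hL hle hfin, map_zero]
  exact := by
    intro b hb
    apply rex_fin N' L c hL hle hfin
    have h := congrArg (fun y => (kerInc (prj (G := G) ℤ ℤ hle)).hom y) hb
    simp only [map_zero] at h
    rw [kerLift_inc] at h
    exact h

theorem tf (hG : IsPD3 G) (N' L : Subgroup G) [N'.Normal] (c : G)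
    (hL : L = N' ⊔ Subgroup.zpowers c) (hle : N' ≤ L) (hfin : N'.relIndex L ≠ 0)
    (hne : N'.relIndex L ≠ 1) (hinf : L.index = 0)
    (ht : ∀ l ∈ L, ∀ d : HH (Rep.leftRegular ℤ G) 3, Hm (rt ℤ l) 3 d = d)
    (h1 : ∀ x : HH (perm (G := G) ℤ ℤ (G ⧸ N')) 1, x = 0)
    (h2 : ∀ x : HH (perm (G := G) ℤ ℤ (G ⧸ N')) 2, x = 0) : False := by
  have hP := hG.toPDk
  have s1 := TF_ses1 N' L c hL hle hfin
  have s2 := ses_ker (prj (G := G) ℤ ℤ hle) (prj_surj hle)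
  -- (1)
  have hY1 : ∀ y : HH (kerRep (prj (G := G) ℤ ℤ hle)) 1, y = 0 := by
    intro y
    obtain ⟨δ, -, -, h3⟩ := s2.les 0
    obtain ⟨z, rfl⟩ := (h3 y).1 (h1 _)
    rw [h0_zero L hinf z, map_zero]
  -- (2)
  have hX2 : ∀ x : HH (perm (G := G) ℤ ℤ (G ⧸ L)) 2, x = 0 := by
    intro x
    obtain ⟨δ, -, -, h3⟩ := s1.les 1
    obtain ⟨z, rfl⟩ := (h3 x).1 (h2 _)
    rw [hY1 z, map_zero]
  -- (3)
  obtain ⟨φ⟩ := coset3 hP N' (fun l hl d => ht l (hle hl) d)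
  obtain ⟨ψ⟩ := coset3 hP L ht
  have hsurj : Function.Surjective (Hm (prj (G := G) ℤ ℤ hle) 3) := by
    intro x
    obtain ⟨δ, -, h3, -⟩ := s2.les 3
    exact (h3 x).1 (high4 hP _ 4 le_rfl _)
  have hinj := TF_inj φ ψ _ hsurj
  have hY3 : ∀ y : HH (kerRep (prj (G := G) ℤ ℤ hle)) 3, y = 0 := by
    intro y
    obtain ⟨δ, -, -, h3⟩ := s2.les 2
    have h4 : Hm (prj (G := G) ℤ ℤ hle) 3 (Hm (kerInc (prj (G := G) ℤ ℤ hle)) 3 y) = 0 :=
      (s2.mid 3 _).2 ⟨y, rfl⟩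
    have h5 : Hm (kerInc (prj (G := G) ℤ ℤ hle)) 3 y = 0 := by
      apply hinj
      rw [h4, map_zero]
    obtain ⟨z, rfl⟩ := (h3 y).1 h5
    rw [hX2 z, map_zero]
  -- (4)
  obtain ⟨p, hp⟩ := hsurj (ψ.symm 1)
  obtain ⟨x, hx⟩ := (s1.mid 3 p).1 (hY3 _)
  have h6 : Hm (trf (G := G) ℤ ℤ hle hfin ≫ prj ℤ ℤ hle) 3 x = ψ.symm 1 := by
    rw [Hm_comp, hx, hp]
  rw [trf_prj, Hm_nsmul, Hm_id] at h6
  have h7 := congrArg ψ h6
  rw [map_nsmul, ψ.apply_symm_apply, nsmul_eq_mul] at h7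
  have h8 : IsUnit ((N'.relIndex L : ℕ) : ℤ) := IsUnit.of_mul_eq_one _ h7
  rw [Int.isUnit_iff] at h8
  omega

end Pool.Agent.PDN
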