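import Pool.Agent.PD3.Main
import Pool.Agent.PD3.Coset2
import Pool.Agent.PDN.TF
import Pool.Agent.PDN.FGG
import Pool.Agent.PDN.H1A
import Pool.Agent.PDN.Ends
import Pool.Agent.PDN.Orient2

/-!
# Exist: existence of `t`

`exist_of_inf`: `q : G ⧸ N` of infinite order, `q = g N`, `t = g * g`: `t^k ∈ N` means `q^(2k) = 1`, so
`k = 0`; `t ∈ W` (`orient_sub`).  `N ⊔ zpowers t` has index zero: its image in `G ⧸ N` is
`zpowers (q * q) ≤ zpowers q`, and `(zpowers q).index = 0` (if `(N ⊔ zpowers t).index ≠ 0` then its image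
`zpowers (q^2)` has nonzero index (`Subgroup.index_map_ne_zero` or so), hence so has `zpowers q`).

`inf_elt`: `G ⧸ N` has an element of infinite order.  If `HH (ℤ[G/N]) 1` has a nonzero element: `h1_set`
and `ends_order` (`Group.FG (G ⧸ N)` from `fg_of_fp`).  Otherwise suppose all elements have finite order.
`W` of `orient_sub`: `N ≤ W` (`orient`), `N.index = 0`, `W.index ≠ 0`, so there is `c ∈ W`, `c ∉ N`.
`L = N ⊔ zpowers c`: `N.relIndex L` is the order of `c N` (finite, not one).  `L.index = 0` as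
`N.index = N.relIndex L * L.index`.  `L ≤ W`.  `coset2_perfect` gives `H^2(ℤ[G/N]) = 0`.  `tf`.
-/

open CategoryTheory

namespace Pool.Agent.PDN

open Pool.Agent.PD3

variable {G : Type} [Group G]

theorem Exist_comm_le (W : Subgroup G) (h : ∀ g : G, g * g ∈ W) (N : Subgroup G)
    (hN : ⁅N, N⁆ = N) : N ≤ W := by
  rw [← hN, Subgroup.commutator_le]
  intro a _ b _
  rw [commutatorElement_def]
  have h1 := h (a * b)
  have h2 := h (b⁻¹ * a⁻¹ * b)
  have h3 := h b⁻¹
  have h4 : a * b * a⁻¹ * b⁻¹ =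
      (a * b) * (a * b) * ((b⁻¹ * a⁻¹ * b) * (b⁻¹ * a⁻¹ * b)) * (b⁻¹ * b⁻¹) := by
    group
  rw [h4]
  exact W.mul_mem (W.mul_mem h1 h2) h3

theorem Exist_map (N : Subgroup G) [N.Normal] (c : G) :
    (N ⊔ Subgroup.zpowers c).map (QuotientGroup.mk' N) =
      Subgroup.zpowers (QuotientGroup.mk' N c) := by
  rw [Subgroup.map_sup, MonoidHom.map_zpowers]
  have h : N.map (QuotientGroup.mk' N) = ⊥ := by
    rw [Subgroup.map_eq_bot_iff, QuotientGroup.ker_mk']
  rw [h, bot_sup_eq]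

theorem Exist_rel (N : Subgroup G) [N.Normal] (c : G) :
    N.relIndex (N ⊔ Subgroup.zpowers c) = orderOf (QuotientGroup.mk' N c) := by
  have h := Subgroup.relIndex_ker (N ⊔ Subgroup.zpowers c) (QuotientGroup.mk' N)
  rw [QuotientGroup.ker_mk', Exist_map, Nat.card_zpowers] at h
  exact h

theorem inf_elt (N : Subgroup G) [N.Normal] (hS : Setup G N) :
    ∃ q : G ⧸ N, ∀ k : ℕ, 0 < k → q ^ k ≠ 1 := by
  by_cases h1 : ∀ x : HH (perm (G := G) ℤ ℤ (G ⧸ N)) 1, x = 0
  · by_contra hcon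
    push Not at hcon
    obtain ⟨W, hW, hsq, hWt⟩ := orient_sub hS.pd
    have hNW : N ≤ W := Exist_comm_le W hsq N hS.perf
    have hnot : ¬ W ≤ N := by
      intro hle
      apply hW
      have := Subgroup.index_dvd_of_le hle
      rwa [hS.inf, zero_dvd_iff] at this
    obtain ⟨c, hcW, hcN⟩ := SetLike.not_le_iff_exists.mp hnot
    have hord : IsOfFinOrder (QuotientGroup.mk' N c) := by
      obtain ⟨k, hk, hk1⟩ := hcon (QuotientGroup.mk' N c)
      exact isOfFinOrder_iff_pow_eq_one.mpr ⟨k, hk, hk1⟩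
    have hrel : N.relIndex (N ⊔ Subgroup.zpowers c) ≠ 0 := by
      rw [Exist_rel]
      exact (orderOf_pos_iff.mpr hord).ne'
    have hrel1 : N.relIndex (N ⊔ Subgroup.zpowers c) ≠ 1 := by
      rw [Exist_rel]
      intro h
      rw [orderOf_eq_one_iff] at h
      exact hcN ((QuotientGroup.eq_one_iff c).mp h)
    have hLW : N ⊔ Subgroup.zpowers c ≤ W := sup_le hNW (by
      rw [Subgroup.zpowers_le]
      exact hcW)
    have hinf : (N ⊔ Subgroup.zpowers c).index = 0 := by
      by_contra hne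
      have h := Subgroup.relIndex_mul_index (le_sup_left : N ≤ N ⊔ Subgroup.zpowers c)
      rw [hS.inf] at h
      exact (mul_ne_zero hrel hne) h
    exact tf hS.pd N _ c rfl le_sup_left hrel hrel1 hinf (fun l hl => hWt l (hLW hl)) h1
      (coset2_perfect hS.pd.toPDk N hS.perf)
  · push Not at h1
    obtain ⟨x, hx⟩ := h1
    obtain ⟨A, hA, hA1, hA2⟩ := h1_set N hS.perf x hx
    have hfg : Group.FG G := fg_of_fp hS.pd.fp
    exact ends_order (G ⧸ N) inferInstance A hA hA1 hA2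

theorem exist_of_inf (N : Subgroup G) [N.Normal] (hG : IsPD3 G) (q : G ⧸ N)
    (hq : ∀ k : ℕ, 0 < k → q ^ k ≠ 1) (hi : (Subgroup.zpowers q).index = 0) :
    ∃ t : G, (∀ k : ℤ, t ^ k ∈ N → k = 0) ∧ (N ⊔ Subgroup.zpowers t).index = 0 ∧
      ∀ d : HH (Rep.leftRegular ℤ G) 3, Hm (rt ℤ t) 3 d = d := by
  obtain ⟨g, rfl⟩ := QuotientGroup.mk'_surjective N q
  obtain ⟨W, hW, hsq, hWt⟩ := orient_sub hG
  refine ⟨g * g, ?_, ?_, hWt _ (hsq g)⟩
  · intro k hk
    have h1 : (QuotientGroup.mk' N g) ^ (2 * k) = 1 := by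
      have h2 : QuotientGroup.mk' N ((g * g) ^ k) = 1 := (QuotientGroup.eq_one_iff _).mpr hk
      rw [map_zpow, map_mul] at h2
      rw [zpow_mul, zpow_two]
      exact h2
    have hno : ¬ IsOfFinOrder (QuotientGroup.mk' N g) := by
      rw [isOfFinOrder_iff_pow_eq_one]
      rintro ⟨n, hn, hn1⟩
      exact hq n hn hn1
    have hinj := injective_zpow_iff_not_isOfFinOrder.mpr hno
    have h3 : (2 * k : ℤ) = 0 := hinj (by simpa using h1)
    omega
  · by_contra hne
    have h1 := Subgroup.index_map (N ⊔ Subgroup.zpowers (g * g)) (QuotientGroup.mk' N)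
    rw [QuotientGroup.ker_mk', sup_eq_left.mpr (le_sup_left : N ≤ N ⊔ Subgroup.zpowers (g * g)),
      Exist_map, QuotientGroup.range_mk', Subgroup.index_top, mul_one] at h1
    have h2 : Subgroup.zpowers (QuotientGroup.mk' N (g * g)) ≤
        Subgroup.zpowers (QuotientGroup.mk' N g) := by
      rw [Subgroup.zpowers_le, map_mul]
      exact Subgroup.mul_mem _ (Subgroup.mem_zpowers _) (Subgroup.mem_zpowers _)
    have h3 := Subgroup.index_dvd_of_le h2
    rw [h1, hi, zero_dvd_iff] at h3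
    exact hne h3

end Pool.Agent.PDN
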