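import Pool.Agent.PDN.Basic

/-!
# Fox: the augmentation ideal is generated by the `n_j - 1`

Closure induction: `w = n_j`: `l = Pi.single j 1`; `1`: `0`; `w w' - 1 = (w - 1) w' + (w' - 1)`;
`w⁻¹ - 1 = - (w - 1) w⁻¹`.  Supports: products of elements of `N` (`MonoidAlgebra` support of `x * u g`:
`coeff_mul_u`).
-/

namespace Pool.Agent.PDN

variable {G : Type} [Group G]

theorem Fox_supp (N : Subgroup G) (x : RR G) (g : G) (hg : g ∈ N)
    (hx : ∀ z, x.coeff z ≠ 0 → z ∈ N) : ∀ z, (x * u g).coeff z ≠ 0 → z ∈ N := by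
  intro z hz
  rw [coeff_mul_u] at hz
  have h2 := N.mul_mem (hx _ hz) hg
  rwa [inv_mul_cancel_right] at h2

theorem fox {ι : Type} [Fintype ι] [DecidableEq ι] (n : ι → G) (N : Subgroup G)
    (hN : Subgroup.closure (Set.range n) = N) (w : G) (hw : w ∈ N) :
    ∃ l : ι → RR G, (∀ j g, (l j).coeff g ≠ 0 → g ∈ N) ∧
      u w - 1 = ∑ j, (u (n j) - 1) * l j := by
  classical
  subst hN
  induction hw using Subgroup.closure_induction with
  | mem x hx =>
    obtain ⟨j, rfl⟩ := hx
    refine ⟨fun i => if i = j then 1 else 0, ?_, ?_⟩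
    · intro i g hg
      beta_reduce at hg
      by_cases h : i = j
      · rw [if_pos h] at hg
        have h1 : (1 : RR G) = MonoidAlgebra.single 1 1 := rfl
        rw [h1, MonoidAlgebra.coeff_single, Finsupp.single_apply] at hg
        by_cases hg1 : (1 : G) = g
        · rw [← hg1]
          exact Subgroup.one_mem _
        · rw [if_neg hg1] at hg
          exact absurd rfl hg
      · rw [if_neg h] at hg
        exact absurd rfl hg
    · rw [Finset.sum_eq_single j]
      · beta_reduce
        rw [if_pos rfl, mul_one]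
      · intro b _ hb
        beta_reduce
        rw [if_neg hb, mul_zero]
      · intro h
        exact absurd (Finset.mem_univ j) h
  | one =>
    refine ⟨fun _ => 0, ?_, ?_⟩
    · intro j g hg
      exact absurd rfl hg
    · rw [u_one, sub_self]
      symm
      apply Finset.sum_eq_zero
      intro j _
      exact mul_zero _
  | mul x y hx hy ihx ihy =>
    obtain ⟨l, hl1, hl2⟩ := ihx
    obtain ⟨l', hl1', hl2'⟩ := ihy
    refine ⟨fun j => l j * u y + l' j, ?_, ?_⟩
    · intro j g hg
      beta_reduce at hg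
      rw [MonoidAlgebra.coeff_add, Finsupp.add_apply] at hg
      by_cases h1 : (l j * u y).coeff g = 0
      · rw [h1, zero_add] at hg
        exact hl1' j g hg
      · exact Fox_supp _ (l j) y hy (hl1 j) g h1
    · have h1 : u (x * y) - 1 = (u x - 1) * u y + (u y - 1) := by
        rw [u_mul, sub_mul, one_mul]
        abel
      rw [h1, hl2, hl2', Finset.sum_mul, ← Finset.sum_add_distrib]
      apply Finset.sum_congr rfl
      intro j _
      rw [mul_add, mul_assoc]
  | inv x hx ih =>
    obtain ⟨l, hl1, hl2⟩ := ih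
    refine ⟨fun j => l j * (-u x⁻¹), ?_, ?_⟩
    · intro j g hg
      beta_reduce at hg
      rw [mul_neg] at hg
      rw [MonoidAlgebra.coeff_neg, Finsupp.neg_apply, neg_ne_zero] at hg
      exact Fox_supp _ (l j) x⁻¹ (Subgroup.inv_mem _ hx) (hl1 j) g hg
    · have h1 : u x⁻¹ - 1 = (u x - 1) * (-u x⁻¹) := by
        rw [mul_neg, sub_mul, u_mul_inv, one_mul]
        abel
      rw [h1, hl2, Finset.sum_mul]
      apply Finset.sum_congr rfl
      intro j _
      rw [mul_assoc]

end Pool.Agent.PDN
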