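import Pool.Agent.PDN.Dat
import Pool.Agent.PDN.Deg
import Pool.Agent.PDN.Fox

/-!
# MkDat: existence of the data
-/

namespace Pool.Agent.PDN

variable {G : Type} [Group G]

theorem mk_dat (N : Subgroup G) (hn : N.Normal) (hfg : N.FG) (t : G)
    (ht : ∀ k : ℤ, t ^ k ∈ N → k = 0) : ∃ D : Dat G, D.N = N ∧ D.t = t := by
  classical
  obtain ⟨dg, h1, h2⟩ := exists_deg N hn t ht
  obtain ⟨S, hS⟩ := hfg
  have hcl : Subgroup.closure (Set.range fun s : S => (s : G)) = N := by
    rw [Subtype.range_coe_subtype]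
    exact hS
  have hf : ∀ s : S, ∃ l : S → RR G, (∀ j g, (l j).coeff g ≠ 0 → g ∈ N) ∧
      u (t⁻¹ * (s : G) * t) - 1 = ∑ j : S, (u (j : G) - 1) * l j := by
    intro s
    apply fox (fun s : S => (s : G)) N hcl
    have hs : (s : G) ∈ N := by
      rw [← hS]
      exact Subgroup.subset_closure s.2
    have := hn.conj_mem _ hs t⁻¹
    rwa [inv_inv] at this
  choose l hl1 hl2 using hf
  exact ⟨{ N := N, nrm := hn, ι := S, fi := inferInstance, de := inferInstance,
           n := fun s => s, t := t, dg := dg, Lam := fun j i => l i j, cl := hcl, dgN := h1,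
           dgt := h2, LamN := fun j i g hg => hl1 i j g hg, LamE := fun i => hl2 i }, rfl, rfl⟩

end Pool.Agent.PDN
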