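import Mathlib

/-!
# Perf: `H_1(N; ℤ) = 0` implies `N` perfect

`groupHomology.H1AddEquivOfIsTrivial`: `H_1(N; ℤ) ≃ N^ab ⊗ ℤ ≃ N^ab`.  So the abelianization is trivial,
`commutator N = ⊤`, and `⁅N, N⁆ = N` in `G` (`Subgroup.map_commutator` with `N.subtype`).
-/

open CategoryTheory

namespace Pool.Agent.PDN

theorem perf_of_h1 {G : Type} [Group G] (N : Subgroup G)
    (h : Subsingleton (groupHomology (Rep.trivial ℤ N ℤ) 1)) : ⁅N, N⁆ = N := by
  have e1 : (TensorProduct ℤ (Additive (Abelianization N)) (Rep.trivial ℤ N ℤ)) ≃+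
      groupHomology (Rep.trivial ℤ N ℤ) 1 :=
    (groupHomology.H1AddEquivOfIsTrivial (Rep.trivial ℤ N ℤ)).symm
  have e2 : (TensorProduct ℤ (Additive (Abelianization N)) ℤ) ≃ₗ[ℤ] Additive (Abelianization N) :=
    TensorProduct.rid ℤ _
  have hs : Subsingleton (TensorProduct ℤ (Additive (Abelianization N)) ℤ) :=
    e1.toEquiv.subsingleton
  have hab : Subsingleton (Additive (Abelianization N)) := e2.symm.toEquiv.subsingleton
  have hc : commutator N = ⊤ := by
    rw [eq_top_iff]
    intro x _
    have : Abelianization.of x = 1 := by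
      have := hab.elim (Additive.ofMul (Abelianization.of x)) 0
      exact this
    rwa [← MonoidHom.mem_ker, Abelianization.ker_of] at this
  have h2 : (commutator N).map N.subtype = ⁅N, N⁆ := by
    rw [commutator_def, Subgroup.map_commutator, ← MonoidHom.range_eq_map, Subgroup.range_subtype]
  rw [← h2, hc, ← MonoidHom.range_eq_map, Subgroup.range_subtype]

end Pool.Agent.PDN
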