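import Pool.Agent.PDN.HomA
import Pool.Agent.PDN.Eps

/-!
# RelMod: `H_2(Γ; ℤ) = 0` implies `K ∩ I^ι = I K` (for `N = ⊤`)

`ε : ℤ[Γ] → ℤ` = `ev (Rep.trivial ℤ Γ ℤ) 1` is surjective; `I = kerRep ε`, `SES (kerInc ε) ε`.
`hles 1`: `H_2(ℤ) = 0 → H_1(I) → H_1(ℤ[Γ]) = 0` (`h1_free`), so `H_1(I) = 0`.
`φ : ℤ[Γ]^ι → I`, `v ↦ ∑ v_j (n_j - 1)` (`kerLift` of the map `piRep Γ ι → leftRegular` given by
`∑ j, prj' j ≫ rmul (u (n j) - 1)` or `matHom`-like) is surjective since the `n_j` generate `Γ`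
(`fox`-like: every `g - 1` is `∑ l_j (n_j - 1)`; use closure induction on `g`; `I` is spanned by `g - 1`).
`K = kerRep φ`, `SES (kerInc φ) φ`; `hles 0`: `H_1(I) = 0 → H_0(K) → H_0(ℤ[Γ]^ι)` injective.
A relation `v` with `eps (v_j) = 0` has `c0 v = 0` in `H_0(ℤ[Γ]^ι)`: `v` is a sum of elements
`Pi.single j (g - 1) * n = ρ g (single j n) - single j n` (an element of `ℤ[Γ]` of augmentation zero is
`∑ a_g (g - 1)`).  So `c0 v = 0` in `H_0(K)`, `c0_ker`.
-/

open CategoryTheory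

namespace Pool.Agent.PDN

open Pool.Agent.PD3

section

variable {Γ : Type} [Group Γ]

/-- the augmentation as a morphism -/
noncomputable def RelMod_aug (Γ : Type) [Group Γ] :
    Rep.leftRegular ℤ Γ ⟶ Rep.trivial ℤ Γ ℤ :=
  homOfLin (M := Rep.leftRegular ℤ Γ) (N := Rep.trivial ℤ Γ ℤ)
    { toFun := fun (c : RR Γ) => eps c
      map_add' := fun x y => map_add eps x y
      map_smul' := fun m x => map_smul eps m x } (by
    intro g m
    show eps ((Rep.leftRegular ℤ Γ).ρ g m : RR Γ) = eps (m : RR Γ)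
    rw [lr_rho', map_mul, eps_single, one_mul])

theorem RelMod_aug_apply (c : RR Γ) : (RelMod_aug Γ).hom c = eps c := rfl

theorem RelMod_aug_surj : Function.Surjective (RelMod_aug Γ).hom := by
  intro z
  refine ⟨(MonoidAlgebra.single (1 : Γ) (z : ℤ) : RR Γ), ?_⟩
  rw [RelMod_aug_apply, eps_single]

theorem RelMod_eps_sub (g : Γ) : eps (u g - 1 : RR Γ) = 0 := by
  rw [map_sub, map_one, eps_single, sub_self]

theorem RelMod_h1I (h2 : ∀ x : hh (Rep.trivial ℤ Γ ℤ) 2, x = 0)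
    (x : hh (kerRep (RelMod_aug Γ)) 1) : x = 0 := by
  obtain ⟨δ, -, hδ⟩ := hles (ses_ker (RelMod_aug Γ) RelMod_aug_surj) 1
  obtain ⟨y, hy⟩ := (hδ x).1 (h1_free _)
  rw [← hy, h2 y, map_zero]

variable {ι : Type} [Fintype ι]

/-- `v ↦ ∑ v_j (n_j - 1)` -/
noncomputable def RelMod_phi0 (n : ι → Γ) : piRep Γ ι ⟶ Rep.leftRegular ℤ Γ :=
  homOfLin (M := piRep Γ ι) (N := Rep.leftRegular ℤ Γ)
    { toFun := fun (v : ι → RR Γ) => ∑ j, v j * (u (n j) - 1)
      map_add' := fun x y => by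
        show ∑ j, (x j + y j) * (u (n j) - 1) =
          ∑ j, x j * (u (n j) - 1) + ∑ j, y j * (u (n j) - 1)
        rw [← Finset.sum_add_distrib]
        exact Finset.sum_congr rfl fun j _ => add_mul _ _ _
      map_smul' := fun m x => by
        show ∑ j, (m • x j) * (u (n j) - 1) = m • ∑ j, x j * (u (n j) - 1)
        rw [Finset.smul_sum]
        exact Finset.sum_congr rfl fun j _ => smul_mul_assoc _ _ _ } (by
    intro g m
    show ∑ j, (u g * (m : ι → RR Γ) j) * (u (n j) - 1) =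
      (Rep.leftRegular ℤ Γ).ρ g (∑ j, (m : ι → RR Γ) j * (u (n j) - 1))
    rw [lr_rho', Finset.mul_sum]
    exact Finset.sum_congr rfl fun j _ => mul_assoc _ _ _)

theorem RelMod_phi0_apply (n : ι → Γ) (v : ι → RR Γ) :
    (RelMod_phi0 n).hom v = ∑ j, v j * (u (n j) - 1) := rfl

theorem RelMod_phi0_aug (n : ι → Γ) (v : (piRep Γ ι).V) :
    (RelMod_aug Γ).hom ((RelMod_phi0 n).hom v) = 0 := by
  show eps (∑ j, (v : ι → RR Γ) j * (u (n j) - 1)) = 0
  rw [map_sum]
  apply Finset.sum_eq_zero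
  intro j _
  rw [map_mul, RelMod_eps_sub, mul_zero]

/-- the map onto the augmentation ideal -/
noncomputable def RelMod_phi (n : ι → Γ) : piRep Γ ι ⟶ kerRep (RelMod_aug Γ) :=
  kerLift (RelMod_aug Γ) (RelMod_phi0 n) (RelMod_phi0_aug n)

theorem RelMod_gen [DecidableEq ι] (n : ι → Γ) (hn : Subgroup.closure (Set.range n) = ⊤)
    (g : Γ) : ∃ v : ι → RR Γ, (u g - 1 : RR Γ) = ∑ j, v j * (u (n j) - 1) := by
  have hg : g ∈ Subgroup.closure (Set.range n) := by rw [hn]; trivial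
  induction hg using Subgroup.closure_induction with
  | mem x hx =>
    obtain ⟨i, rfl⟩ := hx
    refine ⟨Pi.single i 1, ?_⟩
    rw [Finset.sum_eq_single i]
    · rw [Pi.single_eq_same, one_mul]
    · intro j _ hj
      rw [Pi.single_eq_of_ne hj, zero_mul]
    · intro h; exact absurd (Finset.mem_univ i) h
  | one =>
    refine ⟨0, ?_⟩
    rw [u_one, sub_self]
    symm
    apply Finset.sum_eq_zero
    intro j _
    rw [Pi.zero_apply, zero_mul]
  | mul x y _ _ hx hy =>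
    obtain ⟨v, hv⟩ := hx
    obtain ⟨w, hw⟩ := hy
    refine ⟨fun j => u x * w j + v j, ?_⟩
    have : (u (x * y) - 1 : RR Γ) = u x * (u y - 1) + (u x - 1) := by
      rw [u_mul, mul_sub, mul_one]; abel
    rw [this, hv, hw, Finset.mul_sum, ← Finset.sum_add_distrib]
    exact Finset.sum_congr rfl fun j _ => by rw [add_mul, mul_assoc]
  | inv x _ hx =>
    obtain ⟨v, hv⟩ := hx
    refine ⟨fun j => - (u x⁻¹ * v j), ?_⟩
    have : (u x⁻¹ - 1 : RR Γ) = - (u x⁻¹ * (u x - 1)) := by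
      rw [mul_sub, u_inv_mul, mul_one]; abel
    rw [this, hv, Finset.mul_sum, ← Finset.sum_neg_distrib]
    exact Finset.sum_congr rfl fun j _ => by rw [neg_mul, mul_assoc]

theorem RelMod_gen' [DecidableEq ι] (n : ι → Γ) (hn : Subgroup.closure (Set.range n) = ⊤)
    (x : RR Γ) : ∃ v : ι → RR Γ, x - algebraMap ℤ (RR Γ) (eps x) = ∑ j, v j * (u (n j) - 1) := by
  induction x using RR_induction with
  | h0 =>
    refine ⟨0, ?_⟩
    simp
  | hadd x y hx hy =>
    obtain ⟨v, hv⟩ := hx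
    obtain ⟨w, hw⟩ := hy
    refine ⟨fun j => v j + w j, ?_⟩
    have : x + y - algebraMap ℤ (RR Γ) (eps (x + y)) =
        (x - algebraMap ℤ (RR Γ) (eps x)) + (y - algebraMap ℤ (RR Γ) (eps y)) := by
      rw [map_add, map_add]; abel
    rw [this, hv, hw, ← Finset.sum_add_distrib]
    exact Finset.sum_congr rfl fun j _ => (add_mul _ _ _).symm
  | hneg x hx =>
    obtain ⟨v, hv⟩ := hx
    refine ⟨fun j => - v j, ?_⟩
    have : -x - algebraMap ℤ (RR Γ) (eps (-x)) = - (x - algebraMap ℤ (RR Γ) (eps x)) := by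
      rw [map_neg, map_neg]; abel
    rw [this, hv, ← Finset.sum_neg_distrib]
    exact Finset.sum_congr rfl fun j _ => (neg_mul _ _).symm
  | hu g =>
    obtain ⟨v, hv⟩ := RelMod_gen n hn g
    refine ⟨v, ?_⟩
    rw [← hv, eps_single, map_one]

theorem RelMod_phi_surj [DecidableEq ι] (n : ι → Γ)
    (hn : Subgroup.closure (Set.range n) = ⊤) : Function.Surjective (RelMod_phi n).hom := by
  rintro ⟨x, hx⟩
  have hx' : eps (x : RR Γ) = 0 := hx
  obtain ⟨v, hv⟩ := RelMod_gen' n hn x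
  rw [hx', map_zero, sub_zero] at hv
  exact ⟨v, Subtype.ext hv.symm⟩

theorem RelMod_c0 [DecidableEq ι] (j : ι) (y : RR Γ) :
    c0 (piRep Γ ι) (Pi.single j (y - algebraMap ℤ (RR Γ) (eps y)) : ι → RR Γ) = 0 := by
  induction y using RR_induction with
  | h0 =>
    have : (Pi.single j ((0 : RR Γ) - algebraMap ℤ (RR Γ) (eps (0 : RR Γ))) : ι → RR Γ) = 0 := by
      rw [map_zero, map_zero, sub_zero, Pi.single_zero]
    rw [this]
    exact map_zero (c0 (piRep Γ ι))
  | hadd x y hx hy =>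
    have : (Pi.single j (x + y - algebraMap ℤ (RR Γ) (eps (x + y))) : ι → RR Γ) =
        Pi.single j (x - algebraMap ℤ (RR Γ) (eps x)) +
        Pi.single j (y - algebraMap ℤ (RR Γ) (eps y)) := by
      rw [← Pi.single_add, map_add, map_add]
      congr 1
      abel
    rw [this]
    refine (map_add (c0 (piRep Γ ι)) _ _).trans ?_
    rw [hx, hy, add_zero]
  | hneg x hx =>
    have : (Pi.single j (-x - algebraMap ℤ (RR Γ) (eps (-x))) : ι → RR Γ) =
        - Pi.single j (x - algebraMap ℤ (RR Γ) (eps x)) := by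
      rw [← Pi.single_neg, map_neg, map_neg]
      congr 1
      abel
    rw [this]
    refine (map_neg (c0 (piRep Γ ι)) _).trans ?_
    rw [hx, neg_zero]
  | hu g =>
    have : (Pi.single j (u g - algebraMap ℤ (RR Γ) (eps (u g))) : ι → RR Γ) =
        Pi.single j (u g) - Pi.single j 1 := by
      rw [← Pi.single_sub, eps_single, map_one]
    rw [this]
    refine (map_sub (c0 (piRep Γ ι)) _ _).trans ?_
    rw [sub_eq_zero]
    have h2 : (Pi.single j (u g) : ι → RR Γ) =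
        (piRep Γ ι).ρ g (Pi.single j 1 : ι → RR Γ) := by
      funext i
      show (Pi.single j (u g) : ι → RR Γ) i = u g * (Pi.single j 1 : ι → RR Γ) i
      by_cases h : i = j
      · subst h
        rw [Pi.single_eq_same, Pi.single_eq_same, mul_one]
      · rw [Pi.single_eq_of_ne h, Pi.single_eq_of_ne h, mul_zero]
    rw [h2]
    exact c0_rho (piRep Γ ι) g _

theorem RelMod_c0_zero [DecidableEq ι] (v : ι → RR Γ) (hv : ∀ j, eps (v j) = 0) :
    c0 (piRep Γ ι) v = 0 := by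
  have h : v = ∑ j, (Pi.single j (v j) : ι → RR Γ) := (Finset.univ_sum_single v).symm
  have h2 : c0 (piRep Γ ι) (∑ j, (Pi.single j (v j) : ι → RR Γ)) =
      ∑ j, c0 (piRep Γ ι) (Pi.single j (v j) : ι → RR Γ) :=
    map_sum (c0 (piRep Γ ι)) (fun j => (Pi.single j (v j) : ι → RR Γ)) Finset.univ
  rw [h, h2]
  apply Finset.sum_eq_zero
  intro j _
  have h3 := RelMod_c0 (Γ := Γ) j (v j)
  rwa [hv, map_zero, sub_zero] at h3

end

theorem rel_top {Γ : Type} [Group Γ] {ι : Type} [Fintype ι] [DecidableEq ι] (n : ι → Γ)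
    (hn : Subgroup.closure (Set.range n) = ⊤) (h2 : ∀ x : hh (Rep.trivial ℤ Γ ℤ) 2, x = 0) :
    RelProp (⊤ : Subgroup Γ) n := by
  intro v _ hrel heps
  obtain ⟨δ, -, hδ⟩ := hles (ses_ker (RelMod_phi n) (RelMod_phi_surj n hn)) 0
  have hinj : ∀ x : hh (kerRep (RelMod_phi n)) 0, hm (kerInc (RelMod_phi n)) 0 x = 0 → x = 0 := by
    intro x hx
    obtain ⟨y, hy⟩ := (hδ x).1 hx
    rw [← hy, RelMod_h1I h2 y, map_zero]
  have hvK : (RelMod_phi n).hom v = 0 := Subtype.ext hrel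
  let κ : (kerRep (RelMod_phi n)).V := ⟨v, hvK⟩
  have hκ : c0 (kerRep (RelMod_phi n)) κ = 0 := by
    apply hinj
    rw [c0_nat]
    exact RelMod_c0_zero v heps
  have hspan := c0_ker (kerRep (RelMod_phi n)) κ hκ
  -- push the span to `ι → RR Γ`
  let S : AddSubgroup (ι → RR Γ) := AddSubgroup.closure {z : ι → RR Γ |
      ∃ m ∈ (⊤ : Subgroup Γ), ∃ v' : ι → RR Γ,
      (∀ j, SuppIn (⊤ : Subgroup Γ) (v' j)) ∧ IsRel n v' ∧ z = fun j => u m * v' j - v' j}
  have key : ∀ y : (kerRep (RelMod_phi n)).V,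
      y ∈ Submodule.span ℤ {z : (kerRep (RelMod_phi n)).V |
        ∃ (g : Γ) (x : (kerRep (RelMod_phi n)).V), z = (kerRep (RelMod_phi n)).ρ g x - x} →
      (y.1 : ι → RR Γ) ∈ S := by
    intro y hy
    induction hy using Submodule.span_induction with
    | mem z hz =>
      obtain ⟨g, x, rfl⟩ := hz
      apply AddSubgroup.subset_closure
      refine ⟨g, trivial, x.1, fun _ _ _ => trivial, ?_, ?_⟩
      · have h3 : (RelMod_phi n).hom x.1 = 0 := x.2
        exact congrArg Subtype.val h3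
      · rfl
    | zero => exact S.zero_mem
    | add a b _ _ ha hb => exact S.add_mem ha hb
    | smul m a _ ha => exact S.zsmul_mem ha m
  exact key κ hspan

end Pool.Agent.PDN
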