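import Pool.Agent.PDN.Eps

/-!
# RelTr: transfer of `RelProp` from the group `N` to the subgroup `N` of `G`

`MonoidAlgebra.mapDomain N.subtype` (or `MonoidAlgebra.mapDomainRingHom`) is an injective ring
homomorphism `ℤ[N] → ℤ[G]` with image the elements supported in `N`, compatible with `u`, `eps`.
-/

open CategoryTheory

namespace Pool.Agent.PDN

open Pool.Agent.PD3

variable {G : Type} [Group G]

/-- the inclusion of group rings -/
noncomputable def relTrF (N : Subgroup G) : RR N →+* RR G :=
  MonoidAlgebra.mapDomainRingHom ℤ N.subtype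

theorem relTr_inj (N : Subgroup G) : Function.Injective (relTrF N) :=
  MonoidAlgebra.mapDomain_injective N.subtype_injective

theorem relTr_u (N : Subgroup G) (m : N) : relTrF N (u m) = u (m : G) := by
  show MonoidAlgebra.mapDomain N.subtype (MonoidAlgebra.single m (1 : ℤ)) = _
  rw [MonoidAlgebra.mapDomain_single]
  rfl

theorem relTr_lift (N : Subgroup G) (c : RR G) (hc : SuppIn N c) : ∃ c' : RR N, relTrF N c' = c := by
  refine ⟨MonoidAlgebra.comapDomain N.subtype N.subtype_injective c, ?_⟩
  refine MonoidAlgebra.mapDomain_comapDomain ?_ _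
  intro g hg
  have : c.coeff g ≠ 0 := by simpa using hg
  exact ⟨⟨g, hc g this⟩, rfl⟩

theorem relTr_supp (N : Subgroup G) (c : RR N) : SuppIn N (relTrF N c) := by
  intro g hg
  by_contra hn
  apply hg
  show (MonoidAlgebra.mapDomain N.subtype c).coeff g = 0
  show (Finsupp.mapDomain N.subtype c.coeff) g = 0
  apply Finsupp.mapDomain_of_notMem_range
  rintro ⟨x, hx⟩
  apply hn
  rw [← hx]
  exact x.2

theorem relTr_eps (N : Subgroup G) (c : RR N) : eps (relTrF N c) = eps c := by
  induction c using RR_induction with
  | h0 => simp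
  | hadd x y hx hy => rw [map_add, map_add, map_add, hx, hy]
  | hneg x hx => rw [map_neg, map_neg, map_neg, hx]
  | hu g => rw [relTr_u, eps_single, eps_single]

theorem rel_tr (N : Subgroup G) {ι : Type} [Fintype ι] (n : ι → N)
    (h : RelProp (⊤ : Subgroup N) n) : RelProp N (fun j => (n j : G)) := by
  intro v hsupp hrel heps
  choose v' hv' using fun j => relTr_lift N (v j) (hsupp j)
  have key : ∀ w : ι → RR N, IsRel n w ↔ IsRel (fun j => (n j : G)) (fun j => relTrF N (w j)) := by
    intro w
    unfold IsRel
    have : relTrF N (∑ j, w j * (u (n j) - 1)) = ∑ j, relTrF N (w j) * (u (n j : G) - 1) := by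
      rw [map_sum]
      refine Finset.sum_congr rfl fun j _ => ?_
      rw [map_mul, map_sub, map_one, relTr_u]
    rw [← this]
    constructor
    · intro hw
      rw [hw, map_zero]
    · intro hw
      apply relTr_inj N
      rw [hw, map_zero]
  have hv : v = fun j => relTrF N (v' j) := by
    funext j
    exact (hv' j).symm
  have h1 := h v' (fun j g _ => Subgroup.mem_top g) ((key v').2 (by rw [← hv]; exact hrel))
    (fun j => by rw [← relTr_eps, hv' j]; exact heps j)
  let F : (ι → RR N) →+ (ι → RR G) :=
    { toFun := fun w j => relTrF N (w j)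
      map_zero' := by funext j; exact map_zero _
      map_add' := fun x y => by funext j; exact map_add _ _ _ }
  have h2 : F v' ∈ AddSubgroup.closure {z : ι → RR G | ∃ m ∈ N, ∃ v' : ι → RR G,
      (∀ j, SuppIn N (v' j)) ∧ IsRel (fun j => (n j : G)) v' ∧ z = fun j => u m * v' j - v' j} := by
    refine AddSubgroup.closure_induction (p := fun w _ => F w ∈ AddSubgroup.closure
      {z : ι → RR G | ∃ m ∈ N, ∃ v' : ι → RR G,
      (∀ j, SuppIn N (v' j)) ∧ IsRel (fun j => (n j : G)) v' ∧ z = fun j => u m * v' j - v' j})
      ?_ ?_ ?_ ?_ h1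
    · rintro z ⟨m, _, w, _, hw, rfl⟩
      apply AddSubgroup.subset_closure
      refine ⟨m, m.2, fun j => relTrF N (w j), fun j => relTr_supp N _, (key w).1 hw, ?_⟩
      funext j
      show relTrF N (u m * w j - w j) = _
      rw [map_sub, map_mul, relTr_u]
    · rw [map_zero]; exact zero_mem _
    · intro x y _ _ hx hy
      rw [map_add]; exact add_mem hx hy
    · intro x _ hx
      rw [map_neg]; exact neg_mem hx
  rw [hv]
  exact h2

end Pool.Agent.PDN
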