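import Pool.Agent.PD3.Main

/-!
# Setup0: consequences of `main` (no proper subgroup of finite index in `N`)

If `N` is finite then `⊥ : Subgroup N` has finite index, so `⊥ = ⊤` and `N` is trivial.
If `zpowers h` (`h : N`) has nonzero index, then `zpowers h = ⊤`, `N` is commutative, and perfect, so trivial.
-/

namespace Pool.Agent.PDN

open Pool.Agent.PD3

variable {G : Type} [Group G]

theorem inf_N (N : Subgroup G) (hS : Setup G N) (hne : N ≠ ⊥) : Infinite N := by
  by_contra hinf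
  have hfin : Finite N := not_infinite_iff_finite.1 hinf
  have h1 : (⊥ : Subgroup N) = ⊤ := main hS ⊥ Subgroup.index_ne_zero_of_finite
  apply hne
  rw [Subgroup.eq_bot_iff_forall]
  intro x hx
  have h2 : (⟨x, hx⟩ : N) ∈ (⊥ : Subgroup N) := by
    rw [h1]
    exact Subgroup.mem_top _
  exact congrArg Subtype.val (Subgroup.mem_bot.1 h2)

theorem zp_N (N : Subgroup G) (hS : Setup G N) (hne : N ≠ ⊥) (h : N) :
    (Subgroup.zpowers h).index = 0 := by
  by_contra h0
  have h1 : Subgroup.zpowers h = ⊤ := main hS _ h0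
  apply hne
  rw [eq_bot_iff, ← hS.perf, Subgroup.commutator_le]
  intro a ha b hb
  have ha' : (⟨a, ha⟩ : N) ∈ Subgroup.zpowers h := by
    rw [h1]
    exact Subgroup.mem_top _
  have hb' : (⟨b, hb⟩ : N) ∈ Subgroup.zpowers h := by
    rw [h1]
    exact Subgroup.mem_top _
  obtain ⟨i, hi⟩ := Subgroup.mem_zpowers_iff.1 ha'
  obtain ⟨j, hj⟩ := Subgroup.mem_zpowers_iff.1 hb'
  have hc : (⟨a, ha⟩ : N) * ⟨b, hb⟩ = ⟨b, hb⟩ * ⟨a, ha⟩ := by
    rw [← hi, ← hj, ← zpow_add, ← zpow_add, add_comm]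
  have hc' : a * b = b * a := congrArg Subtype.val hc
  rw [Subgroup.mem_bot, commutatorElement_eq_one_iff_mul_comm]
  exact hc'

end Pool.Agent.PDN
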