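import Pool.Agent.PDN.Alg

/-!
# Star: property (*) for perfect `N` with `AIprop N`

Let `c : N → R` be a cocycle (`c (mn) = c m + u m * c n`), and for `g ∈ N` let `a_g` satisfy
`c n (g - 1) = (n - 1) a_g` for all `n ∈ N`.
Write `⟨x, z⟩ = x.coeff z`.  Choose a set of representatives of the cosets `N z` (a function
`r : G → G` with `r z ∈ N z`, constant on the cosets, e.g. `Quotient.out`), and define `f : G → ℤ` by
`f (m⁻¹ r) = ⟨c m, r⟩` for `m ∈ N` (i.e. `f z = ⟨c m, r z⟩` with `m = r z * z⁻¹ ∈ N`).  Then for `n ∈ N`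
  (1) `f (n⁻¹ z) - f z = ⟨c n, z⟩`   (`z = m⁻¹ r`: `f ((mn)⁻¹ r) = ⟨c m + m c n, r⟩ = f z + ⟨c n, m⁻¹ r⟩`).
For `g ∈ N`, the function `k_g z = f (z g⁻¹) - f z - ⟨a_g, z⟩` is left `N`-invariant:
  `⟨c n (g-1), z⟩ = ⟨c n, z g⁻¹⟩ - ⟨c n, z⟩`, `⟨(n-1) a_g, z⟩ = ⟨a_g, n⁻¹ z⟩ - ⟨a_g, z⟩`, and (1) at `z g⁻¹` and
  at `z` (note `(n⁻¹ z) g⁻¹ = n⁻¹ (z g⁻¹)`).
Finiteness: by (1), for `n ∈ N` the set `{z | f (n⁻¹ z) ≠ f z}` is finite (support of `c n`).
Since `N` is perfect `k_g = 0`: for fixed `z`, `g ↦ k_g z` is a homomorphism `N → ℤ` up to `N`-invariance: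
  `k_{g g'}(z)`: `f (z g'⁻¹ g⁻¹) - f z = [f ((z g'⁻¹) g⁻¹) - f (z g'⁻¹)] + [f (z g'⁻¹) - f z]`, i.e. for the
  function `K_g z := f (z g⁻¹) - f z`:  `K_{gg'} z = K_g (z g'⁻¹) + K_{g'} z`.
  Define `χ_g z` = the value at infinity ... simpler: `a_g` can be replaced: `a_{gg'} := a_g * g' + a_{g'}`
  also works for `gg'` (`c n (gg'-1) = c n (g-1) g' + c n (g'-1)`), and two choices of `a_g` are equal
  because `(n-1) (a - a') = 0` for all `n ∈ N` and `left_inv_zero` (`N` infinite).  So `a_{gg'} = a_g g' + a_{g'}`,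
  `⟨a_g g', z⟩ = ⟨a_g, z g'⁻¹⟩`, hence `k_{gg'} z = k_g (z g'⁻¹) + k_{g'} z = k_g z + k_{g'} z`, because
  `z g'⁻¹ = (z g'⁻¹ z⁻¹) z` and `z g'⁻¹ z⁻¹ ∈ N` (normal) and `k_g` is left `N`-invariant.
  A homomorphism from the perfect group `N` to `ℤ` vanishes (see `Coset2_perfect_hom`).
So (2) `f (z g⁻¹) - f z = ⟨a_g, z⟩` for `g ∈ N`: finitely many `z` with `f (z g⁻¹) ≠ f z`.
For each `z₀`, `φ m = f (m z₀)`, `m ∈ N`, is almost invariant on both sides: left by (1), right because
`m n z₀ = m z₀ (z₀⁻¹ n z₀)` and (2).  `AIprop`: `φ` is constant (`= d(z₀)`) except at finitely many `m`.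
Let `S` be a finite set of generators of `N`.  Outside the finitely many cosets `N z` meeting the supports
of `c s`, `s ∈ S`, `f` is constant on the coset (closure induction, (1)).  Hence the function
`h z = f z - d(z)` (`d` constant on cosets `N z`) has finite support; let `a : R` be the
corresponding element (`MonoidAlgebra.ofCoeff (Finsupp.ofSupportFinite ..)`).  Then for `n ∈ N`:
`⟨(n-1) a, z⟩ = h (n⁻¹ z) - h z = f (n⁻¹ z) - f z = ⟨c n, z⟩`.
-/

open CategoryTheory

namespace Pool.Agent.PDN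

open Pool.Agent.PD3

variable {G : Type} [Group G]

section aux

variable (N : Subgroup G) [N.Normal]

/-- a representative of the coset of `z` -/
noncomputable def Star_r (z : G) : G := (QuotientGroup.mk z : G ⧸ N).out

lemma Star_mk (z : G) : (QuotientGroup.mk (Star_r N z) : G ⧸ N) = QuotientGroup.mk z := by
  unfold Star_r
  exact Quotient.out_eq _

lemma Star_r_mem (z : G) : Star_r N z * z⁻¹ ∈ N := by
  have h := QuotientGroup.eq.1 (Star_mk N z).symm
  have := ‹N.Normal›.conj_mem _ h z
  simpa [mul_assoc] using this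

lemma Star_mk_mul {n : G} (hn : n ∈ N) (z : G) :
    (QuotientGroup.mk (n * z) : G ⧸ N) = QuotientGroup.mk z := by
  rw [QuotientGroup.eq]
  have := ‹N.Normal›.conj_mem _ (N.inv_mem hn) z⁻¹
  simpa [mul_assoc] using this

lemma Star_r_mul {n : G} (hn : n ∈ N) (z : G) : Star_r N (n * z) = Star_r N z := by
  unfold Star_r
  rw [Star_mk_mul N hn]

/-- the function `f` -/
noncomputable def Star_f (c : G → RR G) (z : G) : ℤ :=
  (c (Star_r N z * z⁻¹)).coeff (Star_r N z)

lemma Star_f1 (c : G → RR G) (hc : ∀ m ∈ N, ∀ n ∈ N, c (m * n) = c m + u m * c n) {n : G}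
    (hn : n ∈ N) (z : G) : Star_f N c (n⁻¹ * z) - Star_f N c z = (c n).coeff z := by
  unfold Star_f
  rw [Star_r_mul N (N.inv_mem hn)]
  have e1 : Star_r N z * (n⁻¹ * z)⁻¹ = (Star_r N z * z⁻¹) * n := by group
  rw [e1, hc _ (Star_r_mem N z) n hn, MonoidAlgebra.coeff_add, Finsupp.add_apply, coeff_u_mul]
  have e2 : (Star_r N z * z⁻¹)⁻¹ * Star_r N z = z := by group
  rw [e2]
  ring

end aux

theorem star (N : Subgroup G) (hn : N.Normal) (hfg : N.FG) (hinf : Infinite N) (hperf : ⁅N, N⁆ = N)
    (hAI : AIprop N) : StarP N := by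
  intro c hc hprin
  classical
  have hf1 := fun (n : G) (hn : n ∈ N) (z : G) => Star_f1 N c hc hn z
  set f := Star_f N c with hf
  choose! a ha using hprin
  -- uniqueness
  have huniq : ∀ g ∈ N, ∀ g' ∈ N, a (g * g') = a g * u g' + a g' := by
    intro g hg g' hg'
    have h0 : a (g * g') - (a g * u g' + a g') = 0 := by
      apply left_inv_zero N hinf
      intro m hm
      have h1 := ha (g * g') (N.mul_mem hg hg') m hm
      have h2 := ha g hg m hm
      have h3 := ha g' hg' m hm
      have h4 : (u m - 1) * (a (g * g') - (a g * u g' + a g')) = 0 := by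
        calc (u m - 1) * (a (g * g') - (a g * u g' + a g')) =
            (u m - 1) * a (g * g') - ((u m - 1) * a g) * u g' - (u m - 1) * a g' := by noncomm_ring
          _ = c m * (u (g * g') - 1) - (c m * (u g - 1)) * u g' - c m * (u g' - 1) := by
              rw [h1, h2, h3]
          _ = 0 := by rw [u_mul]; noncomm_ring
      have h5 : u m * (a (g * g') - (a g * u g' + a g')) =
          (u m - 1) * (a (g * g') - (a g * u g' + a g')) + (a (g * g') - (a g * u g' + a g')) := by
        noncomm_ring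
      rw [h5, h4, zero_add]
    exact sub_eq_zero.1 h0
  -- the functions `k_g`
  set k : G → G → ℤ := fun g z => f (z * g⁻¹) - f z - (a g).coeff z with hk
  have hkinv : ∀ g ∈ N, ∀ n ∈ N, ∀ z, k g (n * z) = k g z := by
    intro g hg n hn' z
    have h1 := hf1 n⁻¹ (N.inv_mem hn') (z * g⁻¹)
    have h2 := hf1 n⁻¹ (N.inv_mem hn') z
    have h3 : (c n⁻¹ * (u g - 1)).coeff z = ((u n⁻¹ - 1) * a g).coeff z := by
      rw [ha g hg n⁻¹ (N.inv_mem hn')]
    rw [mul_sub, mul_one, MonoidAlgebra.coeff_sub, Finsupp.sub_apply, coeff_mul_u, sub_mul, one_mul,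
      MonoidAlgebra.coeff_sub, Finsupp.sub_apply, coeff_u_mul] at h3
    rw [inv_inv] at h1 h2 h3
    simp only [hk]
    rw [mul_assoc n z g⁻¹]
    linarith
  have hkadd : ∀ g ∈ N, ∀ g' ∈ N, ∀ z, k (g * g') z = k g z + k g' z := by
    intro g hg g' hg' z
    have h1 : k g (z * g'⁻¹) = k g z := by
      have h2 := hkinv g hg (z * g'⁻¹ * z⁻¹) (hn.conj_mem _ (N.inv_mem hg') z) z
      rwa [inv_mul_cancel_right] at h2
    rw [← h1]
    simp only [hk]
    rw [huniq g hg g' hg', MonoidAlgebra.coeff_add, Finsupp.add_apply, coeff_mul_u, mul_inv_rev,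
      ← mul_assoc]
    ring
  have hk0 : ∀ g ∈ N, ∀ z, k g z = 0 := by
    intro g hg z
    exact Coset2_perfect_hom N hperf (fun n => k (n : G) z)
      (fun n m => hkadd n n.2 m m.2 z) ⟨g, hg⟩
  have hf2 : ∀ g ∈ N, ∀ z, f (z * g⁻¹) - f z = (a g).coeff z := by
    intro g hg z
    have := hk0 g hg z
    simp only [hk] at this
    linarith
  -- almost invariance
  have hd : ∀ z₀ : G, ∃ d : ℤ, {x : N | f (x * z₀) ≠ d}.Finite := by
    intro z₀
    apply hAI (fun x : N => f (x * z₀))
    · intro n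
      have hfin := (c (n : G)⁻¹).coeff.support.finite_toSet
      have hinj : Set.InjOn (fun x : N => (x : G) * z₀)
          ((fun x : N => (x : G) * z₀) ⁻¹' ((c (n : G)⁻¹).coeff.support : Set G)) := by
        intro x _ y _ h
        exact Subtype.ext (mul_right_cancel h)
      refine (hfin.preimage hinj).subset ?_
      intro x hx
      have h1 := hf1 (n : G)⁻¹ (N.inv_mem n.2) (x * z₀)
      rw [inv_inv] at h1
      simp only [Set.mem_ofPred_eq] at hx
      simp only [Set.mem_preimage, Finset.mem_coe, Finsupp.mem_support_iff]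
      rw [← h1]
      intro h2
      apply hx
      push_cast
      rw [mul_assoc]
      linarith
    · intro n
      set g : G := z₀⁻¹ * (n : G)⁻¹ * z₀ with hg
      have hgN : g ∈ N := by
        have := hn.conj_mem _ (N.inv_mem n.2) z₀⁻¹
        rwa [inv_inv] at this
      have hfin := (a g).coeff.support.finite_toSet
      have hinj : Set.InjOn (fun x : N => (x : G) * z₀)
          ((fun x : N => (x : G) * z₀) ⁻¹' ((a g).coeff.support : Set G)) := by
        intro x _ y _ h
        exact Subtype.ext (mul_right_cancel h)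
      refine (hfin.preimage hinj).subset ?_
      intro x hx
      have h1 := hf2 g hgN (x * z₀)
      simp only [Set.mem_ofPred_eq] at hx
      simp only [Set.mem_preimage, Finset.mem_coe, Finsupp.mem_support_iff]
      rw [← h1]
      intro h2
      apply hx
      have e1 : ((x * n : N) : G) * z₀ = (x : G) * z₀ * g⁻¹ := by
        rw [hg]; push_cast; group
      rw [e1]
      linarith
  choose dd hdd using hd
  set d : G → ℤ := fun z => dd (Star_r N z) with hddef
  have hdN : ∀ n ∈ N, ∀ z, d (n * z) = d z := by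
    intro n hn' z
    simp only [hddef]
    rw [Star_r_mul N hn']
  -- inside one coset
  have hcos : ∀ y : G, {z | (QuotientGroup.mk z : G ⧸ N) = QuotientGroup.mk y ∧ f z ≠ d z}.Finite := by
    intro y
    refine ((hdd (Star_r N y)).image (fun x : N => (x : G) * Star_r N y)).subset ?_
    rintro z ⟨hz1, hz2⟩
    have e : Star_r N z = Star_r N y := by
      unfold Star_r
      rw [hz1]
    have hmem : z * (Star_r N y)⁻¹ ∈ N := by
      have := N.inv_mem (Star_r_mem N z)
      rw [e, mul_inv_rev, inv_inv] at this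
      exact this
    refine ⟨⟨z * (Star_r N y)⁻¹, hmem⟩, ?_, ?_⟩
    · simp only [Set.mem_ofPred_eq, inv_mul_cancel_right]
      simp only [hddef, e] at hz2
      exact hz2
    · simp
  obtain ⟨S, hS⟩ := hfg
  have hSN : ∀ s ∈ S, s ∈ N := fun s hs => by
    rw [← hS]; exact Subgroup.subset_closure hs
  set F : Finset G := S.biUnion (fun s => (c s).coeff.support) with hF
  -- outside the cosets meeting the supports, `f = d`
  have hout : ∀ z : G, (∀ y ∈ F, (QuotientGroup.mk z : G ⧸ N) ≠ QuotientGroup.mk y) → f z = d z := by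
    intro z hz
    have hgen : ∀ n ∈ Subgroup.closure (S : Set G), ∀ z' : G,
        (QuotientGroup.mk z' : G ⧸ N) = QuotientGroup.mk z → f (n⁻¹ * z') = f z' := by
      intro n hn'
      induction hn' using Subgroup.closure_induction with
      | mem s hs =>
        intro z' hz'
        have h1 := hf1 s (hSN s hs) z'
        have h2 : (c s).coeff z' = 0 := by
          by_contra hne
          apply hz z' _ hz'.symm
          rw [hF, Finset.mem_biUnion]
          exact ⟨s, hs, Finsupp.mem_support_iff.2 hne⟩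
        rw [h2] at h1
        linarith
      | one => intro z' _; simp
      | mul p q hp hq ihp ihq =>
        intro z' hz'
        have hpN : p ∈ N := by rw [← hS]; exact hp
        rw [mul_inv_rev, mul_assoc, ihq (p⁻¹ * z') ?_, ihp z' hz']
        rw [Star_mk_mul N (N.inv_mem hpN), hz']
      | inv p hp ihp =>
        intro z' hz'
        have hpN : p ∈ N := by rw [← hS]; exact hp
        have := ihp (p * z') (by rw [Star_mk_mul N hpN, hz'])
        rw [inv_mul_cancel_left] at this
        rw [inv_inv, this]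
    by_contra hne
    -- all points of the coset would be exceptional
    have hall : ∀ x : N, f (x * z) ≠ d (x * z) := by
      intro x
      have h1 := hgen (x : G)⁻¹ (by rw [hS]; exact N.inv_mem x.2) z rfl
      rw [inv_inv] at h1
      rw [h1, hdN x x.2]
      exact hne
    have hfin := hcos z
    have hinf2 : (Set.range (fun x : N => (x : G) * z)).Infinite := by
      apply Set.infinite_range_of_injective
      intro x y h
      exact Subtype.ext (mul_right_cancel h)
    apply hinf2
    refine hfin.subset ?_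
    rintro _ ⟨x, rfl⟩
    exact ⟨Star_mk_mul N x.2 z, hall x⟩
  have hsupp : {z | f z - d z ≠ 0}.Finite := by
    refine (F.finite_toSet.biUnion (fun y _ => hcos y)).subset ?_
    intro z hz
    simp only [Set.mem_ofPred_eq] at hz
    by_contra hcon
    apply hz
    rw [sub_eq_zero]
    apply hout z
    intro y hy heq
    apply hcon
    rw [Set.mem_iUnion₂]
    exact ⟨y, hy, heq, fun h => hz (by rw [h, sub_self])⟩
  set h : G →₀ ℤ := Finsupp.ofSupportFinite (fun z => f z - d z) hsupp with hh
  refine ⟨MonoidAlgebra.ofCoeff h, ?_⟩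
  intro n hn'
  apply coeff_ext
  intro z
  rw [sub_mul, one_mul, MonoidAlgebra.coeff_sub, Finsupp.sub_apply, coeff_u_mul,
    MonoidAlgebra.coeff_ofCoeff, ← hf1 n hn' z]
  have e1 : h (n⁻¹ * z) = f (n⁻¹ * z) - d (n⁻¹ * z) := rfl
  have e2 : h z = f z - d z := rfl
  rw [e1, e2, hdN n⁻¹ (N.inv_mem hn')]
  ring

end Pool.Agent.PDN
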