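import Pool.Agent.PDN.Rex
import Pool.Agent.PDN.H0

/-!
# TwoEnd: `H^1(G; ℤ[G/N']) = 0` excludes cyclic subgroups of finite index in `G/N'`

Suppose `⟨q⟩` has finite index in `G/N'`, `q = c N'`.  As `G/N'` is infinite, `q` has infinite order, so
`c^k ∈ N'` only for `k = 0`; `L = N' ⊔ zpowers c` has finite index in `G`.  `SES (rm c - 1) prj`
(`rex_inf`, `prj_surj`, `rex_prj`, `rex_exact`): `0 → ℤ[G/N'] → ℤ[G/N'] → ℤ[G/L] → 0`.  From the long exact
sequence and `H^1(ℤ[G/N']) = 0`, `H^0(ℤ[G/N']) → H^0(ℤ[G/L])` is surjective; the first is `0`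
(`h0_zero`), the second is not (`h0_ne`).
-/

open CategoryTheory

namespace Pool.Agent.PDN

open Pool.Agent.PD3

variable {G : Type} [Group G]

theorem two_end (N' : Subgroup G) [N'.Normal] (hinf : N'.index = 0)
    (h1 : ∀ x : HH (perm (G := G) ℤ ℤ (G ⧸ N')) 1, x = 0) (q : G ⧸ N') :
    (Subgroup.zpowers q).index = 0 := by
  by_contra hne
  obtain ⟨c, rfl⟩ := QuotientGroup.mk'_surjective N' q
  set q : G ⧸ N' := QuotientGroup.mk' N' c with hq
  -- `q` has infinite order
  have hc : ∀ k : ℤ, c ^ k ∈ N' → k = 0 := by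
    intro k hk
    by_contra hk0
    have hqk : q ^ k = 1 := by
      rw [hq, ← map_zpow]
      exact (QuotientGroup.eq_one_iff (c ^ k)).2 hk
    have hfo : IsOfFinOrder q := by
      rw [isOfFinOrder_iff_zpow_eq_one]
      exact ⟨k, hk0, hqk⟩
    have hfin : Finite (Subgroup.zpowers q) := by
      rw [← Nat.card_pos_iff.trans (and_iff_right (inferInstance)), Nat.card_zpowers]
      exact hfo.orderOf_pos
    have hfi : (Subgroup.zpowers q).FiniteIndex := ⟨hne⟩
    have : Finite (G ⧸ N') := by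
      have h2 := Subgroup.card_mul_index (Subgroup.zpowers q)
      have h3 : Nat.card (G ⧸ N') ≠ 0 := by
        rw [← h2]
        exact mul_ne_zero (Nat.card_pos (α := Subgroup.zpowers q)).ne' hne
      exact Nat.finite_of_card_ne_zero h3
    have h4 : N'.index ≠ 0 := by
      rw [Subgroup.index]
      exact (Nat.card_pos (α := G ⧸ N')).ne'
    exact h4 hinf
  -- the subgroup `L`
  obtain ⟨L, hL⟩ : ∃ L : Subgroup G, L = N' ⊔ Subgroup.zpowers c := ⟨_, rfl⟩
  have hle : N' ≤ L := by rw [hL]; exact le_sup_left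
  have hLi : L.index ≠ 0 := by
    have hmap : L.map (QuotientGroup.mk' N') = Subgroup.zpowers q := by
      rw [hL, Subgroup.map_sup, QuotientGroup.map_mk'_self, bot_sup_eq, MonoidHom.map_zpowers]
    have hcomap : (Subgroup.zpowers q).comap (QuotientGroup.mk' N') = L := by
      rw [← hmap, Subgroup.comap_map_eq, QuotientGroup.ker_mk', sup_eq_left]
      exact hle
    rw [← hcomap, Subgroup.index_comap_of_surjective _ (QuotientGroup.mk'_surjective N')]
    exact hne
  have hses : SES (rm N' (c : G ⧸ N') - 𝟙 _) (prj (G := G) ℤ ℤ hle) := by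
    refine ⟨?_, prj_surj hle, fun a => rex_prj N' L c hL hle a, fun b hb => rex_exact N' L c hL hle b hb⟩
    rw [injective_iff_map_eq_zero]
    intro a ha
    exact rex_inf N' c hc a ha
  obtain ⟨δ, -, h3, -⟩ := hses.les 0
  obtain ⟨x, hx⟩ := h0_ne L hLi
  obtain ⟨y, hy⟩ := (h3 x).1 (h1 (δ x))
  rw [h0_zero N' hinf y, map_zero] at hy
  exact hx hy.symm

end Pool.Agent.PDN
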