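import Pool.Agent.PDN.MatD
import Pool.Agent.PDN.MkDat
import Pool.Agent.PDN.Star
import Pool.Agent.PDN.AI
import Pool.Agent.PDN.Exist
import Pool.Agent.PDN.Setup0
import Pool.Agent.PDN.TwoEnd
import Pool.Agent.PDN.RelMod
import Pool.Agent.PDN.RelTr
import Pool.Agent.PDN.AcB
import Pool.Agent.PDN.Perf

/-!
# Fin: the theorems
-/

open CategoryTheory

namespace Pool.Agent.PDN

open Pool.Agent.PD3

variable {G : Type} [Group G]

/-- Theorem A. -/
theorem thm_a (N : Subgroup G) [hn : N.Normal] (hG : IsPD3 G) (hfg : N.FG) (hinf : N.index = 0)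
    (hperf : ⁅N, N⁆ = N) (hc : ∀ q : G ⧸ N, (Subgroup.zpowers q).index = 0) : N = ⊥ := by
  by_contra hne
  have hS : Setup G N := ⟨hG, hn, hfg, hinf, hperf⟩
  have hI : Infinite N := inf_N N hS hne
  have hAI : AIprop N := ai N ((Group.fg_iff_subgroup_fg N).2 hfg) (fun h _ => zp_N N hS hne h)
  have hStar : StarP N := star N hn hfg hI hperf hAI
  obtain ⟨q, hq⟩ := inf_elt N hS
  obtain ⟨t, ht1, ht2, ht3⟩ := exist_of_inf N hG q hq (hc q)
  obtain ⟨D, rfl, rfl⟩ := mk_dat N hn hfg t ht1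
  exact core_dat hG D hfg hI hStar ht2 (fun n hn' d => orient hG.toPDk D.N hperf n hn' d) ht3

/-- Theorem B. -/
theorem thm_b (N : Subgroup G) (hn : N.Normal) (hG : IsPD3 G) (hfg : N.FG) (hinf : N.index = 0)
    (h1 : Subsingleton (groupHomology (Rep.trivial ℤ N ℤ) 1))
    (h2 : Subsingleton (groupHomology (Rep.trivial ℤ N ℤ) 2)) : N = ⊥ := by
  classical
  have hperf : ⁅N, N⁆ = N := perf_of_h1 N h1
  obtain ⟨S, hS⟩ := (Group.fg_iff_subgroup_fg N).2 hfg
  have hcl : Subgroup.closure (Set.range fun s : S => (s : N)) = ⊤ := by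
    rw [Subtype.range_coe_subtype]
    exact hS
  have hR := rel_tr N (fun s : S => (s : N)) (rel_top (fun s : S => (s : N)) hcl (fun x =>
    Subsingleton.elim (α := (groupHomology (Rep.trivial ℤ N ℤ) 2 : ModuleCat ℤ)) _ _))
  have hcl2 : Subgroup.closure (Set.range fun s : S => ((s : N) : G)) = N := by
    have : (Set.range fun s : S => ((s : N) : G)) = N.subtype '' (Set.range fun s : S => (s : N)) := by
      rw [← Set.range_comp]
      rfl
    rw [this, ← MonoidHom.map_closure, hcl, ← MonoidHom.range_eq_map, Subgroup.range_subtype]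
  have hz := ac_b hG N hperf (fun s : S => ((s : N) : G)) hcl2 hR
  exact thm_a N hG hfg hinf hperf (fun q => two_end N hinf hz q)

end Pool.Agent.PDN
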