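import Pool.Agent.PDN.Dat

/-!
# RepDefs: free modules `R^ι`, matrix maps, cokernels
-/

open CategoryTheory

namespace Pool.Agent.PDN

open Pool.Agent.PD3

variable {G : Type} [Group G]

/-- the action of `G` on `R^ι` -/
noncomputable def piRho (G : Type) [Group G] (ι : Type) : Representation ℤ G (ι → RR G) where
  toFun g :=
    { toFun := fun z i => u g * z i
      map_add' := fun x y => by funext i; simp [mul_add]
      map_smul' := fun m x => by
        funext i
        show u g * (m • x i) = m • (u g * x i)
        rw [mul_smul_comm] }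
  map_one' := by
    refine LinearMap.ext fun z => ?_
    funext i
    show u (1 : G) * z i = z i
    rw [u_one, one_mul]
  map_mul' g h := by
    refine LinearMap.ext fun z => ?_
    funext i
    show u (g * h) * z i = u g * (u h * z i)
    rw [u_mul, mul_assoc]

/-- the free module `R^ι` -/
noncomputable abbrev piRep (G : Type) [Group G] (ι : Type) : Rep.{0} ℤ G := Rep.of (piRho G ι)

theorem piRho_apply (ι : Type) (g : G) (z : ι → RR G) (i : ι) :
    piRho G ι g z i = u g * z i := rfl

/-- right multiplication by `a : R` -/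
noncomputable def rmul (a : RR G) : Rep.leftRegular ℤ G ⟶ Rep.leftRegular ℤ G :=
  homOfLin (M := Rep.leftRegular ℤ G) (N := Rep.leftRegular ℤ G)
    { toFun := fun (c : RR G) => c * a
      map_add' := fun x y => add_mul x y a
      map_smul' := fun m x => smul_mul_assoc m x a } (by
    intro g m
    show ((Rep.leftRegular ℤ G).ρ g m : RR G) * a = (Rep.leftRegular ℤ G).ρ g ((m : RR G) * a)
    rw [lr_rho', lr_rho', mul_assoc])

theorem rmul_apply (a c : RR G) : (rmul a).hom c = c * a := rfl

/-- `R → R^ι`, `c ↦ (c v_i)` -/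
noncomputable def rowHom {ι : Type} (v : ι → RR G) : Rep.leftRegular ℤ G ⟶ piRep G ι :=
  homOfLin (M := Rep.leftRegular ℤ G) (N := piRep G ι)
    { toFun := fun (c : RR G) i => c * v i
      map_add' := fun x y => by funext i; exact add_mul x y (v i)
      map_smul' := fun m x => by funext i; exact smul_mul_assoc m x (v i) } (by
    intro g m
    funext i
    show ((Rep.leftRegular ℤ G).ρ g m : RR G) * v i = u g * ((m : RR G) * v i)
    rw [lr_rho', mul_assoc])

theorem rowHom_apply {ι : Type} (v : ι → RR G) (c : RR G) (i : ι) :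
    ((rowHom v).hom c : ι → RR G) i = c * v i := rfl

/-- the coordinate `R^ι → R` -/
noncomputable def prj' {ι : Type} (j : ι) : piRep G ι ⟶ Rep.leftRegular ℤ G :=
  homOfLin (M := piRep G ι) (N := Rep.leftRegular ℤ G)
    { toFun := fun z => z j
      map_add' := fun x y => rfl
      map_smul' := fun m x => rfl } (by
    intro g m
    show u g * m j = (Rep.leftRegular ℤ G).ρ g (m j)
    rw [lr_rho'])

theorem prj'_apply {ι : Type} (j : ι) (z : ι → RR G) : (prj' (G := G) j).hom z = z j := rfl

/-- the matrix map `R^κ → R^ι`, `z ↦ z M` -/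
noncomputable def matHom {κ ι : Type} [Fintype κ] (M : κ → ι → RR G) : piRep G κ ⟶ piRep G ι :=
  homOfLin (M := piRep G κ) (N := piRep G ι)
    { toFun := fun (z : κ → RR G) i => ∑ k, z k * M k i
      map_add' := fun x y => by
        funext i
        show ∑ k, (x k + y k) * M k i = ∑ k, x k * M k i + ∑ k, y k * M k i
        simp only [add_mul, Finset.sum_add_distrib]
      map_smul' := fun m x => by
        funext i
        show ∑ k, (m • x k) * M k i = m • ∑ k, x k * M k i
        simp only [smul_mul_assoc, Finset.smul_sum] } (by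
    intro g m
    funext i
    show ∑ k, (u g * (m : κ → RR G) k) * M k i = u g * ∑ k, (m : κ → RR G) k * M k i
    rw [Finset.mul_sum]
    exact Finset.sum_congr rfl fun k _ => mul_assoc _ _ _)

theorem matHom_apply {κ ι : Type} [Fintype κ] (M : κ → ι → RR G) (z : κ → RR G) (i : ι) :
    ((matHom M).hom z : ι → RR G) i = ∑ k, z k * M k i := rfl

section Cok

variable {k : Type} [CommRing k]

/-- the cokernel of a morphism -/
noncomputable def cok {M N : Rep.{0} k G} (f : M ⟶ N) : Rep.{0} k G :=
  Rep.quotient N (LinearMap.range f.hom.toLinearMap) (by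
    rintro g _ ⟨x, rfl⟩
    rw [Submodule.mem_comap]
    refine ⟨M.ρ g x, ?_⟩
    show f.hom (M.ρ g x) = N.ρ g (f.hom x)
    rw [Rep.hom_comm_apply])

/-- the projection to the cokernel -/
noncomputable def cokProj {M N : Rep.{0} k G} (f : M ⟶ N) : N ⟶ cok f := Rep.mkQ _ _ _

theorem cokProj_surj {M N : Rep.{0} k G} (f : M ⟶ N) : Function.Surjective (cokProj f).hom :=
  Submodule.mkQ_surjective _

theorem cokProj_eq_zero {M N : Rep.{0} k G} (f : M ⟶ N) (x : N.V) :
    (cokProj f).hom x = 0 ↔ ∃ y : M.V, f.hom y = x := by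
  constructor
  · intro h
    have h2 : x ∈ LinearMap.range f.hom.toLinearMap := (Submodule.Quotient.mk_eq_zero _).1 h
    exact h2
  · rintro ⟨y, rfl⟩
    exact (Submodule.Quotient.mk_eq_zero _).2 ⟨y, rfl⟩

theorem cokProj_zero {M N : Rep.{0} k G} (f : M ⟶ N) (y : M.V) :
    (cokProj f).hom (f.hom y) = 0 := (cokProj_eq_zero f _).2 ⟨y, rfl⟩

end Cok

end Pool.Agent.PDN
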