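import Pool.Agent.PDN.B1
import Pool.Agent.PDN.RepDefs

/-!
# Grade: `H^1(G; coker M) = 0` for a matrix over `ℤ[L]`

`X = G ⧸ L`, `V = cok (matHom M)`.  For `x : X` let `q x : R → R` be the restriction of the support to the
coset `x` (`(q x c).coeff g = if (g : G ⧸ L) = x then c.coeff g else 0`), and `q x` coordinatewise on
`R^ι`.  `q x (c * l) = q x c * l` if the support of `l` is in `L` (by additivity in `l`: for
`l = single g n` use the coefficient formula); so `q x (matHom M z) = matHom M (q x z)`, and `q x`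
induces `p x` on `V` (`QuotientAddGroup.map` or `Submodule.mapQ`, or `Submodule.liftQ`).
`q (g • x) (u g * c) = u g * q x c`.  `q x ∘ q x = q x`, `q x ∘ q y = 0`.
Finiteness: `q x c = 0` unless `x` is in the image of the support.  `p_ext`: `c = ∑ x, q x c` over the
(finite) image of the supports.
`N` acts trivially on `X`: `n g L = g (g⁻¹ n g) L = g L` as `N ≤ L`.
`hX`: `X` is infinite (`L.index = 0`) and transitive.
`hinv` of `b1`: an invariant element of `V` is the class of some `x : ι → R` with
`(n-1) x ∈ range (matHom M)` for all `n ∈ N`.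
-/

open CategoryTheory

namespace Pool.Agent.PDN

open Pool.Agent.PD3

variable {G : Type} [Group G]

section Grade_aux

variable (L : Subgroup G)

open Classical in
/-- restriction of the support to a coset -/
noncomputable def Grade_q (x : G ⧸ L) (c : RR G) : RR G :=
  MonoidAlgebra.ofCoeff (c.coeff.filter fun g => (g : G ⧸ L) = x)

open Classical in
theorem Grade_coeff (x : G ⧸ L) (c : RR G) (g : G) :
    (Grade_q L x c).coeff g = if (g : G ⧸ L) = x then c.coeff g else 0 := by
  unfold Grade_q
  rw [MonoidAlgebra.coeff_ofCoeff, Finsupp.filter_apply]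

theorem Grade_add (x : G ⧸ L) (c d : RR G) :
    Grade_q L x (c + d) = Grade_q L x c + Grade_q L x d := by
  classical
  apply coeff_ext
  intro z
  rw [MonoidAlgebra.coeff_add, Finsupp.add_apply, Grade_coeff, Grade_coeff, Grade_coeff,
    MonoidAlgebra.coeff_add, Finsupp.add_apply]
  split_ifs <;> simp

theorem Grade_zero (x : G ⧸ L) : Grade_q L x 0 = 0 := by
  classical
  apply coeff_ext
  intro z
  rw [Grade_coeff]
  simp

theorem Grade_idem (x : G ⧸ L) (c : RR G) : Grade_q L x (Grade_q L x c) = Grade_q L x c := by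
  classical
  apply coeff_ext
  intro z
  rw [Grade_coeff, Grade_coeff]
  split_ifs <;> rfl

theorem Grade_orth (x y : G ⧸ L) (hxy : x ≠ y) (c : RR G) :
    Grade_q L x (Grade_q L y c) = 0 := by
  classical
  apply coeff_ext
  intro z
  rw [Grade_coeff, Grade_coeff]
  by_cases h1 : (z : G ⧸ L) = x
  · by_cases h2 : (z : G ⧸ L) = y
    · exact absurd (h1.symm.trans h2) hxy
    · rw [if_pos h1, if_neg h2]; simp
  · rw [if_neg h1]; simp

theorem Grade_equiv (g : G) (x : G ⧸ L) (c : RR G) :
    Grade_q L (g • x) (u g * c) = u g * Grade_q L x c := by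
  classical
  apply coeff_ext
  intro z
  rw [Grade_coeff, coeff_u_mul, coeff_u_mul, Grade_coeff]
  have h1 : ((z : G ⧸ L) = g • x) ↔ (((g⁻¹ * z : G) : G ⧸ L) = x) := by
    have h2 : ((g⁻¹ * z : G) : G ⧸ L) = g⁻¹ • (z : G ⧸ L) := rfl
    rw [h2]
    constructor
    · intro h
      rw [h, inv_smul_smul]
    · intro h
      rw [← h, smul_inv_smul]
  by_cases h : (z : G ⧸ L) = g • x
  · rw [if_pos h, if_pos (h1.1 h)]
  · rw [if_neg h, if_neg (fun h' => h (h1.2 h'))]

theorem Grade_mul_single (x : G ⧸ L) (c : RR G) (h : G) (hh : h ∈ L) (n : ℤ) :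
    Grade_q L x (c * MonoidAlgebra.single h n) = Grade_q L x c * MonoidAlgebra.single h n := by
  classical
  apply coeff_ext
  intro z
  rw [Grade_coeff, MonoidAlgebra.coeff_mul_single_apply, MonoidAlgebra.coeff_mul_single_apply,
    Grade_coeff]
  have h1 : ((z * h⁻¹ : G) : G ⧸ L) = (z : G ⧸ L) := by
    rw [QuotientGroup.eq]
    have h2 : (z * h⁻¹)⁻¹ * z = h := by group
    rw [h2]
    exact hh
  rw [h1]
  split_ifs <;> simp

theorem Grade_one (c : RR G) (hc : ∀ g, c.coeff g ≠ 0 → g ∈ L) :
    Grade_q L ((1 : G) : G ⧸ L) c = c := by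
  classical
  apply coeff_ext
  intro z
  rw [Grade_coeff]
  by_cases h : (z : G ⧸ L) = ((1 : G) : G ⧸ L)
  · rw [if_pos h]
  · rw [if_neg h]
    by_contra hne
    apply h
    have := hc z (fun h0 => hne h0.symm)
    rw [eq_comm, QuotientGroup.eq]
    simpa using this

theorem Grade_mul (x : G ⧸ L) (c l : RR G) (hl : ∀ g, l.coeff g ≠ 0 → g ∈ L) :
    Grade_q L x (c * l) = Grade_q L x c * l := by
  classical
  have key : ∀ m : RR G, Grade_q L x (c * Grade_q L ((1 : G) : G ⧸ L) m) =
      Grade_q L x c * Grade_q L ((1 : G) : G ⧸ L) m := by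
    intro m
    induction m using MonoidAlgebra.induction_linear with
    | zero => rw [Grade_zero, mul_zero, mul_zero, Grade_zero]
    | add a b ha hb => rw [Grade_add, mul_add, mul_add, Grade_add, ha, hb]
    | single h n =>
      by_cases hh : h ∈ L
      · have h1 : Grade_q L ((1 : G) : G ⧸ L) (MonoidAlgebra.single h n) =
            MonoidAlgebra.single h n := by
          apply Grade_one
          intro g hg
          rw [MonoidAlgebra.coeff_single, Finsupp.single_apply] at hg
          by_cases hgh : h = g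
          · rwa [← hgh]
          · rw [if_neg hgh] at hg
            exact absurd rfl hg
        rw [h1, Grade_mul_single L x c h hh]
      · have h1 : Grade_q L ((1 : G) : G ⧸ L) (MonoidAlgebra.single h n) = 0 := by
          apply coeff_ext
          intro z
          rw [Grade_coeff, MonoidAlgebra.coeff_single, Finsupp.single_apply]
          by_cases h2 : (z : G ⧸ L) = ((1 : G) : G ⧸ L)
          · rw [if_pos h2]
            have hz : z ∈ L := by
              rw [eq_comm, QuotientGroup.eq] at h2
              simpa using h2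
            rw [if_neg]
            · simp
            · rintro rfl
              exact hh hz
          · rw [if_neg h2]
            simp
        rw [h1, mul_zero, mul_zero, Grade_zero]
  have h2 := key l
  rwa [Grade_one L l hl] at h2

theorem Grade_neg (x : G ⧸ L) (c : RR G) : Grade_q L x (-c) = - Grade_q L x c := by
  have h := Grade_add L x c (-c)
  rw [add_neg_cancel, Grade_zero] at h
  exact (neg_eq_of_add_eq_zero_right h.symm).symm

/-- coordinatewise restriction, as a linear map -/
noncomputable def Grade_Q (ι : Type) (x : G ⧸ L) : (ι → RR G) →ₗ[ℤ] (ι → RR G) :=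
  AddMonoidHom.toIntLinearMap
    { toFun := fun z i => Grade_q L x (z i)
      map_zero' := by
        funext i
        exact Grade_zero L x
      map_add' := fun z w => by
        funext i
        exact Grade_add L x (z i) (w i) }

theorem Grade_Q_apply (ι : Type) (x : G ⧸ L) (z : ι → RR G) (i : ι) :
    Grade_Q L ι x z i = Grade_q L x (z i) := rfl

open Classical in
/-- the cosets met by the supports -/
noncomputable def Grade_F {ι : Type} [Fintype ι] (z : ι → RR G) : Finset (G ⧸ L) :=
  (Finset.univ : Finset ι).biUnion fun i =>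
    Finset.image (fun g : G => (QuotientGroup.mk g : G ⧸ L)) (z i).coeff.support

theorem Grade_memF {ι : Type} [Fintype ι] (z : ι → RR G) (i : ι) (g : G)
    (h : (z i).coeff g ≠ 0) : (g : G ⧸ L) ∈ Grade_F L z := by
  classical
  unfold Grade_F
  rw [Finset.mem_biUnion]
  exact ⟨i, Finset.mem_univ i, Finset.mem_image.2 ⟨g, Finsupp.mem_support_iff.2 h, rfl⟩⟩

theorem Grade_sum (ι : Type) [Fintype ι] (z : ι → RR G) :
    ∃ F : Finset (G ⧸ L), ∑ x ∈ F, Grade_Q L ι x z = z ∧ ∀ x, x ∉ F → Grade_Q L ι x z = 0 := by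
  classical
  refine ⟨Grade_F L z, ?_, ?_⟩
  · funext i
    rw [Finset.sum_apply]
    apply coeff_ext
    intro g
    rw [MonoidAlgebra.coeff_sum, Finsupp.finsetSum_apply]
    simp only [Grade_Q_apply, Grade_coeff]
    rw [Finset.sum_ite_eq]
    split_ifs with h
    · rfl
    · by_contra hne
      apply h
      exact Grade_memF L z i g (fun h0 => hne h0.symm)
  · intro x hx
    funext i
    apply coeff_ext
    intro g
    rw [Grade_Q_apply, Grade_coeff]
    by_cases h : (g : G ⧸ L) = x
    · rw [if_pos h]
      by_contra hne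
      apply hx
      rw [← h]
      exact Grade_memF L z i g hne
    · rw [if_neg h]
      rfl

end Grade_aux

theorem grade (N L : Subgroup G) (hn : N.Normal) (hfg : N.FG) (hle : N ≤ L) (hL : L.index = 0)
    {κ ι : Type} [Fintype κ] [Fintype ι] (M : κ → ι → RR G)
    (hM : ∀ k i g, (M k i).coeff g ≠ 0 → g ∈ L)
    (hinv : ∀ x : ι → RR G, (∀ n ∈ N, ∃ b : κ → RR G, ∀ i, (u n - 1) * x i = ∑ k, b k * M k i) →
      ∃ b : κ → RR G, ∀ i, x i = ∑ k, b k * M k i)
    (c : HH (cok (matHom M)) 1) : c = 0 := by
  classical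
  -- the projections
  have hQM : ∀ (x : G ⧸ L) (z : κ → RR G),
      Grade_Q L ι x ((matHom M).hom z) = (matHom M).hom (Grade_Q L κ x z) := by
    intro x z
    funext i
    rw [Grade_Q_apply, matHom_apply, matHom_apply]
    have h1 : ∀ s : Finset κ, Grade_q L x (∑ k ∈ s, z k * M k i) =
        ∑ k ∈ s, Grade_q L x (z k) * M k i := by
      intro s
      induction s using Finset.induction_on with
      | empty => simp [Grade_zero]
      | insert a s ha ih =>
        rw [Finset.sum_insert ha, Finset.sum_insert ha, Grade_add, ih,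
          Grade_mul L x (z a) (M a i) (hM a i)]
    exact h1 Finset.univ
  have hker : ∀ x : G ⧸ L, LinearMap.range (matHom M).hom.toLinearMap ≤
      (LinearMap.range (matHom M).hom.toLinearMap).comap (Grade_Q L ι x) := by
    rintro x _ ⟨z, rfl⟩
    rw [Submodule.mem_comap]
    exact ⟨Grade_Q L κ x z, (hQM x z).symm⟩
  let p : G ⧸ L → (cok (matHom M)).V →+ (cok (matHom M)).V := fun x =>
    (Submodule.mapQ (LinearMap.range (matHom M).hom.toLinearMap)
      (LinearMap.range (matHom M).hom.toLinearMap) (Grade_Q L ι x) (hker x)).toAddMonoidHom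
  have hp : ∀ (x : G ⧸ L) (z : ι → RR G), p x ((cokProj (matHom M)).hom z) =
      (cokProj (matHom M)).hom (Grade_Q L ι x z) := fun x z => rfl
  have hsurj := cokProj_surj (matHom M)
  refine b1 (V := cok (matHom M)) (X := G ⧸ L) N hn hfg ?_ ?_ p ?_ ?_ ?_ ?_ ?_ ?_ c
  · intro n hnN x
    induction x using QuotientGroup.induction_on with
    | H g =>
      show ((n * g : G) : G ⧸ L) = (g : G ⧸ L)
      rw [QuotientGroup.eq]
      have h1 : (n * g)⁻¹ * g = g⁻¹ * n⁻¹ * (g⁻¹)⁻¹ := by group
      rw [h1]
      exact hle (hn.conj_mem _ (N.inv_mem hnN) _)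
  · intro S x
    have hinf : Infinite (G ⧸ L) := by
      rw [Subgroup.index] at hL
      by_contra hcon
      rw [not_infinite_iff_finite] at hcon
      exact Nat.card_pos.ne' hL
    obtain ⟨y, hy⟩ := Infinite.exists_notMem_finset S
    obtain ⟨g, hg⟩ := MulAction.exists_smul_eq G x y
    exact ⟨g, by rw [hg]; exact hy⟩
  · intro v
    obtain ⟨z, rfl⟩ := hsurj v
    obtain ⟨F, -, hF⟩ := Grade_sum L ι z
    refine (F.finite_toSet).subset fun x hx => ?_
    by_contra hxF
    apply hx
    rw [hp, hF x hxF, map_zero]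
  · intro v hv
    obtain ⟨z, rfl⟩ := hsurj v
    obtain ⟨F, hF, -⟩ := Grade_sum L ι z
    rw [← hF, map_sum]
    apply Finset.sum_eq_zero
    intro x _
    rw [← hp]
    exact hv x
  · intro x v
    obtain ⟨z, rfl⟩ := hsurj v
    rw [hp, hp]
    congr 1
    funext i
    exact Grade_idem L x (z i)
  · intro x y v hxy
    obtain ⟨z, rfl⟩ := hsurj v
    rw [hp, hp]
    have h1 : Grade_Q L ι x (Grade_Q L ι y z) = 0 := by
      funext i
      exact Grade_orth L x y hxy (z i)
    rw [h1, map_zero]
  · intro g x v
    obtain ⟨z, rfl⟩ := hsurj v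
    have h1 : (cok (matHom M)).ρ g ((cokProj (matHom M)).hom z) =
        (cokProj (matHom M)).hom ((piRep G ι).ρ g z) := (Rep.hom_comm_apply (cokProj (matHom M)) g z).symm
    have h2 : (cok (matHom M)).ρ g ((cokProj (matHom M)).hom (Grade_Q L ι x z)) =
        (cokProj (matHom M)).hom ((piRep G ι).ρ g (Grade_Q L ι x z)) :=
      (Rep.hom_comm_apply (cokProj (matHom M)) g (Grade_Q L ι x z)).symm
    rw [h1, hp, hp, h2]
    congr 1
    funext i
    show Grade_q L (g • x) (u g * z i) = u g * Grade_q L x (z i)
    exact Grade_equiv L g x (z i)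
  · intro v hv
    obtain ⟨x, rfl⟩ := hsurj v
    obtain ⟨b, hb⟩ := hinv x (fun n hnN => by
      have h1 := hv n hnN
      have h2 : (cok (matHom M)).ρ n ((cokProj (matHom M)).hom x) =
        (cokProj (matHom M)).hom ((piRep G ι).ρ n x) :=
        (Rep.hom_comm_apply (cokProj (matHom M)) n x).symm
      rw [h2] at h1
      have h3 : (cokProj (matHom M)).hom ((piRep G ι).ρ n x - x) = 0 := by
        rw [map_sub, h1, sub_self]
      obtain ⟨b, hb⟩ := (cokProj_eq_zero (matHom M) _).1 h3
      refine ⟨b, fun i => ?_⟩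
      have h4 := congrFun hb i
      rw [matHom_apply] at h4
      rw [h4]
      show (u n - 1) * x i = u n * x i - x i
      rw [sub_mul, one_mul])
    exact (cokProj_eq_zero (matHom M) _).2 ⟨b, by
      funext i
      rw [matHom_apply]
      exact (hb i).symm⟩

end Pool.Agent.PDN
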