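import Pool.Agent.PD3.Perm

/-!
# HLes: element-wise long exact sequence in group homology

Copy `SES.les` of PD3.Base with `groupHomology.mapShortComplex₁_exact` (exactness at `H_i(A)`:
`H_{i+1}(C) → H_i(A) → H_i(B)`) and `mapShortComplex₃_exact` (exactness at `H_{i+1}(C)`).
-/

open CategoryTheory

namespace Pool.Agent.PDN

open Pool.Agent.PD3

/-- the `i`-th homology group as a type -/
noncomputable abbrev hh {k Γ : Type} [CommRing k] [Group Γ] (M : Rep.{0} k Γ) (i : ℕ) : Type :=
  (groupHomology M i : ModuleCat k)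

/-- the induced map in homology -/
noncomputable def hm {k Γ : Type} [CommRing k] [Group Γ] {M M' : Rep.{0} k Γ} (f : M ⟶ M')
    (i : ℕ) : hh M i →ₗ[k] hh M' i :=
  ((groupHomology.functor k Γ i).map f).hom

variable {k Γ : Type} [CommRing k] [Group Γ]

theorem hles {A B C : Rep.{0} k Γ} {f : A ⟶ B} {g : B ⟶ C} (h : SES f g) (i : ℕ) :
    ∃ δ : hh C (i + 1) →ₗ[k] hh A i,
      (∀ x : hh C (i + 1), δ x = 0 ↔ ∃ y, hm g (i + 1) y = x) ∧
      (∀ x : hh A i, hm f i x = 0 ↔ ∃ y, δ y = x) := by
  obtain ⟨w, hX⟩ := h.shortExact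
  refine ⟨(groupHomology.δ hX (i + 1) i rfl).hom, ?_, ?_⟩
  · intro x
    have h3 := groupHomology.mapShortComplex₃_exact hX (i := i + 1) (j := i) rfl
    have h3' := (ShortComplex.moduleCat_exact_iff _).1 h3
    constructor
    · intro hx
      exact h3' x hx
    · rintro ⟨y, rfl⟩
      have := congrArg (fun φ => φ.hom y)
        (groupHomology.mapShortComplex₃ hX (i := i + 1) (j := i) rfl).zero
      exact this
  · intro x
    have h1 := groupHomology.mapShortComplex₁_exact hX (i := i + 1) (j := i) rfl
    have h1' := (ShortComplex.moduleCat_exact_iff _).1 h1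
    constructor
    · intro hx
      exact h1' x hx
    · rintro ⟨y, rfl⟩
      have := congrArg (fun φ => φ.hom y)
        (groupHomology.mapShortComplex₁ hX (i := i + 1) (j := i) rfl).zero
      exact this

end Pool.Agent.PDN
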