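import Pool.Agent.PDN.HLes
import Pool.Agent.PDN.RepDefs

/-!
# HomA: homology of free modules, and `H_0`

* `h1_free`: `H_1(Γ; ℤ[Γ]) = 0`.  `groupHomology.H1_induction_on`, `H1π_eq_zero_iff`.  Contraction:
  `d₁₀ (single g a) = ρ(g⁻¹) a - a`, `d₂₁ (single (g,h) a) = single h (ρ(g⁻¹) a) - single (g h) a + single g a`
  (check the signs in `groupHomology.d₁₀_single`, `d₂₁_single`).  Let `s₀ (x) = single x⁻¹ 1`,
  `s₁ (single g x) = single (x⁻¹, g) 1` (`x ∈ Γ` a basis element of `ℤ[Γ]`), then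
  `d₂₁ (s₁ z) = z - s₀ (d₁₀ z)`; so a cycle `z` is the boundary of `s₁ z`.
* `h0_ker`: for `M : Rep ℤ Γ` and `m : M`, if the class of `m` in `H_0` vanishes then `m` is in the span of
  the elements `ρ g x - x` (`groupHomology.H0Iso`, `Representation.Coinvariants.ker`).
`c0 m` below is the class of `m` in `H_0` (`groupHomology.H0π`).
-/

open CategoryTheory

namespace Pool.Agent.PDN

open Pool.Agent.PD3

section

variable {k Γ : Type} [CommRing k] [Group Γ]

/-- the class of an element in `H_0` -/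
noncomputable def c0 (M : Rep.{0} k Γ) : M.V →ₗ[k] hh M 0 := (groupHomology.H0π M).hom

theorem c0_nat {M M' : Rep.{0} k Γ} (f : M ⟶ M') (m : M.V) : hm f 0 (c0 M m) = c0 M' (f.hom m) := by
  have h := groupHomology.H0π_comp_map (MonoidHom.id Γ) f
  exact congrArg (fun φ => φ.hom m) h

theorem HomA_zero_iff (M : Rep.{0} k Γ) (m : M.V) :
    c0 M m = 0 ↔ m ∈ Representation.Coinvariants.ker M.ρ := by
  have h := groupHomology.H0π_comp_H0Iso_hom M
  have h1 : (groupHomology.H0Iso M).hom.hom (c0 M m) = Representation.Coinvariants.mk M.ρ m :=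
    congrArg (fun φ => φ.hom m) h
  rw [← Representation.Coinvariants.mk_eq_zero, ← h1]
  constructor
  · intro h2
    rw [h2, map_zero]
  · intro h2
    have h3 : Function.Injective (groupHomology.H0Iso M).hom.hom :=
      (ModuleCat.mono_iff_injective _).1 inferInstance
    apply h3
    rw [h2, map_zero]

theorem c0_rho (M : Rep.{0} k Γ) (g : Γ) (m : M.V) : c0 M (M.ρ g m) = c0 M m := by
  rw [← sub_eq_zero, ← map_sub, HomA_zero_iff]
  exact Representation.Coinvariants.sub_mem_ker g m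

theorem c0_ker (M : Rep.{0} k Γ) (m : M.V) (h : c0 M m = 0) :
    m ∈ Submodule.span k {z : M.V | ∃ (g : Γ) (x : M.V), z = M.ρ g x - x} := by
  rw [HomA_zero_iff] at h
  refine Submodule.span_mono ?_ h
  rintro _ ⟨⟨g, x⟩, rfl⟩
  exact ⟨g, x, rfl⟩

end

/-- the contraction in degree `0` -/
noncomputable def HomA_s0 (Γ : Type) [Group Γ] : RR Γ →+ (Γ →₀ (Rep.leftRegular ℤ Γ).V) :=
  (Finsupp.liftAddHom (fun x : Γ =>
    (Finsupp.singleAddHom x⁻¹ : (Rep.leftRegular ℤ Γ).V →+ (Γ →₀ (Rep.leftRegular ℤ Γ).V)).comp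
    { toFun := fun n : ℤ => (MonoidAlgebra.single (1 : Γ) n : RR Γ)
      map_zero' := MonoidAlgebra.single_zero _
      map_add' := fun _ _ => MonoidAlgebra.single_add _ _ _ })).comp
    (MonoidAlgebra.coeffLinearEquiv ℤ : RR Γ ≃ₗ[ℤ] (Γ →₀ ℤ)).toLinearMap.toAddMonoidHom

theorem HomA_s0_single {Γ : Type} [Group Γ] (x : Γ) (n : ℤ) :
    HomA_s0 Γ (MonoidAlgebra.single x n : RR Γ) =
      Finsupp.single x⁻¹ (MonoidAlgebra.single (1 : Γ) n : RR Γ) := by
  show Finsupp.liftAddHom _ (Finsupp.single x n) = _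
  rw [Finsupp.liftAddHom_apply_single]
  rfl

theorem HomA_key {Γ : Type} [Group Γ] (z : Γ →₀ (Rep.leftRegular ℤ Γ).V) :
    ∃ y : Γ × Γ →₀ (Rep.leftRegular ℤ Γ).V,
      (groupHomology.d₂₁ (Rep.leftRegular ℤ Γ)).hom y =
        z - HomA_s0 Γ ((groupHomology.d₁₀ (Rep.leftRegular ℤ Γ)).hom z) := by
  induction z using Finsupp.induction_linear with
  | zero =>
    refine ⟨0, ?_⟩
    rw [map_zero, map_zero]
    have : HomA_s0 Γ (0 : RR Γ) = 0 := map_zero _
    exact (show (0 : Γ →₀ (Rep.leftRegular ℤ Γ).V) = 0 - HomA_s0 Γ (0 : RR Γ) by rw [this, sub_zero])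
  | add f g hf hg =>
    obtain ⟨a, ha⟩ := hf
    obtain ⟨b, hb⟩ := hg
    refine ⟨a + b, ?_⟩
    rw [map_add, ha, hb, map_add]
    have : HomA_s0 Γ ((groupHomology.d₁₀ (Rep.leftRegular ℤ Γ)).hom f +
      (groupHomology.d₁₀ (Rep.leftRegular ℤ Γ)).hom g) = _ := map_add (HomA_s0 Γ) _ _
    rw [this]
    abel
  | single g v =>
    have key : ∀ v : RR Γ, ∃ y : Γ × Γ →₀ (Rep.leftRegular ℤ Γ).V,
      (groupHomology.d₂₁ (Rep.leftRegular ℤ Γ)).hom y =
        Finsupp.single g v - HomA_s0 Γ ((groupHomology.d₁₀ (Rep.leftRegular ℤ Γ)).hom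
          (Finsupp.single g v)) := by
      intro v
      induction v using MonoidAlgebra.induction_linear with
      | zero =>
        refine ⟨0, ?_⟩
        have h1 : Finsupp.single g (0 : RR Γ) = 0 := Finsupp.single_zero g
        rw [h1, map_zero]
        have h2 : (groupHomology.d₁₀ (Rep.leftRegular ℤ Γ)).hom (0 : Γ →₀ RR Γ) = 0 := map_zero _
        rw [h2]
        have : HomA_s0 Γ (0 : RR Γ) = 0 := map_zero _
        exact (show (0 : Γ →₀ (Rep.leftRegular ℤ Γ).V) = 0 - HomA_s0 Γ (0 : RR Γ) by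
          rw [this, sub_zero])
      | add f h hf hh =>
        obtain ⟨a, ha⟩ := hf
        obtain ⟨b, hb⟩ := hh
        refine ⟨a + b, ?_⟩
        have h1 : Finsupp.single g (f + h : RR Γ) = Finsupp.single g f + Finsupp.single g h :=
          Finsupp.single_add g f h
        rw [h1, map_add, ha, hb]
        have h2 : (groupHomology.d₁₀ (Rep.leftRegular ℤ Γ)).hom
          (Finsupp.single g f + Finsupp.single g h : Γ →₀ RR Γ) =
          (groupHomology.d₁₀ (Rep.leftRegular ℤ Γ)).hom (Finsupp.single g f) +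
          (groupHomology.d₁₀ (Rep.leftRegular ℤ Γ)).hom (Finsupp.single g h) := map_add _ _ _
        rw [h2]
        have : HomA_s0 Γ ((groupHomology.d₁₀ (Rep.leftRegular ℤ Γ)).hom (Finsupp.single g f) +
          (groupHomology.d₁₀ (Rep.leftRegular ℤ Γ)).hom (Finsupp.single g h)) = _ :=
          map_add (HomA_s0 Γ) _ _
        rw [this]
        abel
      | single x n =>
        refine ⟨Finsupp.single (x⁻¹, g) (MonoidAlgebra.single (1 : Γ) n : RR Γ), ?_⟩
        have e1 : (groupHomology.d₂₁ (Rep.leftRegular ℤ Γ)).hom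
            (Finsupp.single (x⁻¹, g) (MonoidAlgebra.single (1 : Γ) n : RR Γ)) =
            Finsupp.single g ((Rep.leftRegular ℤ Γ).ρ x⁻¹⁻¹ (MonoidAlgebra.single (1 : Γ) n : RR Γ)) -
            Finsupp.single (x⁻¹ * g) (MonoidAlgebra.single (1 : Γ) n : RR Γ) +
            Finsupp.single x⁻¹ (MonoidAlgebra.single (1 : Γ) n : RR Γ) :=
          groupHomology.d₂₁_single (A := Rep.leftRegular ℤ Γ) (x⁻¹, g) _
        have e2 : (groupHomology.d₁₀ (Rep.leftRegular ℤ Γ)).hom
            (Finsupp.single g (MonoidAlgebra.single x n : RR Γ)) =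
            (Rep.leftRegular ℤ Γ).ρ g⁻¹ (MonoidAlgebra.single x n : RR Γ) -
              (MonoidAlgebra.single x n : RR Γ) :=
          groupHomology.d₁₀_single (Rep.leftRegular ℤ Γ) g _
        rw [e1, e2, lr_rho, lr_rho, inv_inv, mul_one]
        have e3 : HomA_s0 Γ ((MonoidAlgebra.single (g⁻¹ * x) n : RR Γ) -
            (MonoidAlgebra.single x n : RR Γ)) = _ := map_sub (HomA_s0 Γ) _ _
        refine Eq.trans ?_ (congrArg (fun t => (Finsupp.single g (MonoidAlgebra.single x n : RR Γ) :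
          Γ →₀ (Rep.leftRegular ℤ Γ).V) - t) e3).symm
        rw [HomA_s0_single, HomA_s0_single, mul_inv_rev, inv_inv]
        abel
    exact key v

theorem h1_free {Γ : Type} [Group Γ] (x : hh (Rep.leftRegular ℤ Γ) 1) : x = 0 := by
  induction x using groupHomology.H1_induction_on with
  | h z =>
    refine (groupHomology.H1π_eq_zero_iff z).2 ?_
    obtain ⟨y, hy⟩ := HomA_key z.1
    refine ⟨y, ?_⟩
    have hz : (groupHomology.d₁₀ (Rep.leftRegular ℤ Γ)).hom z.1 = 0 := z.2
    rw [hz] at hy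
    rw [hy]
    have : HomA_s0 Γ (0 : RR Γ) = 0 := map_zero _
    exact (show z.1 - HomA_s0 Γ (0 : RR Γ) = z.1 by rw [this, sub_zero])

end Pool.Agent.PDN
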