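import Pool.Agent.PDN.E12
import Pool.Agent.PDN.E3
import Pool.Agent.PDN.Grade
import Pool.Agent.PDN.Core

/-!
# MatD: the matrix of `bet`, and the contradiction for given data
-/

open CategoryTheory

namespace Pool.Agent.PDN

open Pool.Agent.PD3

variable {G : Type} [Group G]

/-- the row `(t - 1, n_j - 1)` -/
noncomputable def rowV (D : Dat G) : Option D.ι → RR G
  | none => u D.t - 1
  | some j => u (D.n j) - 1

/-- the matrix of `bet` -/
noncomputable def matD (D : Dat G) : Option D.ι → D.ι → RR G
  | none, i => 1 - u (D.w i)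
  | some k, i => (if k = i then u D.t else 0) - D.Lam k i

theorem sum_matD (D : Dat G) (z : Option D.ι → RR G) (i : D.ι) :
    ∑ k, z k * matD D k i = D.bet (z none) (fun j => z (some j)) i := by
  rw [Fintype.sum_option]
  show z none * (1 - u (D.w i)) + ∑ k, z (some k) * ((if k = i then u D.t else 0) - D.Lam k i) =
    z none * (1 - u (D.w i)) + z (some i) * u D.t - ∑ j, z (some j) * D.Lam j i
  simp only [mul_sub, Finset.sum_sub_distrib, mul_ite, mul_zero, Finset.sum_ite_eq',
    Finset.mem_univ, if_true]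
  abel

/-- the supports of the entries are in `L` -/
theorem matD_supp (D : Dat G) (k : Option D.ι) (i : D.ι) (g : G)
    (hg : (matD D k i).coeff g ≠ 0) : g ∈ D.N ⊔ Subgroup.zpowers D.t := by
  have hu : ∀ (m g : G), (u m).coeff g ≠ 0 → g = m := by
    intro m g h
    by_contra hne
    apply h
    show (MonoidAlgebra.single m (1 : ℤ)).coeff g = 0
    rw [MonoidAlgebra.coeff_single]
    exact Finsupp.single_eq_of_ne hne
  rcases k with _ | k
  · have h2 : (1 : RR G).coeff g ≠ 0 ∨ (u (D.w i)).coeff g ≠ 0 := by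
      by_contra hcon
      push Not at hcon
      apply hg
      show (1 - u (D.w i)).coeff g = 0
      rw [MonoidAlgebra.coeff_sub, Finsupp.sub_apply, hcon.1, hcon.2, sub_zero]
    rcases h2 with h2 | h2
    · have := hu 1 g (by rw [u_one]; exact h2)
      rw [this]
      exact Subgroup.one_mem _
    · have := hu _ g h2
      rw [this]
      exact Subgroup.mem_sup_left (D.w_mem i)
  · have h2 : ((if k = i then u D.t else 0 : RR G)).coeff g ≠ 0 ∨ (D.Lam k i).coeff g ≠ 0 := by
      by_contra hcon
      push Not at hcon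
      apply hg
      show ((if k = i then u D.t else 0 : RR G) - D.Lam k i).coeff g = 0
      rw [MonoidAlgebra.coeff_sub, Finsupp.sub_apply, hcon.1, hcon.2, sub_zero]
    rcases h2 with h2 | h2
    · by_cases hki : k = i
      · rw [if_pos hki] at h2
        have := hu _ g h2
        rw [this]
        exact Subgroup.mem_sup_right (Subgroup.mem_zpowers D.t)
      · rw [if_neg hki] at h2
        exact absurd rfl h2
    · exact Subgroup.mem_sup_left (D.LamN k i g h2)

/-- the core contradiction -/
theorem core_dat (hG : IsPD3 G) (D : Dat G) (hfg : D.N.FG) (hN : Infinite D.N)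
    (hS : StarP D.N) (hL : (D.N ⊔ Subgroup.zpowers D.t).index = 0)
    (hwN : ∀ n ∈ D.N, ∀ d : HH (Rep.leftRegular ℤ G) 3, Hm (rt ℤ n) 3 d = d)
    (hwt : ∀ d : HH (Rep.leftRegular ℤ G) 3, Hm (rt ℤ D.t) 3 d = d) : False := by
  refine core_contra hG (rowV D) (matD D) ?_ ?_ ?_ ?_ ?_
  · rintro (_ | j)
    · exact ⟨D.t, rfl, hwt⟩
    · exact ⟨D.n j, rfl, hwN _ (D.n_mem j)⟩
  · intro c hc
    exact e2 D c (hc none)
  · intro i
    rw [sum_matD]
    have := congrFun (D.bet_alp 1) i
    simp only [one_mul] at this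
    exact this
  · intro b hb
    obtain ⟨c, h1, h2⟩ := e1 D hN (b none) (fun j => b (some j)) (fun i => by
      rw [← sum_matD]
      exact hb i)
    refine ⟨c, ?_⟩
    rintro (_ | j)
    · exact h1
    · exact h2 j
  · intro c
    refine grade D.N (D.N ⊔ Subgroup.zpowers D.t) D.nrm hfg le_sup_left hL (matD D)
      (fun k i g hg => matD_supp D k i g hg) ?_ c
    intro x hx
    obtain ⟨a, b, hab⟩ := e3 D hN hS x (fun n hn => by
      obtain ⟨b, hb⟩ := hx n hn
      refine ⟨b none, fun j => b (some j), ?_⟩
      funext i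
      rw [hb i, sum_matD])
    refine ⟨fun k => Option.rec a b k, fun i => ?_⟩
    rw [sum_matD]
    exact congrFun hab i

end Pool.Agent.PDN
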