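import Pool.Agent.PDN.RepDefs

/-!
# Pi: cohomology of `R^ι`

`∑ j, prj' j ≫ rowHom (Pi.single j 1) = 𝟙 (piRep G ι)`, so `c = ∑ j, Hm (rowHom ..) (Hm (prj' j) c)`
(`Hm_sum`, `Hm_comp`, `Hm_id`): `pi_zero`.  For `rowHom v` with `v j = u g_j - 1` where `rt g_j` acts
trivially on `H^i(R)`: `rowHom v ≫ prj' j = rmul (v j) = rt ℤ g_j - 𝟙` (compare at `single 1 1`,
`lr_ext`; `rt k g = ev (leftRegular) (single g 1)`), so all coordinates of `Hm (rowHom v) d` vanish.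
-/

open CategoryTheory

namespace Pool.Agent.PDN

open Pool.Agent.PD3

variable {G : Type} [Group G]

theorem Pi_sum_hom {α : Type} {A B : Rep.{0} ℤ G} (s : Finset α) (f : α → (A ⟶ B)) (x : A) :
    (∑ j ∈ s, f j).hom x = ∑ j ∈ s, (f j).hom x := FreeDec_sum_hom s f x

theorem Pi_dec {ι : Type} [Fintype ι] [DecidableEq ι] :
    ∑ j : ι, prj' (G := G) j ≫ rowHom (Pi.single j (1 : RR G)) = 𝟙 (piRep G ι) := by
  apply hom_ext'
  intro z
  rw [Pi_sum_hom]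
  funext i
  show (∑ j, (prj' (G := G) j ≫ rowHom (Pi.single j (1 : RR G))).hom z : ι → RR G) i =
    (z : ι → RR G) i
  rw [Finset.sum_apply]
  have h : ∀ j : ι, ((prj' (G := G) j ≫ rowHom (Pi.single j (1 : RR G))).hom z : ι → RR G) i =
      if j = i then (z : ι → RR G) i else 0 := by
    intro j
    show ((z : ι → RR G) j) * (Pi.single j (1 : RR G) : ι → RR G) i = _
    by_cases hj : j = i
    · subst hj
      rw [Pi.single_eq_same, mul_one, if_pos rfl]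
    · rw [if_neg hj, Pi.single_eq_of_ne (Ne.symm hj), mul_zero]
  rw [Finset.sum_congr rfl fun j _ => h j, Finset.sum_ite_eq' Finset.univ i, if_pos (Finset.mem_univ i)]

theorem Pi_ext {ι : Type} [Fintype ι] (i : ℕ) (c : HH (piRep G ι) i)
    (h : ∀ j, Hm (prj' (G := G) j) i c = 0) : c = 0 := by
  classical
  have h1 := Hm_id (piRep G ι) i c
  rw [← Pi_dec, Hm_sum] at h1
  rw [← h1]
  refine Finset.sum_eq_zero fun j _ => ?_
  rw [Hm_comp, h j, map_zero]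

theorem pi_zero (i : ℕ) (h : ∀ d : HH (Rep.leftRegular ℤ G) i, d = 0) {ι : Type} [Fintype ι]
    (c : HH (piRep G ι) i) : c = 0 :=
  Pi_ext i c fun _ => h _

theorem Pi_rmul (g : G) : rmul (u g - 1) = rt ℤ g - 𝟙 (Rep.leftRegular ℤ G) := by
  apply lr_ext
  show (u (1 : G)) * (u g - 1) = (rt ℤ g).hom (MonoidAlgebra.single (1 : G) (1 : ℤ)) -
    (MonoidAlgebra.single (1 : G) (1 : ℤ) : RR G)
  rw [ev_one]
  show (1 : RR G) * (u g - 1) = u g - 1
  rw [one_mul]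

theorem row_zero {ι : Type} [Fintype ι] (v : ι → RR G) (i : ℕ)
    (hv : ∀ j, ∃ g : G, v j = u g - 1 ∧ ∀ d : HH (Rep.leftRegular ℤ G) i, Hm (rt ℤ g) i d = d)
    (d : HH (Rep.leftRegular ℤ G) i) : Hm (rowHom v) i d = 0 := by
  apply Pi_ext
  intro j
  obtain ⟨g, hg, hd⟩ := hv j
  have h1 : rowHom v ≫ prj' (G := G) j = rt ℤ g - 𝟙 (Rep.leftRegular ℤ G) := by
    rw [← Pi_rmul, ← hg]
    apply hom_ext'
    intro m
    rfl
  rw [← Hm_comp, h1, Hm_sub, hd, Hm_id, sub_self]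

end Pool.Agent.PDN
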