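import Pool.Agent.PDN.Comp
import Pool.Agent.PDN.Alg

/-!
# Push: pushing to low degree

* `push`: every `z` is congruent modulo `bet 0 _` to a homogeneous element of degree `m`, for every
  small `m`.  Take `m` at most all degrees of `z` (`comp_bd`).  Induction on `d : ℕ` for: if
  `comp k (z i) = 0` unless `m ≤ k ≤ m + d` then `∃ z' b`, `z'` homogeneous of degree `m`,
  `z = z' + bet 0 b`.  `d = 0`: `z' = z` (`z i = comp m (z i)`, as all other components vanish).
  Step: `z = top + rest` with `top i = comp (m+d+1) (z i)`, `top = tau top + bet 0 _` (`tau_bet`),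
  `tau top` homogeneous of degree `m + d` (`hg_tau`); apply the induction hypothesis to `rest + tau top`.
* `tau_kill`: if `z` is homogeneous of degree `m` and `z = bet 0 b` then `tau^k z = 0` for some `k`.
  First (Q0): all components of `b` of degree `≥ m` vanish: if not let `K ≥ m` be maximal with
  `comp K (b j) ≠ 0` for some `j` (`comp_bd`); the component of degree `K + 1` of `z = bet 0 b`
  (`comp_bet`) gives `comp K (b i) t = comp (K+1) (z i) + ∑ comp (K+1) (b j) Lam = 0`, contradiction.
  Then induction on `d` for: if `comp k (b j) = 0` for `k < m - d` then `tau^d z = 0`.  `d = 0`: `b = 0`,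
  `z = 0`.  Step: the component of degree `m`: `comp (m-1) (b i) t = z i`; so with
  `b' = b - comp (m-1) b`, `bet 0 b' = z - bet 0 (z t⁻¹) = tau z` (`tau_bet`), homogeneous of degree
  `m - 1`.
* `kap_push`: `a κ ≡ a' κ` with `a'` homogeneous of degree `m`.  By `RR_induction` on `a` (the set of
  such `a` is closed under addition and negation); for `a = u g`: `u g κ ≡ u (g t^k) κ` for all
  `k : ℤ`, because `c t κ = c κ + c (t-1) κ` and `c (t-1) κ = - bet 0 (c (n_j - 1))` (`bet_alp`);
  take `k = m - dg g`.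
-/

open CategoryTheory

namespace Pool.Agent.PDN

open Pool.Agent.PD3

variable {G : Type} [Group G]

theorem push_coeff_add (x y : RR G) (g : G) : (x + y).coeff g = x.coeff g + y.coeff g := by
  simp

theorem push_coeff_sub (x y : RR G) (g : G) : (x - y).coeff g = x.coeff g - y.coeff g := by
  simp

theorem push_bet_zero (D : Dat G) : D.bet 0 0 = 0 := by
  have h := D.bet_sub 0 0 0 0
  simpa only [sub_self] using h

theorem push_aux (D : Dat G) (m : ℤ) (d : ℕ) : ∀ z : D.ι → RR G,
    (∀ i g, (z i).coeff g ≠ 0 → m ≤ D.dg g ∧ D.dg g ≤ m + d) →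
    ∃ z' b : D.ι → RR G, (∀ i, D.Hg m (z' i)) ∧ z = z' + D.bet 0 b := by
  induction d with
  | zero =>
    intro z hz
    refine ⟨z, 0, ?_, ?_⟩
    · intro i g hg
      have := hz i g hg
      simp only [Nat.cast_zero, add_zero] at this
      omega
    · rw [push_bet_zero, add_zero]
  | succ d ih =>
    intro z hz
    set top : D.ι → RR G := fun i => D.comp (m + d + 1) (z i) with htop
    have htopH : ∀ i, D.Hg (m + d + 1) (top i) := fun i => D.hg_comp _ _
    have htau : ∀ i, D.Hg (m + d) (D.tau top i) := by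
      intro i
      have := D.hg_tau (m + d + 1) top htopH i
      rwa [add_sub_cancel_right] at this
    obtain ⟨z', b, hz', hb⟩ := ih ((z - top) + D.tau top) (by
      intro i g hg
      by_cases h1 : (D.tau top i).coeff g = 0
      · have h2 : ((z i) - (top i)).coeff g ≠ 0 := by
          intro h3
          apply hg
          show ((z i - top i) + D.tau top i).coeff g = 0
          rw [push_coeff_add, h3, h1, add_zero]
        rw [push_coeff_sub] at h2
        have h3 : (top i).coeff g = if D.dg g = m + d + 1 then (z i).coeff g else 0 :=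
          D.comp_coeff _ _ _
        rw [h3] at h2
        split_ifs at h2 with h4
        · exact absurd (sub_self _) h2
        · rw [sub_zero] at h2
          have := hz i g h2
          push_cast at this
          omega
      · have := htau i g h1
        omega)
    refine ⟨z', b + (fun j => top j * u D.t⁻¹), hz', ?_⟩
    have h1 := D.tau_bet top
    have h2 := D.bet_add 0 0 b (fun j => top j * u D.t⁻¹)
    rw [add_zero] at h2
    rw [h2, ← add_assoc, ← hb]
    calc z = (z - top) + top := by rw [sub_add_cancel]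
      _ = (z - top) + (D.tau top + D.bet 0 (fun j => top j * u D.t⁻¹)) := by rw [← h1]
      _ = _ := by rw [add_assoc]

theorem push (D : Dat G) (z : D.ι → RR G) : ∃ (m : ℤ) (z' b : D.ι → RR G),
    (∀ i, D.Hg m (z' i)) ∧ z = z' + D.bet 0 b := by
  choose K hK using fun i => D.comp_bd (z i)
  set M : ℕ := ∑ i, K i with hM
  have hle : ∀ i, K i ≤ M := fun i =>
    Finset.single_le_sum (f := K) (fun _ _ => Nat.zero_le _) (Finset.mem_univ i)
  obtain ⟨z', b, h1, h2⟩ := push_aux D (-(M : ℤ)) (2 * M) z (by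
    intro i g hg
    have hne : D.comp (D.dg g) (z i) ≠ 0 := by
      intro h0
      apply hg
      have h3 := D.comp_coeff (D.dg g) (z i) g
      rw [if_pos rfl] at h3
      rw [← h3, h0]
      rfl
    have h4 := hK i _ hne
    have h5 := hle i
    push_cast
    omega)
  exact ⟨_, z', b, h1, h2⟩

theorem push_mul_t_zero (D : Dat G) (x : RR G) (h : x * u D.t = 0) : x = 0 := by
  have h1 : x * u D.t * u D.t⁻¹ = 0 := by rw [h, zero_mul]
  rwa [mul_assoc, u_mul_inv, mul_one] at h1

theorem tau_kill_top (D : Dat G) (m : ℤ) (z b : D.ι → RR G) (hz : ∀ i, D.Hg m (z i))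
    (h : z = D.bet 0 b) : ∀ k, m ≤ k → ∀ i, D.comp k (b i) = 0 := by
  choose K hK using fun i => D.comp_bd (b i)
  set M : ℕ := ∑ i, K i with hM
  have hle : ∀ i, K i ≤ M := fun i =>
    Finset.single_le_sum (f := K) (fun _ _ => Nat.zero_le _) (Finset.mem_univ i)
  have key : ∀ n : ℕ, ∀ k, m ≤ k → (M : ℤ) - n < k → ∀ i, D.comp k (b i) = 0 := by
    intro n
    induction n with
    | zero =>
      intro k _ hk i
      by_contra hne
      have h1 := hK i k hne
      have h2 := hle i
      simp only [Nat.cast_zero, sub_zero] at hk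
      omega
    | succ n ih =>
      intro k hmk hk i
      have hnext : ∀ j, D.comp (k + 1) (b j) = 0 := by
        intro j
        apply ih (k + 1) (by omega)
        push_cast at hk
        omega
      have h1 := D.comp_bet (k + 1) 0 b i
      rw [← h, D.comp_of_hg_ne m (k + 1) (z i) (hz i) (by omega), D.comp_zero, zero_mul, zero_add,
        add_sub_cancel_right] at h1
      have h2 : ∑ j, D.comp (k + 1) (b j) * D.Lam j i = 0 := by
        apply Finset.sum_eq_zero
        intro j _
        rw [hnext j, zero_mul]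
      rw [h2, sub_zero] at h1
      exact push_mul_t_zero D _ h1.symm
  intro k hk i
  exact key ((M : ℤ) - k + 1).toNat k hk (by omega) i

theorem tau_kill_aux (D : Dat G) (d : ℕ) : ∀ (m : ℤ) (z b : D.ι → RR G),
    (∀ i, D.Hg m (z i)) → z = D.bet 0 b → (∀ k, m ≤ k → ∀ i, D.comp k (b i) = 0) →
    (∀ k, k < m - d → ∀ i, D.comp k (b i) = 0) → D.tau^[d] z = 0 := by
  induction d with
  | zero =>
    intro m z b _ h h1 h2
    have hb : b = 0 := by
      funext i
      apply D.comp_all_zero
      intro k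
      by_cases hk : m ≤ k
      · exact h1 k hk i
      · apply h2 k
        simp only [Nat.cast_zero, sub_zero]
        omega
    rw [Function.iterate_zero, id_eq, h, hb, push_bet_zero]
  | succ d ih =>
    intro m z b hz h h1 h2
    rw [Function.iterate_succ_apply]
    have hm1 : ∀ i, D.comp (m - 1) (b i) * u D.t = z i := by
      intro i
      have h3 := D.comp_bet m 0 b i
      rw [← h, D.comp_of_hg m (z i) (hz i), D.comp_zero, zero_mul, zero_add] at h3
      have h4 : ∑ j, D.comp m (b j) * D.Lam j i = 0 := by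
        apply Finset.sum_eq_zero
        intro j _
        rw [h1 m le_rfl j, zero_mul]
      rw [h4, sub_zero] at h3
      exact h3.symm
    have hm2 : ∀ i, D.comp (m - 1) (b i) = z i * u D.t⁻¹ := by
      intro i
      rw [← hm1 i, mul_assoc, u_mul_inv, mul_one]
    apply ih (m - 1) (D.tau z) (fun j => b j - D.comp (m - 1) (b j))
    · exact D.hg_tau m z hz
    · have h5 := D.tau_bet z
      have h6 := D.bet_sub 0 0 b (fun j => D.comp (m - 1) (b j))
      rw [sub_zero] at h6
      have h7 : (fun j => b j - D.comp (m - 1) (b j)) = b - (fun j => D.comp (m - 1) (b j)) := rfl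
      rw [h7, h6, ← h]
      have h8 : (fun j => D.comp (m - 1) (b j)) = (fun j => z j * u D.t⁻¹) := funext hm2
      rw [h8]
      rw [eq_sub_iff_add_eq]
      exact h5.symm
    · intro k hk i
      rw [D.comp_sub]
      by_cases hk2 : k = m - 1
      · subst hk2
        rw [D.comp_of_hg _ _ (D.hg_comp _ _), sub_self]
      · rw [h1 k (by omega) i, D.comp_of_hg_ne (m - 1) k _ (D.hg_comp _ _) (by omega), sub_zero]
    · intro k hk i
      have h9 : k < m - (d + 1 : ℕ) := by
        push_cast
        omega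
      rw [D.comp_sub, h2 k h9 i, D.comp_of_hg_ne (m - 1) k _ (D.hg_comp _ _) (by omega), sub_zero]

theorem tau_kill (D : Dat G) (m : ℤ) (z b : D.ι → RR G) (hz : ∀ i, D.Hg m (z i))
    (h : z = D.bet 0 b) : ∃ k : ℕ, D.tau^[k] z = 0 := by
  choose K hK using fun i => D.comp_bd (b i)
  set M : ℕ := ∑ i, K i with hM
  have hle : ∀ i, K i ≤ M := fun i =>
    Finset.single_le_sum (f := K) (fun _ _ => Nat.zero_le _) (Finset.mem_univ i)
  refine ⟨(m + M).toNat, tau_kill_aux D _ m z b hz h (tau_kill_top D m z b hz h) ?_⟩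
  intro k hk i
  by_contra hne
  have h1 := hK i k hne
  have h2 := hle i
  omega

theorem kap_push_t (D : Dat G) (c : RR G) :
    D.bet (c * u D.t) 0 = D.bet c 0 + D.bet 0 (fun j => -(c * (u (D.n j) - 1))) := by
  have h1 := D.bet_alp c
  have h2 := D.bet_add c (c * (u D.t - 1)) 0 (fun j => c * (u (D.n j) - 1))
  rw [h1, add_zero] at h2
  have h3 := D.bet_add (c + c * (u D.t - 1)) 0 (0 + fun j => c * (u (D.n j) - 1))
    (fun j => -(c * (u (D.n j) - 1)))
  rw [h2] at h3
  rw [← h3]
  congr 1
  · rw [mul_sub, mul_one, add_zero, add_sub_cancel]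
  · funext j
    simp

theorem kap_push_zpow (D : Dat G) (g : G) (k : ℤ) :
    ∃ b : D.ι → RR G, D.bet (u g) 0 = D.bet (u (g * D.t ^ k)) 0 + D.bet 0 b := by
  induction k using Int.induction_on with
  | zero =>
    refine ⟨0, ?_⟩
    rw [zpow_zero, mul_one, push_bet_zero, add_zero]
  | succ k ih =>
    obtain ⟨b, hb⟩ := ih
    have h1 := kap_push_t D (u (g * D.t ^ (k : ℤ)))
    rw [← u_mul, mul_assoc, ← zpow_add_one] at h1
    refine ⟨b - (fun j => -(u (g * D.t ^ (k : ℤ)) * (u (D.n j) - 1))), ?_⟩
    have h2 := D.bet_sub 0 0 b (fun j => -(u (g * D.t ^ (k : ℤ)) * (u (D.n j) - 1)))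
    rw [sub_zero] at h2
    rw [h1, h2, hb]
    abel
  | pred k ih =>
    obtain ⟨b, hb⟩ := ih
    have h1 := kap_push_t D (u (g * D.t ^ (-(k : ℤ) - 1)))
    rw [← u_mul, mul_assoc, ← zpow_add_one, sub_add_cancel] at h1
    refine ⟨b + (fun j => -(u (g * D.t ^ (-(k : ℤ) - 1)) * (u (D.n j) - 1))), ?_⟩
    have h2 := D.bet_add 0 0 b (fun j => -(u (g * D.t ^ (-(k : ℤ) - 1)) * (u (D.n j) - 1)))
    rw [add_zero] at h2
    rw [hb, h1, h2]
    abel

theorem kap_push (D : Dat G) (a : RR G) (m : ℤ) : ∃ (a' : RR G) (b : D.ι → RR G),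
    D.Hg m a' ∧ D.bet a 0 = D.bet a' 0 + D.bet 0 b := by
  induction a using RR_induction with
  | h0 =>
    refine ⟨0, 0, D.hg_zero m, ?_⟩
    rw [push_bet_zero, add_zero]
  | hadd x y hx hy =>
    obtain ⟨a1, b1, h1, h2⟩ := hx
    obtain ⟨a2, b2, h3, h4⟩ := hy
    refine ⟨a1 + a2, b1 + b2, D.hg_add m a1 a2 h1 h3, ?_⟩
    have e1 := D.bet_add x y 0 0
    have e2 := D.bet_add a1 a2 0 0
    have e3 := D.bet_add 0 0 b1 b2
    rw [add_zero] at e1 e2 e3
    rw [e1, e2, e3, h2, h4]
    abel
  | hneg x hx =>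
    obtain ⟨a1, b1, h1, h2⟩ := hx
    refine ⟨0 - a1, 0 - b1, D.hg_sub m 0 a1 (D.hg_zero m) h1, ?_⟩
    have e1 := D.bet_sub 0 x 0 0
    have e2 := D.bet_sub 0 a1 0 0
    have e3 := D.bet_sub 0 0 0 b1
    rw [sub_zero] at e1 e2 e3
    rw [push_bet_zero] at e1 e2 e3
    rw [zero_sub] at e1
    rw [e1, e2, e3, h2]
    abel
  | hu g =>
    obtain ⟨b, hb⟩ := kap_push_zpow D g (m - D.dg g)
    refine ⟨u (g * D.t ^ (m - D.dg g)), b, ?_, hb⟩
    intro h hne
    have h1 : h = g * D.t ^ (m - D.dg g) := by
      by_contra hcon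
      apply hne
      rw [MonoidAlgebra.coeff_single, Finsupp.single_eq_of_ne hcon]
    rw [h1, D.dgt_zpow]
    ring

end Pool.Agent.PDN
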