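import Pool.Agent.PD3.TransA
import Pool.Agent.PD3.DerBase

/-!
# Rex: exact sequences of permutation modules for a cyclic extension

`N'` normal in `G`, `c : G`, `L = N' ⊔ zpowers c`, `q = (c : G ⧸ N')`; `rm N' q` is right multiplication
by `q` on `ℤ[G/N']`.  The fibres of `G/N' → G/L` are the sets `{x q^k}` (`k : ℤ`).
* `rex_prj`: `x q` and `x` have the same image in `G/L`.
* `rex_exact`: with `s` a section of `G/N' → G/L` (`Function.surjInv (cosetMap_surj hle)`):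
  `v = ∑ v(x) x = ∑ v(x) (x - s(x̄)) + s_*(prj v)` and `x - s(x̄) = s(x̄)(q^k - 1)` is in the range of
  `rm q - 1` for all `k : ℤ` (induction on `k`).
* `rex_fin`: `v (x q) = v x` for all `x`, so `v` is constant on the fibres, hence `v = trf w` with
  `w y = v (s y)` (finite support: `Finsupp.comapDomain`, compare `inv_trf` in DerBase).
* `rex_inf`: if all `c^k`, `k ≠ 0`, are outside `N'` then `v (x q^k) = v x` for all `k`, infinitely many
  points, so `v = 0`.
-/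

open CategoryTheory

namespace Pool.Agent.PDN

open Pool.Agent.PD3

variable {G : Type} [Group G]

theorem prj_surj {L' L : Subgroup G} (h : L' ≤ L) : Function.Surjective (prj (G := G) ℤ ℤ h).hom := by
  intro y
  have hs := cosetMap_surj h
  refine ⟨Finsupp.mapDomain (Function.surjInv hs) (y : (G ⧸ L) →₀ ℤ), ?_⟩
  show Finsupp.mapDomain (Subgroup.quotientMapOfLE h)
    (Finsupp.mapDomain (Function.surjInv hs) (y : (G ⧸ L) →₀ ℤ)) = y
  rw [← Finsupp.mapDomain_comp]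
  have : (Subgroup.quotientMapOfLE h ∘ Function.surjInv hs) = id := by
    funext z
    exact Function.surjInv_eq hs z
  rw [this, Finsupp.mapDomain_id]

/-- The value of `rm q - 1`. -/
theorem Rex_apply (N' : Subgroup G) [N'.Normal] (q : G ⧸ N') (v : (G ⧸ N') →₀ ℤ) :
    ((rm N' q - 𝟙 _).hom v : (G ⧸ N') →₀ ℤ) = Finsupp.mapDomain (fun x => x * q) v - v := rfl

theorem Rex_mapDomain (N' : Subgroup G) [N'.Normal] (q : G ⧸ N') (v : (G ⧸ N') →₀ ℤ)
    (x : G ⧸ N') : Finsupp.mapDomain (fun x => x * q) v x = v (x * q⁻¹) := by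
  have h1 : x = (x * q⁻¹) * q := by group
  conv_lhs => rw [h1]
  exact Finsupp.mapDomain_apply (mul_left_injective q) v (x * q⁻¹)

/-- The fibres of `G/N' → G/L`. -/
theorem Rex_fibre (N' L : Subgroup G) [N'.Normal] (c : G) (hL : L = N' ⊔ Subgroup.zpowers c)
    (hle : N' ≤ L) (x y : G ⧸ N')
    (h : Subgroup.quotientMapOfLE hle x = Subgroup.quotientMapOfLE hle y) :
    ∃ k : ℤ, y = x * (c : G ⧸ N') ^ k := by
  induction x using QuotientGroup.induction_on with
  | H a =>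
    induction y using QuotientGroup.induction_on with
    | H b =>
      have h1 : ((a : G) : G ⧸ L) = (b : G ⧸ L) := h
      rw [QuotientGroup.eq, hL] at h1
      have h2 : a⁻¹ * b ∈ (↑(N' ⊔ Subgroup.zpowers c) : Set G) := h1
      rw [Subgroup.normal_mul] at h2
      obtain ⟨n, hn, m, hm, hnm⟩ := Set.mem_mul.1 h2
      obtain ⟨k, rfl⟩ := Subgroup.mem_zpowers_iff.1 hm
      refine ⟨k, ?_⟩
      have h3 : b = a * (n * c ^ k) := by rw [hnm]; group
      have h4 : ((n : G) : G ⧸ N') = 1 := (QuotientGroup.eq_one_iff n).2 hn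
      rw [h3, QuotientGroup.mk_mul, QuotientGroup.mk_mul, h4, one_mul, QuotientGroup.mk_zpow]

theorem Rex_same (N' L : Subgroup G) [N'.Normal] (c : G) (hL : L = N' ⊔ Subgroup.zpowers c)
    (hle : N' ≤ L) (x : G ⧸ N') :
    Subgroup.quotientMapOfLE hle (x * (c : G ⧸ N')) = Subgroup.quotientMapOfLE hle x := by
  induction x using QuotientGroup.induction_on with
  | H a =>
    show ((a * c : G) : G ⧸ L) = (a : G ⧸ L)
    rw [QuotientGroup.eq]
    have h1 : (a * c)⁻¹ * a = c⁻¹ := by group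
    rw [h1, hL]
    exact Subgroup.mem_sup_right (Subgroup.inv_mem _ (Subgroup.mem_zpowers c))

theorem rex_prj (N' L : Subgroup G) [N'.Normal] (c : G) (hL : L = N' ⊔ Subgroup.zpowers c)
    (hle : N' ≤ L) (v : (perm (G := G) ℤ ℤ (G ⧸ N'))) :
    (prj (G := G) ℤ ℤ hle).hom ((rm N' (c : G ⧸ N') - 𝟙 _).hom v) = 0 := by
  show Finsupp.mapDomain (Subgroup.quotientMapOfLE hle)
    (Finsupp.mapDomain (fun x => x * (c : G ⧸ N')) (v : (G ⧸ N') →₀ ℤ) - v) = 0
  rw [Finsupp.mapDomain_sub, ← Finsupp.mapDomain_comp, sub_eq_zero]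
  congr 1
  funext x
  exact Rex_same N' L c hL hle x

theorem Rex_range (N' : Subgroup G) [N'.Normal] (q : G ⧸ N') (n : ℤ) (x : G ⧸ N') (k : ℤ) :
    ∃ v' : (G ⧸ N') →₀ ℤ, Finsupp.mapDomain (fun x => x * q) v' - v' =
      Finsupp.single (x * q ^ k) n - Finsupp.single x n := by
  induction k using Int.induction_on with
  | zero => exact ⟨0, by simp⟩
  | succ i ih =>
    obtain ⟨v, hv⟩ := ih
    refine ⟨v + Finsupp.single (x * q ^ (i : ℤ)) n, ?_⟩
    rw [Finsupp.mapDomain_add, Finsupp.mapDomain_single, mul_assoc, ← zpow_add_one,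
      add_sub_add_comm, hv]
    abel
  | pred i ih =>
    obtain ⟨v, hv⟩ := ih
    refine ⟨v - Finsupp.single (x * q ^ (-(i : ℤ) - 1)) n, ?_⟩
    rw [Finsupp.mapDomain_sub, Finsupp.mapDomain_single, mul_assoc, ← zpow_add_one,
      sub_add_cancel, sub_sub_sub_comm, hv]
    abel

theorem rex_exact (N' L : Subgroup G) [N'.Normal] (c : G) (hL : L = N' ⊔ Subgroup.zpowers c)
    (hle : N' ≤ L) (v : (perm (G := G) ℤ ℤ (G ⧸ N'))) (hv : (prj (G := G) ℤ ℤ hle).hom v = 0) :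
    ∃ v' : (perm (G := G) ℤ ℤ (G ⧸ N')), (rm N' (c : G ⧸ N') - 𝟙 _).hom v' = v := by
  have hs := cosetMap_surj hle
  set f : G ⧸ N' → G ⧸ L := Subgroup.quotientMapOfLE hle with hf
  set s := Function.surjInv hs with hsdef
  have claim : ∀ w : (G ⧸ N') →₀ ℤ, ∃ v' : (G ⧸ N') →₀ ℤ,
      Finsupp.mapDomain (fun x => x * (c : G ⧸ N')) v' - v' =
        w - Finsupp.mapDomain (s ∘ f) w := by
    intro w
    induction w using Finsupp.induction_linear with
    | zero => exact ⟨0, by simp⟩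
    | add w1 w2 h1 h2 =>
      obtain ⟨v1, h1⟩ := h1
      obtain ⟨v2, h2⟩ := h2
      refine ⟨v1 + v2, ?_⟩
      rw [Finsupp.mapDomain_add, Finsupp.mapDomain_add, add_sub_add_comm, h1, h2]
      abel
    | single x n =>
      obtain ⟨k, hk⟩ := Rex_fibre N' L c hL hle (s (f x)) x (Function.surjInv_eq hs _)
      obtain ⟨v', hv'⟩ := Rex_range N' (c : G ⧸ N') n (s (f x)) k
      refine ⟨v', ?_⟩
      rw [hv', ← hk, Finsupp.mapDomain_single]
      rfl
  obtain ⟨v', hv'⟩ := claim v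
  refine ⟨v', ?_⟩
  show Finsupp.mapDomain (fun x => x * (c : G ⧸ N')) v' - v' = v
  rw [hv', Finsupp.mapDomain_comp]
  have h0 : Finsupp.mapDomain f (v : (G ⧸ N') →₀ ℤ) = 0 := hv
  rw [h0, Finsupp.mapDomain_zero, sub_zero]

theorem rex_trf (N' L : Subgroup G) [N'.Normal] (c : G) (hL : L = N' ⊔ Subgroup.zpowers c)
    (hle : N' ≤ L) (hfin : N'.relIndex L ≠ 0) (v : (perm (G := G) ℤ ℤ (G ⧸ L))) :
    (rm N' (c : G ⧸ N') - 𝟙 _).hom ((trf (G := G) ℤ ℤ hle hfin).hom v) = 0 := by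
  show Finsupp.mapDomain (fun x => x * (c : G ⧸ N'))
    (trLin ℤ ℤ (Subgroup.quotientMapOfLE hle) (cosetMap_fiber hle hfin) (v : (G ⧸ L) →₀ ℤ)) -
    (trLin ℤ ℤ (Subgroup.quotientMapOfLE hle) (cosetMap_fiber hle hfin) (v : (G ⧸ L) →₀ ℤ)) = 0
  rw [sub_eq_zero]
  refine Finsupp.ext fun x => ?_
  rw [Rex_mapDomain, trLin_apply, trLin_apply]
  congr 1
  have h1 := Rex_same N' L c hL hle (x * (c : G ⧸ N')⁻¹)
  rw [inv_mul_cancel_right] at h1
  exact h1.symm

theorem Rex_inv (N' : Subgroup G) [N'.Normal] (q : G ⧸ N') (v : (G ⧸ N') →₀ ℤ)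
    (hv : Finsupp.mapDomain (fun x => x * q) v - v = 0) (x : G ⧸ N') (k : ℤ) :
    v (x * q ^ k) = v x := by
  have h1 : ∀ y, v (y * q) = v y := by
    intro y
    rw [sub_eq_zero] at hv
    have h2 := DFunLike.congr_fun hv (y * q)
    rw [Rex_mapDomain, mul_inv_cancel_right] at h2
    exact h2.symm
  induction k using Int.induction_on with
  | zero => simp
  | succ i ih =>
    rw [zpow_add_one, ← mul_assoc, h1]
    exact ih
  | pred i ih =>
    rw [← h1 (x * q ^ (-(i : ℤ) - 1)), mul_assoc, ← zpow_add_one, sub_add_cancel]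
    exact ih

theorem rex_fin (N' L : Subgroup G) [N'.Normal] (c : G) (hL : L = N' ⊔ Subgroup.zpowers c)
    (hle : N' ≤ L) (hfin : N'.relIndex L ≠ 0) (v : (perm (G := G) ℤ ℤ (G ⧸ N')))
    (hv : (rm N' (c : G ⧸ N') - 𝟙 _).hom v = 0) :
    ∃ v' : (perm (G := G) ℤ ℤ (G ⧸ L)), (trf (G := G) ℤ ℤ hle hfin).hom v' = v := by
  have hs := cosetMap_surj hle
  have hinj : Function.Injective (Function.surjInv hs) := Function.injective_surjInv hs
  refine ⟨Finsupp.comapDomain (Function.surjInv hs) (v : (G ⧸ N') →₀ ℤ) hinj.injOn, ?_⟩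
  refine Finsupp.ext fun x => ?_
  show (v : (G ⧸ N') →₀ ℤ) (Function.surjInv hs (Subgroup.quotientMapOfLE hle x)) =
    (v : (G ⧸ N') →₀ ℤ) x
  obtain ⟨k, hk⟩ := Rex_fibre N' L c hL hle
    (Function.surjInv hs (Subgroup.quotientMapOfLE hle x)) x (Function.surjInv_eq hs _)
  have h1 := Rex_inv N' (c : G ⧸ N') v hv
    (Function.surjInv hs (Subgroup.quotientMapOfLE hle x)) k
  rw [← hk] at h1
  exact h1.symm

theorem rex_inf (N' : Subgroup G) [N'.Normal] (c : G) (hc : ∀ k : ℤ, c ^ k ∈ N' → k = 0)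
    (v : (perm (G := G) ℤ ℤ (G ⧸ N'))) (hv : (rm N' (c : G ⧸ N') - 𝟙 _).hom v = 0) : v = 0 := by
  refine Finsupp.ext (f := (v : (G ⧸ N') →₀ ℤ)) (g := 0) fun x => ?_
  by_contra hne
  have hne' : (v : (G ⧸ N') →₀ ℤ) x ≠ 0 := hne
  have hinj : Function.Injective (fun k : ℤ => x * (c : G ⧸ N') ^ k) := by
    intro k l hkl
    have h1 : (c : G ⧸ N') ^ k = (c : G ⧸ N') ^ l := mul_left_cancel hkl
    have h2 : ((c ^ (k - l) : G) : G ⧸ N') = 1 := by
      rw [QuotientGroup.mk_zpow, zpow_sub, h1, mul_inv_cancel]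
    have h3 := hc (k - l) ((QuotientGroup.eq_one_iff _).1 h2)
    omega
  have hsub : Set.range (fun k : ℤ => x * (c : G ⧸ N') ^ k) ⊆
      ((v : (G ⧸ N') →₀ ℤ).support : Set (G ⧸ N')) := by
    rintro _ ⟨k, rfl⟩
    rw [Finset.mem_coe, Finsupp.mem_support_iff]
    show (v : (G ⧸ N') →₀ ℤ) (x * (c : G ⧸ N') ^ k) ≠ 0
    rw [Rex_inv N' (c : G ⧸ N') v hv x k]
    exact hne'
  exact Set.infinite_range_of_injective hinj
    (((v : (G ⧸ N') →₀ ℤ).support.finite_toSet).subset hsub)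

end Pool.Agent.PDN
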